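import Pool.Agent.Lib.MP_72e2e6_nt.Sm.NS.Spec

/-!
# MP_72e2e6_nt, `Sm/NS/Chb`: few polynomials have few prime divisors (helper7)
-/

set_option autoImplicit false

namespace Pool.Agent.MP72S.Ns

open Finset Polynomial MP72e2e6

theorem tChb (h1 : Lv.S_Nir) (h2 : S_Vr) : S_Chb := by
  intro F _ _ a b n σ ha hb hσ hσ0
  classical
  have hq : (0 : ℝ) < (Nat.card F : ℝ) := by
    exact_mod_cast Nat.card_pos
  obtain ⟨μ, hμ⟩ : ∃ μ : ℝ, μ = ∑ d ∈ Ico a b, (#(irr F d) : ℝ) / (Nat.card F : ℝ) ^ d :=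
    ⟨_, rfl⟩
  have h3 := h2 F a b n μ (by omega) hb hμ
  have h4 : σ / 2 ≤ μ := by
    rw [hσ, hμ, sum_div]
    refine sum_le_sum fun d hd => ?_
    rw [mem_Ico] at hd
    have hd0 : (0 : ℝ) < d := by
      have : 0 < d := by omega
      exact_mod_cast this
    have h5 := (h1 F).1 d (by omega)
    have h6 : (0 : ℝ) < (Nat.card F : ℝ) ^ d := pow_pos hq d
    rw [div_div, div_le_div_iff₀ (by positivity) h6]
    linarith
  have hμ0 : 0 < μ := lt_of_lt_of_le (by linarith) h4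
  obtain ⟨E, hE⟩ : ∃ E, E = (mon F n).filter fun f => (om a b f : ℝ) ≤ σ / 4 := ⟨_, rfl⟩
  have h5 : {f ∈ (mon F n : Set F[X]) | (om a b f : ℝ) ≤ σ / 4} = (E : Set F[X]) := by
    rw [hE, coe_filter]
    rfl
  rw [h5, Set.ncard_coe_finset]
  have h6 : (#E : ℝ) * (μ / 2) ^ 2 ≤ (Nat.card F : ℝ) ^ n * μ := by
    refine le_trans ?_ h3
    rw [← nsmul_eq_mul, ← sum_const]
    refine le_trans (sum_le_sum (f := fun _ => (μ / 2) ^ 2)
      (g := fun f => ((om a b f : ℝ) - μ) ^ 2) fun f hf => ?_) ?_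
    · rw [hE, mem_filter] at hf
      have h7 := hf.2
      have h8 : μ / 2 ≤ μ - (om a b f : ℝ) := by linarith
      have h9 : (μ / 2) ^ 2 ≤ (μ - (om a b f : ℝ)) ^ 2 :=
        pow_le_pow_left₀ (by linarith) h8 2
      calc (μ / 2) ^ 2 ≤ (μ - (om a b f : ℝ)) ^ 2 := h9
        _ = _ := by ring
    · refine sum_le_sum_of_subset_of_nonneg ?_ fun f _ _ => sq_nonneg _
      rw [hE]
      exact filter_subset _ _
  have h7 : (#E : ℝ) * μ ≤ 4 * (Nat.card F : ℝ) ^ n := by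
    have h8 : ((#E : ℝ) * μ) * μ ≤ (4 * (Nat.card F : ℝ) ^ n) * μ := by nlinarith [h6]
    exact le_of_mul_le_mul_right h8 hμ0
  rw [le_div_iff₀ hσ0]
  have h8 : (#E : ℝ) * (σ / 2) ≤ (#E : ℝ) * μ := mul_le_mul_of_nonneg_left h4 (Nat.cast_nonneg _)
  linarith

end Pool.Agent.MP72S.Ns
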