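import Pool.Agent.Lib.MP_72e2e6_nt.Sm.NS.Spec

/-!
# MP_72e2e6_nt, `Sm/NS`, module `Cnd`: the size conditions hold for large `n`
-/

set_option autoImplicit false

namespace Pool.Agent.MP72S.Ns

open Finset Polynomial MP72e2e6

private theorem cnd_pow (k : ℕ) : ∃ L₀ : ℕ, ∀ L, L₀ ≤ L → L ^ k ≤ 2 ^ L := by
  have h1 := tendsto_pow_const_div_const_pow_of_one_lt k (r := (2 : ℝ)) (by norm_num)
  have h2 := (h1.eventually (gt_mem_nhds (show (0 : ℝ) < 1 by norm_num)))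
  obtain ⟨L₀, hL₀⟩ := Filter.eventually_atTop.1 h2
  refine ⟨L₀, fun L hL => ?_⟩
  have h3 := hL₀ L hL
  rw [div_lt_one (by positivity)] at h3
  exact_mod_cast h3.le

/-- The bound for the exponent. -/
private theorem cnd_exp (A L : ℕ) (hL : 32 * (A + 1) ≤ L) :
    L ^ 6 + L ^ 2 * ((L + 1 + A * (L ^ 2 + 1) ^ A) * A) ≤ L ^ (3 * A + 7) := by
  have hA : A ≤ L := by omega
  have h2 : 2 ≤ L := by omega
  have h1 : 1 ≤ L := by omega
  have e1 : L + 1 ≤ L ^ 2 := by nlinarith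
  have e2 : L ^ 2 + 1 ≤ L ^ 3 := by
    have : 1 ≤ L ^ 2 := Nat.one_le_pow _ _ (by omega)
    calc L ^ 2 + 1 ≤ L ^ 2 * 2 := by omega
      _ ≤ L ^ 2 * L := Nat.mul_le_mul_left _ h2
      _ = L ^ 3 := by ring
  have e3 : (L ^ 2 + 1) ^ A ≤ L ^ (3 * A) := by
    rw [pow_mul]
    exact Nat.pow_le_pow_left e2 A
  have e4 : L + 1 + A * (L ^ 2 + 1) ^ A ≤ L ^ (3 * A + 3) := by
    have e5 : A * (L ^ 2 + 1) ^ A ≤ L ^ (3 * A + 1) := by
      calc A * (L ^ 2 + 1) ^ A ≤ L * L ^ (3 * A) := Nat.mul_le_mul hA e3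
        _ = L ^ (3 * A + 1) := by ring
    have e6 : L ^ 2 ≤ L ^ (3 * A + 2) := Nat.pow_le_pow_right h1 (by omega)
    have e7 : L ^ (3 * A + 1) ≤ L ^ (3 * A + 2) := Nat.pow_le_pow_right h1 (by omega)
    calc L + 1 + A * (L ^ 2 + 1) ^ A ≤ L ^ (3 * A + 2) * 2 := by omega
      _ ≤ L ^ (3 * A + 2) * L := Nat.mul_le_mul_left _ h2
      _ = L ^ (3 * A + 3) := by ring
  have e8 : (L + 1 + A * (L ^ 2 + 1) ^ A) * A ≤ L ^ (3 * A + 4) := by
    calc (L + 1 + A * (L ^ 2 + 1) ^ A) * A ≤ L ^ (3 * A + 3) * L := Nat.mul_le_mul e4 hA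
      _ = L ^ (3 * A + 4) := by ring
  have e9 : L ^ 2 * ((L + 1 + A * (L ^ 2 + 1) ^ A) * A) ≤ L ^ (3 * A + 6) := by
    calc L ^ 2 * ((L + 1 + A * (L ^ 2 + 1) ^ A) * A) ≤ L ^ 2 * L ^ (3 * A + 4) :=
          Nat.mul_le_mul_left _ e8
      _ = L ^ (3 * A + 6) := by ring
  have e10 : L ^ 6 ≤ L ^ (3 * A + 6) := Nat.pow_le_pow_right h1 (by omega)
  calc L ^ 6 + L ^ 2 * ((L + 1 + A * (L ^ 2 + 1) ^ A) * A) ≤ L ^ (3 * A + 6) * 2 := by omega
    _ ≤ L ^ (3 * A + 6) * L := Nat.mul_le_mul_left _ h2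
    _ = L ^ (3 * A + 7) := by ring

private theorem cnd_big (A L : ℕ) (hL : 32 * (A + 1) ≤ L) :
    (2 * (L + 1) + A * (L ^ 2 + 1)) * A ≤ L ^ 4 := by
  have hA : 32 * A ≤ L := by omega
  have h1 : 32 ≤ L := by omega
  have e1 : 2 * (L + 1) ≤ L ^ 2 := by nlinarith
  have e2 : 1 ≤ L ^ 2 := Nat.one_le_pow _ _ (by omega)
  have e3 : A * (L ^ 2 + 1) ≤ L * L ^ 2 := by
    calc A * (L ^ 2 + 1) ≤ A * (L ^ 2 * 2) := Nat.mul_le_mul_left _ (by omega)
      _ = (2 * A) * L ^ 2 := by ring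
      _ ≤ L * L ^ 2 := Nat.mul_le_mul_right _ (by omega)
  have e4 : L ^ 2 ≤ L * L ^ 2 := Nat.le_mul_of_pos_left _ (by omega)
  calc (2 * (L + 1) + A * (L ^ 2 + 1)) * A ≤ (L * L ^ 2 * 2) * A :=
        Nat.mul_le_mul_right _ (by omega)
    _ = L ^ 3 * (2 * A) := by ring
    _ ≤ L ^ 3 * L := Nat.mul_le_mul_left _ (by omega)
    _ = L ^ 4 := by ring

theorem tCnd : S_Cnd := by
  intro q A hq hA
  obtain ⟨L₀, hL₀⟩ := cnd_pow (3 * A + 7)
  refine ⟨2 ^ (max L₀ (32 * (A + 1))), ?_⟩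
  intro n hn L hLn t r k n' ht hr htr hk hsum hge hlast
  have hn0 : n ≠ 0 := by
    have : 0 < 2 ^ (max L₀ (32 * (A + 1))) := by positivity
    omega
  have hL1 : max L₀ (32 * (A + 1)) ≤ L := by
    rw [hLn]
    exact (Nat.le_log_iff_pow_le (by norm_num) hn0).2 hn
  have hLa : L₀ ≤ L := le_trans (le_max_left _ _) hL1
  have hLb : 32 * (A + 1) ≤ L := le_trans (le_max_right _ _) hL1
  have hlow : 2 ^ L ≤ n := by
    rw [hLn]
    exact Nat.pow_log_le_self 2 hn0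
  have hup : n ≤ 2 ^ (L + 1) := by
    rw [hLn]
    exact (Nat.lt_pow_succ_log_self (by norm_num) n).le
  have hAA : A ≤ 2 ^ A := Nat.lt_two_pow_self.le
  have htr' : t + r + 2 ≤ L ^ 2 + 1 := by omega
  have hpw : ∀ e : ℕ, A ^ e ≤ 2 ^ (A * e) := by
    intro e
    rw [pow_mul]
    exact Nat.pow_le_pow_left hAA e
  have hq2 : ∀ e : ℕ, 2 ^ e ≤ q ^ e := fun e => Nat.pow_le_pow_left hq e
  refine ⟨?_, hge, hlast, ?_, ?_, ?_⟩
  · have : 4 ≤ L := by omega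
    calc 4 ≤ L := this
      _ ≤ L ^ 4 := Nat.le_self_pow (by norm_num) L
  · have h1 : A * (L / (32 * A)) ≤ L / 32 := by
      rw [← Nat.div_div_eq_div_mul]
      exact Nat.mul_div_le (L / 32) A
    have h2 : A * t ≤ A * (L / (32 * A)) := Nat.mul_le_mul_left _ ht
    have h3 : A * (t + 1) = A * t + A := by ring
    rw [h3]
    omega
  · calc (n ^ 2 * A ^ (t + r + 2)) ^ A
        ≤ ((2 ^ (L + 1)) ^ 2 * 2 ^ (A * (L ^ 2 + 1))) ^ A := by
          refine Nat.pow_le_pow_left (Nat.mul_le_mul (Nat.pow_le_pow_left hup 2) ?_) A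
          exact le_trans (hpw _)
            (Nat.pow_le_pow_right (by norm_num) (Nat.mul_le_mul_left _ htr'))
      _ = 2 ^ ((2 * (L + 1) + A * (L ^ 2 + 1)) * A) := by
          rw [← pow_mul, ← pow_add, ← pow_mul]
          congr 1
          ring
      _ ≤ 2 ^ (L ^ 4) := Nat.pow_le_pow_right (by norm_num) (cnd_big A L hLb)
      _ ≤ q ^ (L ^ 4) := hq2 _
  · have hE : (L + 1 + A * (L ^ 2 + 1) ^ A) * A ≤ n' (Fin.last r) := by
      have h1 : ∑ i, n' i ≤ (r + 1) * n' (Fin.last r) := by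
        calc ∑ i, n' i ≤ ∑ _i : Fin (r + 1), n' (Fin.last r) :=
              Finset.sum_le_sum fun i _ => hlast i
          _ = (r + 1) * n' (Fin.last r) := by
              rw [Finset.sum_const, Finset.card_univ, Fintype.card_fin, smul_eq_mul]
      have h2 : (r + 1) * n' (Fin.last r) ≤ L ^ 2 * n' (Fin.last r) :=
        Nat.mul_le_mul_right _ (by omega)
      have h3 : k ≤ L ^ 6 := by
        calc k ≤ t * L ^ 4 := hk
          _ ≤ L ^ 2 * L ^ 4 := Nat.mul_le_mul_right _ (by omega)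
          _ = L ^ 6 := by ring
      have h4 := cnd_exp A L hLb
      have h5 := hL₀ L hLa
      have h6 : L ^ 2 * ((L + 1 + A * (L ^ 2 + 1) ^ A) * A) ≤ L ^ 2 * n' (Fin.last r) := by
        omega
      have h7 : 0 < L ^ 2 := by
        have : 0 < L := by omega
        positivity
      exact Nat.le_of_mul_le_mul_left h6 h7
    calc (n * A ^ ((t + r + 2) ^ A)) ^ A
        ≤ (2 ^ (L + 1) * 2 ^ (A * (L ^ 2 + 1) ^ A)) ^ A := by
          refine Nat.pow_le_pow_left (Nat.mul_le_mul hup ?_) A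
          exact le_trans (hpw _) (Nat.pow_le_pow_right (by norm_num)
            (Nat.mul_le_mul_left _ (Nat.pow_le_pow_left htr' A)))
      _ = 2 ^ ((L + 1 + A * (L ^ 2 + 1) ^ A) * A) := by
          rw [← pow_add, ← pow_mul]
      _ ≤ 2 ^ n' (Fin.last r) := Nat.pow_le_pow_right (by norm_num) hE
      _ ≤ q ^ n' (Fin.last r) := hq2 _

end Pool.Agent.MP72S.Ns
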