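import Pool.Agent.Lib.MP_72e2e6_nt.Sm.NS.Spec

/-!
# MP_72e2e6_nt, `Sm`, block NS: the number of the monic polynomials prime to `B` (Cop)
-/

set_option autoImplicit false

namespace Pool.Agent.MP72S.Ns

open Finset Polynomial MP72e2e6

section

variable {F : Type} [Field F] [Finite F]

private theorem rem_lt {B r : F[X]} {b : ℕ} (hB : B.Monic) (hb : B.natDegree = b)
    (hr : r ∈ mon F b) : (r - B).degree < B.degree := by
  obtain ⟨hr1, hr2⟩ := mem_mon.1 hr
  have hd : r.degree = B.degree := by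
    rw [degree_eq_natDegree hr1.ne_zero, degree_eq_natDegree hB.ne_zero, hr2, hb]
  rw [← hd]
  exact degree_sub_lt_left hd hr1.ne_zero (by rw [hr1.leadingCoeff, hB.leadingCoeff])

private theorem fwd {B r g : F[X]} {b n : ℕ} (hB : B.Monic) (hb : B.natDegree = b) (hn : b ≤ n)
    (hr : r ∈ mon F b) (hg : g ∈ mon F (n - b)) : r + B * (g - 1) ∈ mon F n := by
  obtain ⟨hg1, hg2⟩ := mem_mon.1 hg
  have e : r + B * (g - 1) = B * g + (r - B) := by ring
  have hBg : (B * g).Monic := hB.mul hg1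
  have hlt : (r - B).degree < (B * g).degree := by
    refine lt_of_lt_of_le (rem_lt hB hb hr) ?_
    rw [degree_mul]
    have : (0 : WithBot ℕ) ≤ g.degree := zero_le_degree_iff.2 hg1.ne_zero
    calc B.degree = B.degree + 0 := (add_zero _).symm
      _ ≤ B.degree + g.degree := by gcongr
  rw [e, mem_mon]
  refine ⟨hBg.add_of_left hlt, ?_⟩
  rw [natDegree_add_eq_left_of_degree_lt hlt, hB.natDegree_mul hg1, hb, hg2]
  omega

private theorem bwd {B f : F[X]} {b n : ℕ} (hB : B.Monic) (hb : B.natDegree = b) (hn : b ≤ n)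
    (hf : f ∈ mon F n) : B + f %ₘ B ∈ mon F b ∧ f /ₘ B ∈ mon F (n - b) := by
  obtain ⟨hf1, hf2⟩ := mem_mon.1 hf
  have hlt := degree_modByMonic_lt f hB
  refine ⟨mem_mon.2 ⟨hB.add_of_left hlt, ?_⟩, mem_mon.2 ⟨?_, ?_⟩⟩
  · rw [natDegree_add_eq_left_of_degree_lt hlt, hb]
  · have hle : B.degree ≤ f.degree := by
      rw [degree_eq_natDegree hf1.ne_zero, degree_eq_natDegree hB.ne_zero, hf2, hb]
      exact_mod_cast hn
    rw [Monic, leadingCoeff_divByMonic_of_monic hB hle, hf1.leadingCoeff]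
  · rw [natDegree_divByMonic f hB, hf2, hb]

private theorem cop_iff {B r g : F[X]} : IsCoprime (r + B * (g - 1)) B ↔ IsCoprime r B :=
  IsCoprime.add_mul_left_left_iff

open Classical in
private theorem cnt {B : F[X]} {b n : ℕ} (hB : B.Monic) (hb : B.natDegree = b) (hn : b ≤ n) :
    ((mon F n).filter fun f => IsCoprime f B).card =
      ((mon F b).filter fun f => IsCoprime f B).card * (mon F (n - b)).card := by
  rw [← Finset.card_product]
  symm
  refine Finset.card_bij' (fun x _ => x.1 + B * (x.2 - 1)) (fun f _ => (B + f %ₘ B, f /ₘ B))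
    ?_ ?_ ?_ ?_
  · rintro ⟨r, g⟩ hx
    simp only [Finset.mem_product, Finset.mem_filter] at hx ⊢
    exact ⟨fwd hB hb hn hx.1.1 hx.2, cop_iff.2 hx.1.2⟩
  · intro f hf
    simp only [Finset.mem_product, Finset.mem_filter] at hf ⊢
    obtain ⟨h1, h2⟩ := bwd hB hb hn hf.1
    refine ⟨⟨h1, ?_⟩, h2⟩
    have e : (B + f %ₘ B) + B * (f /ₘ B - 1) = f := by
      have := modByMonic_add_div f B
      linear_combination this
    rw [← cop_iff (g := f /ₘ B), e]
    exact hf.2
  · rintro ⟨r, g⟩ hx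
    simp only [Finset.mem_product, Finset.mem_filter] at hx
    obtain ⟨h1, h2⟩ := div_modByMonic_unique (f := r + B * (g - 1)) g (r - B) hB
      ⟨by ring, rem_lt hB hb hx.1.1⟩
    simp only [Prod.mk.injEq]
    refine ⟨?_, h1⟩
    rw [h2]
    ring
  · intro f _
    have := modByMonic_add_div f B
    simp only
    linear_combination this

end

theorem tCop (h1 : StmtTwMon.{0}) : S_Cop := by
  classical
  intro F _ _ B hB
  set B₁ : F[X] := B * C (B.leadingCoeff)⁻¹ with hB₁
  have hm : B₁.Monic := monic_mul_leadingCoeff_inv hB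
  have hlc : B.leadingCoeff ≠ 0 := leadingCoeff_ne_zero.2 hB
  have hdeg : B₁.natDegree = B.natDegree := natDegree_mul_C (inv_ne_zero hlc)
  have hunit : IsUnit (C (B.leadingCoeff)⁻¹ : F[X]) :=
    isUnit_C.2 (isUnit_iff_ne_zero.2 (inv_ne_zero hlc))
  have hcop : ∀ f : F[X], IsCoprime f B ↔ IsCoprime f B₁ := fun f =>
    (isCoprime_mul_unit_right_right hunit f B).symm
  refine ⟨((mon F B.natDegree).filter fun f => IsCoprime f B₁).card, ?_, ?_⟩
  · rw [Nat.one_le_iff_ne_zero, Finset.card_ne_zero]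
    by_cases hb : B.natDegree = 0
    · refine ⟨1, Finset.mem_filter.2 ⟨mem_mon.2 ⟨monic_one, ?_⟩, isCoprime_one_left⟩⟩
      rw [natDegree_one, hb]
    · have hlt : (1 : F[X]).degree < B₁.degree := by
        rw [degree_one, degree_eq_natDegree hm.ne_zero, hdeg]
        exact_mod_cast Nat.pos_of_ne_zero hb
      refine ⟨B₁ + 1, Finset.mem_filter.2 ⟨mem_mon.2 ⟨hm.add_of_left hlt, ?_⟩, ?_⟩⟩
      · rw [natDegree_add_eq_left_of_degree_lt hlt, hdeg]
      · refine ⟨1, -1, by ring⟩
  · intro n hn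
    have e : {f ∈ (mon F n : Set F[X]) | IsCoprime f B} =
        ((mon F n).filter fun f => IsCoprime f B₁ : Finset F[X]) := by
      ext f
      simp [hcop f]
    rw [e, Set.ncard_coe_finset, cnt hm hdeg hn, (h1 F).1]

end Pool.Agent.MP72S.Ns
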