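import Pool.Agent.Lib.MP_72e2e6_nt.Sm.NS.SpecT

/-! # MP_72e2e6_nt, `Sm/NS`: decomposition of a tame polynomial -/

set_option autoImplicit false

namespace Pool.Agent.MP72S.Ns

open Finset Polynomial MP72e2e6 MP72T

section dcp

variable {F : Type} [Field F]

private theorem dcp_ne {a : Fin 3 → F[X]} (ha : Function.Injective a) : Dlt a ≠ 0 := by
  have h : ∀ i j : Fin 3, i ≠ j → a i - a j ≠ 0 := fun i j hij h0 => hij (ha (sub_eq_zero.1 h0))
  exact mul_ne_zero (mul_ne_zero (h 0 1 (by decide)) (h 0 2 (by decide))) (h 1 2 (by decide))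

private theorem dcp_dvd {d Δ : F[X]} (hd : Squarefree d) (hΔ : Δ ≠ 0)
    (h : ∀ P, Irreducible P → P ∣ d → P ∣ Δ) : d ∣ Δ := by
  classical
  have hd0 : d ≠ 0 := hd.ne_zero
  rw [UniqueFactorizationMonoid.dvd_iff_normalizedFactors_le_normalizedFactors hd0 hΔ,
    Multiset.le_iff_subset
      ((UniqueFactorizationMonoid.squarefree_iff_nodup_normalizedFactors hd0).1 hd)]
  intro P hP
  rw [UniqueFactorizationMonoid.mem_normalizedFactors_iff' hd0] at hP
  rw [UniqueFactorizationMonoid.mem_normalizedFactors_iff' hΔ]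
  exact ⟨hP.1, hP.2.1, h P hP.1 hP.2.2⟩

private theorem dcp_fin [Finite F] (N : ℕ) : {d : F[X] | d.natDegree ≤ N}.Finite := by
  refine Set.Finite.of_finite_image (f := fun (h : F[X]) (i : Fin (N + 1)) => h.coeff i)
    (Set.toFinite _) ?_
  intro g hg h hh hgh
  change g.natDegree ≤ N at hg
  change h.natDegree ≤ N at hh
  ext i
  by_cases hi : i < N + 1
  · exact congrFun hgh ⟨i, hi⟩
  · rw [coeff_eq_zero_of_natDegree_lt (by omega), coeff_eq_zero_of_natDegree_lt (by omega)]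

private theorem dcp_not_dvd {Δ f P : F[X]} (hf : IsCoprime f Δ) (hP : Irreducible P)
    (h1 : P ∣ f) (h2 : P ∣ Δ) : False :=
  hP.not_isUnit (hf.isUnit_of_dvd' h1 h2)

private theorem dcp_mult {Δ d f P : F[X]} (hf : IsCoprime f Δ) (hP : Irreducible P)
    (h2 : P ∣ Δ) (h0 : d * f ≠ 0) : multiplicity P (d * f) = multiplicity P d := by
  rw [multiplicity_mul hP.prime (FiniteMultiplicity.of_prime_left hP.prime h0),
    multiplicity_eq_zero.2 (fun h1 => dcp_not_dvd hf hP h1 h2), add_zero]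

end dcp

theorem tDcp : S_Dcp := by
  classical
  intro F _ _ a ha
  have hΔ : Dlt a ≠ 0 := dcp_ne ha
  have hcop : ∀ d ∈ tm0 a, ∀ k : ℕ, ∀ f ∈ sqf F (Dlt a) k, IsCoprime d f := by
    intro d hd k f hf
    unfold sqf at hf
    rw [mem_filter] at hf
    refine isCoprime_of_irreducible_dvd (fun h => hd.1.sqf.ne_zero h.1) fun P hP h1 h2 => ?_
    exact dcp_not_dvd hf.2.2 hP h2 (hd.2 P hP h1)
  refine ⟨?_, ?_, ?_⟩
  · refine (dcp_fin (F := F) (Dlt a).natDegree).subset fun d hd => ?_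
    exact natDegree_le_of_dvd (dcp_dvd hd.1.sqf hΔ hd.2) hΔ
  · intro n D
    constructor
    · rintro ⟨hn, hD⟩
      have hD0 : D ≠ 0 := hD.sqf.ne_zero
      obtain ⟨f₀, hf₀⟩ := EuclideanDomain.gcd_dvd_left D (Dlt a)
      obtain ⟨g, hg⟩ : ∃ g, g = EuclideanDomain.gcd D (Dlt a) := ⟨_, rfl⟩
      have hgΔ : g ∣ Dlt a := by rw [hg]; exact EuclideanDomain.gcd_dvd_right _ _
      rw [← hg] at hf₀
      have hf₀0 : f₀ ≠ 0 := by
        rintro rfl
        rw [mul_zero] at hf₀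
        exact hD0 hf₀
      have hg0 : g ≠ 0 := by
        rintro rfl
        rw [zero_mul] at hf₀
        exact hD0 hf₀
      have hlc : f₀.leadingCoeff ≠ 0 := leadingCoeff_ne_zero.2 hf₀0
      -- the two factors
      have hu1 : IsUnit (C f₀.leadingCoeff) := (isUnit_C).2 (isUnit_iff_ne_zero.2 hlc)
      have hu2 : IsUnit (C f₀.leadingCoeff⁻¹) :=
        (isUnit_C).2 (isUnit_iff_ne_zero.2 (inv_ne_zero hlc))
      have hDdf : D = (g * C f₀.leadingCoeff) * (f₀ * C f₀.leadingCoeff⁻¹) := by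
        have h1 : C f₀.leadingCoeff * C f₀.leadingCoeff⁻¹ = (1 : F[X]) := by
          rw [← C_mul, mul_inv_cancel₀ hlc, C_1]
        calc D = g * f₀ * (C f₀.leadingCoeff * C f₀.leadingCoeff⁻¹) := by
              rw [h1, mul_one]; exact hf₀
          _ = _ := by ring
      obtain ⟨d, hd⟩ : ∃ d, d = g * C f₀.leadingCoeff := ⟨_, rfl⟩
      obtain ⟨f, hf⟩ : ∃ f, f = f₀ * C f₀.leadingCoeff⁻¹ := ⟨_, rfl⟩
      rw [← hd, ← hf] at hDdf
      have hfm : f.Monic := by
        rw [hf]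
        exact monic_mul_leadingCoeff_inv hf₀0
      have hdD : d ∣ D := ⟨f, hDdf⟩
      have hfD : f ∣ D := ⟨d, by rw [hDdf, mul_comm]⟩
      have hfc : IsCoprime f (Dlt a) := by
        refine isCoprime_of_irreducible_dvd (fun h => hΔ h.2) fun P hP h1 h2 => ?_
        have h3 : P ∣ D := h1.trans hfD
        have h4 : P ∣ g := by rw [hg]; exact EuclideanDomain.dvd_gcd h3 h2
        have h5 : P * P ∣ D := by
          rw [hDdf, hd]
          exact mul_dvd_mul (h4.mul_right _) h1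
        exact hP.not_isUnit (hD.sqf P h5)
      have hdf0 : d * f ≠ 0 := by rw [← hDdf]; exact hD0
      refine ⟨d, ⟨⟨hD.sqf.squarefree_of_dvd hdD, ?_⟩, ?_⟩, f.natDegree, ?_, f, ?_, hDdf⟩
      · intro P hP hPΔ i
        obtain ⟨j, hj, ho⟩ := hD.odd P hP hPΔ i
        refine ⟨j, hj, ?_⟩
        rw [hDdf, dcp_mult hfc hP hPΔ hdf0] at ho
        exact ho
      · intro P hP h1
        have h2 : P ∣ g := by
          rw [hd] at h1
          rcases hP.prime.dvd_or_dvd h1 with h3 | h3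
          · exact h3
          · exact absurd (isUnit_of_dvd_unit h3 hu1) hP.not_isUnit
        exact h2.trans hgΔ
      · rw [← natDegree_mul (left_ne_zero_of_mul hdf0) (right_ne_zero_of_mul hdf0), ← hDdf, hn]
      · unfold sqf
        rw [mem_filter, mem_mon]
        exact ⟨⟨hfm, rfl⟩, hD.sqf.squarefree_of_dvd hfD, hfc⟩
    · rintro ⟨d, hd, k, hk, f, hf, rfl⟩
      have hcdf := hcop d hd k f hf
      unfold sqf at hf
      rw [mem_filter, mem_mon] at hf
      obtain ⟨⟨hfm, hfk⟩, hfs, hfc⟩ := hf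
      have hd0 : d ≠ 0 := hd.1.sqf.ne_zero
      have hdf0 : d * f ≠ 0 := mul_ne_zero hd0 hfm.ne_zero
      refine ⟨?_, ⟨?_, ?_⟩⟩
      · rw [natDegree_mul hd0 hfm.ne_zero, hfk, hk]
      · exact squarefree_mul_iff.2 ⟨hcdf.isRelPrime, hd.1.sqf, hfs⟩
      · intro P hP hPΔ i
        obtain ⟨j, hj, ho⟩ := hd.1.odd P hP hPΔ i
        refine ⟨j, hj, ?_⟩
        rw [dcp_mult hfc hP hPΔ hdf0]
        exact ho
  · intro d hd d' hd' k k' f hf f' hf' he
    have h1 : f ∣ f' := by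
      refine (hcop d' hd' k f hf).symm.dvd_of_dvd_mul_left ?_
      rw [← he]
      exact dvd_mul_left f d
    have h2 : f' ∣ f := by
      refine (hcop d hd k' f' hf').symm.dvd_of_dvd_mul_left ?_
      rw [he]
      exact dvd_mul_left f' d'
    unfold sqf at hf hf'
    rw [mem_filter, mem_mon] at hf hf'
    have h3 : f = f' := eq_of_monic_of_associated hf.1.1 hf'.1.1 (associated_of_dvd_dvd h1 h2)
    subst h3
    exact ⟨mul_right_cancel₀ hf.1.1.ne_zero he, rfl⟩

end Pool.Agent.MP72S.Ns
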