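import Pool.Agent.Lib.MP_72e2e6_nt.Sm.NS.Spec

/-!
# MP_72e2e6_nt, `Sm/NS`, module `Dens`: natural density
-/

set_option autoImplicit false

namespace Pool.Agent.MP72S.Ns

open Finset Polynomial MP72e2e6

private theorem dens_mono {q A₀ A t r n h : ℕ} {n' : Fin (r + 1) → ℕ} (hA : A₀ ≤ A) (hA1 : 1 ≤ A)
    (hn : 1 ≤ n) (H : FrN q A t r n h n') : FrN q A₀ t r n h n' where
  four := H.four
  ge := H.ge
  last := H.last
  rat := (Nat.mul_le_mul_right _ hA).trans H.rat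
  big := by
    refine le_trans ?_ H.big
    calc (n ^ 2 * A₀ ^ (t + r + 2)) ^ A₀ ≤ (n ^ 2 * A ^ (t + r + 2)) ^ A₀ :=
          Nat.pow_le_pow_left (Nat.mul_le_mul_left _ (Nat.pow_le_pow_left hA _)) _
      _ ≤ (n ^ 2 * A ^ (t + r + 2)) ^ A := Nat.pow_le_pow_right (by positivity) hA
  hug := by
    refine le_trans ?_ H.hug
    have e1 : A₀ ^ ((t + r + 2) ^ A₀) ≤ A ^ ((t + r + 2) ^ A) :=
      (Nat.pow_le_pow_left hA _).trans
        (Nat.pow_le_pow_right hA1 (Nat.pow_le_pow_right (by omega) hA))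
    calc (n * A₀ ^ ((t + r + 2) ^ A₀)) ^ A₀ ≤ (n * A ^ ((t + r + 2) ^ A)) ^ A₀ :=
          Nat.pow_le_pow_left (Nat.mul_le_mul_left _ e1) _
      _ ≤ (n * A ^ ((t + r + 2) ^ A)) ^ A := Nat.pow_le_pow_right (by positivity) hA

private theorem dens_four (L : ℕ) (hL : 16 ≤ L) : L ^ 4 ≤ 2 ^ L := by
  induction L, hL using Nat.le_induction with
  | base => norm_num
  | succ L hL ih =>
    have h1 : (L + 1) ^ 4 ≤ 2 * L ^ 4 := by
      obtain ⟨k, rfl⟩ := Nat.exists_eq_add_of_le hL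
      ring_nf
      nlinarith [Nat.zero_le k, Nat.zero_le (k ^ 2), Nat.zero_le (k ^ 3), Nat.zero_le (k ^ 4)]
    calc (L + 1) ^ 4 ≤ 2 * L ^ 4 := h1
      _ ≤ 2 * 2 ^ L := Nat.mul_le_mul_left _ ih
      _ = 2 ^ (L + 1) := by ring

open scoped Classical in
private theorem dens_frame (hFib : S_Fib) (F : Type) [Field F] [Finite F] (B : F[X]) (hB : B ≠ 0)
    (h n r : ℕ) (hBh : B.natDegree < h) (good : F[X] → Prop) (T₀ M : ℕ) (ε : ℝ)
    (key : ∀ s ∈ Sml F B h n, ∀ n' ∈ Deg h n s.natDegree (r + 1), om 1 h s ≤ T₀ →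
      om 1 h s + (r + 1) ≤ M → (1 - ε) * (#(tpl F n') : ℝ) ≤
        ({z ∈ (tpl F n' : Set (Fin (r + 1) → F[X])) | good (s * ∏ i, z i)}.ncard : ℝ)) :
    (1 - ε) * (#(((sqf F B n).filter (fun f => om h (n + 1) f = r + 1)).filter
      (fun f => om 1 h f ≤ T₀ ∧ om 1 h f + (r + 1) ≤ M)) : ℝ) ≤
     (#(((sqf F B n).filter (fun f => om h (n + 1) f = r + 1)).filter
      (fun f => (om 1 h f ≤ T₀ ∧ om 1 h f + (r + 1) ≤ M) ∧ good f)) : ℝ) := by
  obtain ⟨h1, h2⟩ := hFib F B h n (r + 1) hB hBh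
  have hfac : (0 : ℝ) < ((r + 1).factorial : ℝ) := by exact_mod_cast Nat.factorial_pos _
  refine le_of_mul_le_mul_left ?_ hfac
  rw [← mul_assoc, mul_comm _ (1 - ε), mul_assoc]
  have e1 := h2 (fun f => if (om 1 h f ≤ T₀ ∧ om 1 h f + (r + 1) ≤ M) then (1 : ℝ) else 0)
  have e2 := h2 (fun f =>
    if ((om 1 h f ≤ T₀ ∧ om 1 h f + (r + 1) ≤ M) ∧ good f) then (1 : ℝ) else 0)
  rw [Finset.sum_boole] at e1 e2
  rw [e1, e2, Finset.mul_sum]
  refine Finset.sum_le_sum fun s hs => ?_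
  rw [Finset.mul_sum]
  refine Finset.sum_le_sum fun n' hn' => ?_
  rw [Finset.sum_boole, Finset.sum_boole]
  by_cases hc : om 1 h s ≤ T₀ ∧ om 1 h s + (r + 1) ≤ M
  · have e3 : (tpl F n').filter (fun z => om 1 h (s * ∏ i, z i) ≤ T₀ ∧
        om 1 h (s * ∏ i, z i) + (r + 1) ≤ M) = tpl F n' := by
      refine Finset.filter_true_of_mem fun z hz => ?_
      rw [(h1 s hs n' hn' z hz).2.2]
      exact hc
    have e4 : ((tpl F n').filter (fun z => (om 1 h (s * ∏ i, z i) ≤ T₀ ∧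
        om 1 h (s * ∏ i, z i) + (r + 1) ≤ M) ∧ good (s * ∏ i, z i)) : Finset _) =
        (tpl F n').filter (fun z => good (s * ∏ i, z i)) := by
      refine Finset.filter_congr fun z hz => ?_
      rw [(h1 s hs n' hn' z hz).2.2]
      exact and_iff_right hc
    have e5 : ({z ∈ (tpl F n' : Set (Fin (r + 1) → F[X])) | good (s * ∏ i, z i)}.ncard) =
        #((tpl F n').filter (fun z => good (s * ∏ i, z i))) := by
      rw [← Set.ncard_coe_finset]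
      congr 1
      ext z
      simp
    rw [e3, e4, ← e5]
    exact key s hs n' hn' hc.1 hc.2
  · have e3 : (tpl F n').filter (fun z => om 1 h (s * ∏ i, z i) ≤ T₀ ∧
        om 1 h (s * ∏ i, z i) + (r + 1) ≤ M) = ∅ := by
      refine Finset.filter_false_of_mem fun z hz => ?_
      rw [(h1 s hs n' hn' z hz).2.2]
      exact hc
    rw [e3, Finset.card_empty, Nat.cast_zero, mul_zero]
    exact Nat.cast_nonneg _

private theorem dens_om {F : Type} [Field F] [Finite F] {a b c : ℕ} (hab : a ≤ b) (hbc : b ≤ c)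
    (f : F[X]) : om a c f = om a b f + om b c f := by
  unfold om
  exact (Finset.sum_Ico_consecutive _ hab hbc).symm

open scoped Classical in
/-- Summation over the number of the large prime divisors. -/
private theorem dens_sum (F : Type) [Field F] [Finite F] (S : Finset F[X]) (ω τ : F[X] → ℕ)
    (good : F[X] → Prop) (T₀ M l : ℕ) (hl : 1 ≤ l) (ε : ℝ)
    (key : ∀ r : ℕ, l ≤ r + 1 → (1 - ε) * (#((S.filter (fun f => ω f = r + 1)).filter
      (fun f => τ f ≤ T₀ ∧ τ f + (r + 1) ≤ M)) : ℝ) ≤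
     (#((S.filter (fun f => ω f = r + 1)).filter
      (fun f => (τ f ≤ T₀ ∧ τ f + (r + 1) ≤ M) ∧ good f)) : ℝ)) :
    (1 - ε) * (#(S.filter (fun f => l ≤ ω f ∧ τ f ≤ T₀ ∧ τ f + ω f ≤ M)) : ℝ) ≤
      #(S.filter (fun f => (l ≤ ω f ∧ τ f ≤ T₀ ∧ τ f + ω f ≤ M) ∧ good f)) := by
  have e1 : #(S.filter (fun f => l ≤ ω f ∧ τ f ≤ T₀ ∧ τ f + ω f ≤ M)) =
      ∑ m ∈ Finset.Icc l M, #((S.filter (fun f => l ≤ ω f ∧ τ f ≤ T₀ ∧ τ f + ω f ≤ M)).filter
        (fun f => ω f = m)) := by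
    refine Finset.card_eq_sum_card_fiberwise fun f hf => ?_
    have hf' := Finset.mem_filter.1 (Finset.mem_coe.1 hf)
    exact Finset.mem_coe.2 (Finset.mem_Icc.2 ⟨hf'.2.1, by have := hf'.2.2.2; omega⟩)
  have e2 : #(S.filter (fun f => (l ≤ ω f ∧ τ f ≤ T₀ ∧ τ f + ω f ≤ M) ∧ good f)) =
      ∑ m ∈ Finset.Icc l M, #((S.filter (fun f => (l ≤ ω f ∧ τ f ≤ T₀ ∧ τ f + ω f ≤ M) ∧
        good f)).filter (fun f => ω f = m)) := by
    refine Finset.card_eq_sum_card_fiberwise fun f hf => ?_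
    have hf' := Finset.mem_filter.1 (Finset.mem_coe.1 hf)
    exact Finset.mem_coe.2 (Finset.mem_Icc.2 ⟨hf'.2.1.1, by have := hf'.2.1.2.2; omega⟩)
  rw [e1, e2]
  push_cast
  rw [Finset.mul_sum]
  refine Finset.sum_le_sum fun m hm => ?_
  rw [Finset.mem_Icc] at hm
  obtain ⟨r, rfl⟩ : ∃ r, m = r + 1 := ⟨m - 1, by omega⟩
  have e3 : (S.filter (fun f => l ≤ ω f ∧ τ f ≤ T₀ ∧ τ f + ω f ≤ M)).filter
        (fun f => ω f = r + 1) = (S.filter (fun f => ω f = r + 1)).filter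
      (fun f => τ f ≤ T₀ ∧ τ f + (r + 1) ≤ M) := by
    ext f
    simp only [Finset.mem_filter]
    constructor
    · rintro ⟨⟨a1, a2, a3, a4⟩, a5⟩
      exact ⟨⟨a1, a5⟩, a3, by omega⟩
    · rintro ⟨⟨a1, a5⟩, a3, a4⟩
      exact ⟨⟨a1, by omega, a3, by omega⟩, a5⟩
  have e4 : (S.filter (fun f => (l ≤ ω f ∧ τ f ≤ T₀ ∧ τ f + ω f ≤ M) ∧ good f)).filter
        (fun f => ω f = r + 1) = (S.filter (fun f => ω f = r + 1)).filter
      (fun f => (τ f ≤ T₀ ∧ τ f + (r + 1) ≤ M) ∧ good f) := by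
    ext f
    simp only [Finset.mem_filter]
    constructor
    · rintro ⟨⟨a1, ⟨a2, a3, a4⟩, a6⟩, a5⟩
      exact ⟨⟨a1, a5⟩, ⟨a3, by omega⟩, a6⟩
    · rintro ⟨⟨a1, a5⟩, ⟨a3, a4⟩, a6⟩
      exact ⟨⟨a1, ⟨by omega, a3, by omega⟩, a6⟩, a5⟩
  rw [e3, e4]
  exact key r (by omega)

theorem tDens (h1 : S_Sqf) (h2 : S_Few) (h3 : S_Sdg) (h4 : S_Cnd) (h5 : S_Fib) (h6 : S_Srt) :
    S_Dens := by
  classical
  intro F _ _ hq B hB good par hyp
  -- it is enough to consider small `ε`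
  suffices H : ∀ ε : ℝ, 0 < ε → ε ≤ 1 → ∃ n₀ : ℕ, ∀ n, n₀ ≤ n → par n →
      (1 - ε) * (#(sqf F B n) : ℝ) ≤ ({f ∈ (sqf F B n : Set F[X]) | good f}.ncard : ℝ) by
    intro ε hε
    obtain ⟨n₀, hn₀⟩ := H (min ε 1) (lt_min hε one_pos) (min_le_right _ _)
    refine ⟨n₀, fun n hn hp => (mul_le_mul_of_nonneg_right ?_ (Nat.cast_nonneg _)).trans
      (hn₀ n hn hp)⟩
    have := min_le_left ε 1
    linarith
  intro ε hε hε1
  obtain ⟨c, hc, n₁, hn₁⟩ := h1 F hq B hB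
  obtain ⟨A₀, hA₀⟩ := hyp (ε / 2) (by linarith)
  obtain ⟨A, hA, hA1⟩ : ∃ A, A₀ ≤ A ∧ 1 ≤ A := ⟨max A₀ 1, le_max_left _ _, le_max_right _ _⟩
  obtain ⟨n₂, hn₂⟩ := h2 F A hA1 (ε * c / 2) (by positivity)
  obtain ⟨n₃, hn₃⟩ := h4 (Nat.card F) A (by omega) hA1
  refine ⟨max (max n₁ n₂) (max n₃ (2 ^ (16 + (B.natDegree + 1)))), fun n hn hpar => ?_⟩
  have g1 : n₁ ≤ n := (le_max_left _ _).trans ((le_max_left _ _).trans hn)
  have g2 : n₂ ≤ n := (le_max_right _ _).trans ((le_max_left _ _).trans hn)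
  have g3 : n₃ ≤ n := (le_max_left _ _).trans ((le_max_right _ _).trans hn)
  have g4 : 2 ^ (16 + (B.natDegree + 1)) ≤ n := (le_max_right _ _).trans ((le_max_right _ _).trans hn)
  have hn1 : 1 ≤ n := Nat.one_le_two_pow.trans g4
  obtain ⟨L, hL⟩ : ∃ L, L = Nat.log 2 n := ⟨_, rfl⟩
  have hL1 : 16 + (B.natDegree + 1) ≤ L := by
    rw [hL]
    exact Nat.le_log_of_pow_le (by norm_num) g4
  have hL2 : 2 ^ L ≤ n := by
    rw [hL]
    exact Nat.pow_log_le_self 2 (by omega)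
  have hL4 : L ^ 4 ≤ n := (dens_four L (by omega)).trans hL2
  have hLL : L ≤ L ^ 4 := Nat.le_self_pow (by norm_num) L
  have hl : 1 ≤ L / 16 := by omega
  have few := hn₂ n g2 L hL
  have many := hn₁ n g1
  -- the frames
  have key := dens_sum F (sqf F B n) (om (L ^ 4) (n + 1)) (om 1 (L ^ 4)) good (L / (32 * A))
    (L ^ 2) (L / 16) hl (ε / 2) (by
    intro r hr
    refine dens_frame h5 F B hB (L ^ 4) n r (by omega) good _ _ _ ?_
    intro s hs n' hn' ht hM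
    unfold Deg at hn'
    rw [Finset.mem_filter, Fintype.mem_piFinset] at hn'
    obtain ⟨n'', k1, k2, k3, k4, k5⟩ := h6 F r n'
    have k6 := k5 (fun x => good (s * x))
    have hs' := hs
    unfold Sml at hs'
    rw [Finset.mem_biUnion] at hs'
    obtain ⟨k, -, hk⟩ := hs'
    rw [Finset.mem_filter] at hk
    obtain ⟨hk1, hk2, -, hk4⟩ := hk
    have hsm : s.Monic := (mem_mon.1 hk1).1
    have hdeg := h3 F s (L ^ 4) hsm hk2 hk4
    have hfr := hn₃ n g3 L hL (om 1 (L ^ 4) s) r s.natDegree n'' ht hr hM hdeg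
      (by rw [k2]; exact hn'.2) (k3 _ fun i => (Finset.mem_Icc.1 (hn'.1 i)).1) k1
    have h7 := hA₀ n (L ^ 4) (by omega) hpar s hs r n'' (by rw [k2]; exact hn'.2)
      (dens_mono hA hA1 hn1 hfr)
    rw [k4, k6] at h7
    exact h7)
  -- the exceptional set
  have hsub : ((sqf F B n : Set F[X]) \ ((sqf F B n).filter (fun f => L / 16 ≤ om (L ^ 4) (n + 1) f ∧
      om 1 (L ^ 4) f ≤ L / (32 * A) ∧ om 1 (L ^ 4) f + om (L ^ 4) (n + 1) f ≤ L ^ 2) : Set F[X])) ⊆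
      {f ∈ (mon F n : Set F[X]) | ¬ (L / 16 ≤ om (L ^ 4) (n + 1) f ∧
      om 1 (L ^ 4) f ≤ L / (32 * A) ∧ om 1 (n + 1) f ≤ L ^ 2)} := by
    rintro f ⟨hf1, hf2⟩
    refine ⟨?_, fun hcon => hf2 ?_⟩
    · have : f ∈ sqf F B n := hf1
      unfold sqf at this
      exact Finset.mem_coe.2 (Finset.mem_filter.1 this).1
    · rw [dens_om (show 1 ≤ L ^ 4 by omega) (show L ^ 4 ≤ n + 1 by omega) f] at hcon
      exact Finset.mem_coe.2 (Finset.mem_filter.2 ⟨hf1, hcon⟩)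
  have hfin : {f ∈ (mon F n : Set F[X]) | ¬ (L / 16 ≤ om (L ^ 4) (n + 1) f ∧
      om 1 (L ^ 4) f ≤ L / (32 * A) ∧ om 1 (n + 1) f ≤ L ^ 2)}.Finite :=
    (mon F n).finite_toSet.subset fun f hf => hf.1
  have h8 := Set.ncard_le_ncard hsub hfin
  rw [← Finset.coe_sdiff, Set.ncard_coe_finset, Finset.card_sdiff_of_subset (Finset.filter_subset _ _)] at h8
  -- the good polynomials
  have h9 : #((sqf F B n).filter (fun f => (L / 16 ≤ om (L ^ 4) (n + 1) f ∧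
      om 1 (L ^ 4) f ≤ L / (32 * A) ∧ om 1 (L ^ 4) f + om (L ^ 4) (n + 1) f ≤ L ^ 2) ∧ good f)) ≤
      {f ∈ (sqf F B n : Set F[X]) | good f}.ncard := by
    rw [← Set.ncard_coe_finset]
    refine Set.ncard_le_ncard ?_ ((sqf F B n).finite_toSet.subset fun f hf => hf.1)
    intro f hf
    have hf' := Finset.mem_filter.1 (Finset.mem_coe.1 hf)
    exact ⟨hf'.1, hf'.2.2⟩
  have h9' : ((#((sqf F B n).filter (fun f => (L / 16 ≤ om (L ^ 4) (n + 1) f ∧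
      om 1 (L ^ 4) f ≤ L / (32 * A) ∧ om 1 (L ^ 4) f + om (L ^ 4) (n + 1) f ≤ L ^ 2) ∧ good f)) : ℕ) : ℝ) ≤
      (({f ∈ (sqf F B n : Set F[X]) | good f}.ncard : ℕ) : ℝ) := by exact_mod_cast h9
  generalize {f ∈ (sqf F B n : Set F[X]) | good f}.ncard = g at *
  generalize {f ∈ (mon F n : Set F[X]) | ¬ (L / 16 ≤ om (L ^ 4) (n + 1) f ∧
      om 1 (L ^ 4) f ≤ L / (32 * A) ∧ om 1 (n + 1) f ≤ L ^ 2)}.ncard = e at *
  generalize #((sqf F B n).filter (fun f => L / 16 ≤ om (L ^ 4) (n + 1) f ∧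
      om 1 (L ^ 4) f ≤ L / (32 * A) ∧ om 1 (L ^ 4) f + om (L ^ 4) (n + 1) f ≤ L ^ 2)) = G at *
  generalize #((sqf F B n).filter (fun f => (L / 16 ≤ om (L ^ 4) (n + 1) f ∧
      om 1 (L ^ 4) f ≤ L / (32 * A) ∧ om 1 (L ^ 4) f + om (L ^ 4) (n + 1) f ≤ L ^ 2) ∧ good f)) = G' at *
  generalize #(sqf F B n) = Sq at *
  have h10 : Sq ≤ G + e := by omega
  have h10' : (Sq : ℝ) ≤ G + e := by exact_mod_cast h10
  have h11 : (e : ℝ) ≤ ε / 2 * Sq := by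
    calc (e : ℝ) ≤ ε * c / 2 * (Nat.card F : ℝ) ^ n := few
      _ = ε / 2 * (c * (Nat.card F : ℝ) ^ n) := by ring
      _ ≤ ε / 2 * Sq := mul_le_mul_of_nonneg_left many (by linarith)
  have h12 : (1 - ε / 2) * Sq ≤ G := by linarith
  have h13 : (1 - ε / 2) * ((1 - ε / 2) * Sq) ≤ (1 - ε / 2) * G :=
    mul_le_mul_of_nonneg_left h12 (by linarith)
  have h14 : (1 - ε) * Sq ≤ (1 - ε / 2) * ((1 - ε / 2) * Sq) := by
    have : (1 - ε / 2) * ((1 - ε / 2) * Sq) = (1 - ε) * Sq + (ε / 2) ^ 2 * Sq := by ring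
    rw [this]
    have : 0 ≤ (ε / 2) ^ 2 * (Sq : ℝ) := by positivity
    linarith
  linarith

end Pool.Agent.MP72S.Ns
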