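import Pool.Agent.Lib.MP_72e2e6_nt.Sm.NS.Spec

set_option autoImplicit false

namespace Pool.Agent.MP72S.Ns

open Finset Polynomial MP72e2e6

private theorem markov {α : Type} (s : Finset α) (w : α → ℕ) (T : ℕ) (hT : 0 < T) (C : ℝ)
    (h : ∑ f ∈ s, (w f : ℝ) ≤ C * T) : (#(s.filter fun f => T ≤ w f) : ℝ) ≤ C := by
  have hT' : (0 : ℝ) < T := by exact_mod_cast hT
  have h1 : (#(s.filter fun f => T ≤ w f) : ℝ) * T ≤ ∑ f ∈ s, (w f : ℝ) := by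
    calc (#(s.filter fun f => T ≤ w f) : ℝ) * T
        = ∑ f ∈ s.filter (fun f => T ≤ w f), (T : ℝ) := by rw [sum_const, nsmul_eq_mul]
      _ ≤ ∑ f ∈ s.filter (fun f => T ≤ w f), (w f : ℝ) :=
          sum_le_sum fun f hf => by exact_mod_cast (mem_filter.1 hf).2
      _ ≤ ∑ f ∈ s, (w f : ℝ) :=
          sum_le_sum_of_subset_of_nonneg (filter_subset _ _) fun _ _ _ => Nat.cast_nonneg _
  exact le_of_mul_le_mul_right (h1.trans h) hT'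

private theorem om_mono {F : Type} [Field F] [Finite F] {a b c : ℕ} (h : b ≤ c) (f : F[X]) :
    om a b f ≤ om a c f := by
  classical
  rw [om, om]
  exact sum_le_sum_of_subset (Ico_subset_Ico_right h)

theorem tFew (h1 : S_Fm) (h2 : S_Chb) (h3 : S_Num) : S_Few := by
  classical
  intro F _ _ A hA ε hε
  obtain ⟨n₀, hn₀⟩ := h3 A hA (ε / 3) (by positivity)
  refine ⟨n₀, fun n hn L hL => ?_⟩
  obtain ⟨hL4, hσ0, hσ8, hLσ, hs1, hs2, -⟩ := hn₀ n hn L hL _ rfl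
  set σ : ℝ := ∑ d ∈ Ico (L ^ 4) (n / 2 + 1), 1 / (d : ℝ) with hσ
  set Q : ℝ := (Nat.card F : ℝ) ^ n with hQ
  have hQ0 : 0 ≤ Q := by positivity
  -- the three sets
  have hc1 : ({f ∈ (mon F n : Set F[X]) | (om (L ^ 4) (n / 2 + 1) f : ℝ) ≤ σ / 4}.ncard : ℝ) ≤
      ε / 3 * Q := by
    refine (h2 F (L ^ 4) (n / 2 + 1) n σ ?_ (by omega) hσ hσ0).trans ?_
    · calc 4 ≤ L := hL4
        _ = L ^ 1 := (pow_one L).symm
        _ ≤ L ^ 4 := Nat.pow_le_pow_right (by omega) (by norm_num)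
    · rw [div_le_iff₀ hσ0]
      calc 8 * Q ≤ ε / 3 * σ * Q := mul_le_mul_of_nonneg_right hσ8 hQ0
        _ = ε / 3 * Q * σ := by ring
  have hc2 : (#((mon F n).filter fun f => L / (32 * A) + 1 ≤ om 1 (L ^ 4) f) : ℝ) ≤
      ε / 3 * Q := by
    refine markov _ _ _ (Nat.succ_pos _) _ ((h1 F 1 (L ^ 4) n le_rfl).trans ?_)
    calc Q * ∑ d ∈ Ico 1 (L ^ 4), 1 / (d : ℝ)
        ≤ Q * (ε / 3 * (((L / (32 * A) : ℕ) : ℝ) + 1)) := mul_le_mul_of_nonneg_left hs1 hQ0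
      _ = ε / 3 * Q * ((L / (32 * A) + 1 : ℕ) : ℝ) := by push_cast; ring
  have hc3 : (#((mon F n).filter fun f => L ^ 2 + 1 ≤ om 1 (n + 1) f) : ℝ) ≤ ε / 3 * Q := by
    refine markov _ _ _ (Nat.succ_pos _) _ ((h1 F 1 (n + 1) n le_rfl).trans ?_)
    calc Q * ∑ d ∈ Ico 1 (n + 1), 1 / (d : ℝ)
        ≤ Q * (ε / 3 * ((L : ℝ) ^ 2 + 1)) := mul_le_mul_of_nonneg_left hs2 hQ0
      _ = ε / 3 * Q * ((L ^ 2 + 1 : ℕ) : ℝ) := by push_cast; ring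
  have hsub : {f ∈ (mon F n : Set F[X]) | ¬ (L / 16 ≤ om (L ^ 4) (n + 1) f ∧
      om 1 (L ^ 4) f ≤ L / (32 * A) ∧ om 1 (n + 1) f ≤ L ^ 2)} ⊆
      {f ∈ (mon F n : Set F[X]) | (om (L ^ 4) (n / 2 + 1) f : ℝ) ≤ σ / 4} ∪
      (((mon F n).filter fun f => L / (32 * A) + 1 ≤ om 1 (L ^ 4) f : Finset F[X]) : Set F[X]) ∪
      (((mon F n).filter fun f => L ^ 2 + 1 ≤ om 1 (n + 1) f : Finset F[X]) : Set F[X]) := by
    rintro f ⟨hf, hno⟩
    by_cases ha : L / 16 ≤ om (L ^ 4) (n + 1) f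
    · by_cases hb : om 1 (L ^ 4) f ≤ L / (32 * A)
      · refine Or.inr ?_
        have hc : ¬ om 1 (n + 1) f ≤ L ^ 2 := fun hc => hno ⟨ha, hb, hc⟩
        rw [mem_coe, mem_filter]
        exact ⟨hf, not_le.1 hc⟩
      · refine Or.inl (Or.inr ?_)
        rw [mem_coe, mem_filter]
        exact ⟨hf, not_le.1 hb⟩
    · refine Or.inl (Or.inl ⟨hf, ?_⟩)
      have h4 : om (L ^ 4) (n / 2 + 1) f ≤ L / 16 :=
        (om_mono (by omega) f).trans (not_le.1 ha).le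
      have h5 : (om (L ^ 4) (n / 2 + 1) f : ℝ) ≤ ((L / 16 : ℕ) : ℝ) := by exact_mod_cast h4
      exact h5.trans hLσ.le
  have hfin : ({f ∈ (mon F n : Set F[X]) | (om (L ^ 4) (n / 2 + 1) f : ℝ) ≤ σ / 4} ∪
      (((mon F n).filter fun f => L / (32 * A) + 1 ≤ om 1 (L ^ 4) f : Finset F[X]) : Set F[X]) ∪
      (((mon F n).filter fun f => L ^ 2 + 1 ≤ om 1 (n + 1) f : Finset F[X]) : Set F[X])).Finite :=
    (((mon F n).finite_toSet.subset (Set.sep_subset _ _)).union (finite_toSet _)).union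
      (finite_toSet _)
  have h6 := (Set.ncard_le_ncard hsub hfin).trans
    ((Set.ncard_union_le _ _).trans (Nat.add_le_add_right (Set.ncard_union_le _ _) _))
  rw [Set.ncard_coe_finset, Set.ncard_coe_finset] at h6
  have h7 : ({f ∈ (mon F n : Set F[X]) | ¬ (L / 16 ≤ om (L ^ 4) (n + 1) f ∧
      om 1 (L ^ 4) f ≤ L / (32 * A) ∧ om 1 (n + 1) f ≤ L ^ 2)}.ncard : ℝ) ≤
      ({f ∈ (mon F n : Set F[X]) | (om (L ^ 4) (n / 2 + 1) f : ℝ) ≤ σ / 4}.ncard : ℝ) +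
      (#((mon F n).filter fun f => L / (32 * A) + 1 ≤ om 1 (L ^ 4) f) : ℝ) +
      (#((mon F n).filter fun f => L ^ 2 + 1 ≤ om 1 (n + 1) f) : ℝ) := by
    exact_mod_cast h6
  linarith

end Pool.Agent.MP72S.Ns
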