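import Pool.Agent.Lib.MP_72e2e6_nt.Sm.NS.Spec

/-!
# MP_72e2e6_nt, `Sm/NS`, module `Fib`: the number of the frames and tuples of a polynomial
-/

set_option autoImplicit false

namespace Pool.Agent.MP72S.Ns

open Finset Polynomial MP72e2e6 UniqueFactorizationMonoid

section

variable {F : Type} [Field F] [Finite F]

private theorem fib_irr {d : ℕ} {P : F[X]} : P ∈ irr F d ↔ P.Monic ∧ P.natDegree = d ∧ Irreducible P := by
  classical
  unfold irr
  rw [Finset.mem_filter, mem_mon, and_assoc]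

open Classical in
/-- The monic irreducible divisors with degrees in an interval. -/
private noncomputable def ID (a b : ℕ) (f : F[X]) : Finset F[X] :=
  (Ico a b).biUnion fun d => (irr F d).filter (· ∣ f)

private theorem mem_ID {a b : ℕ} {f P : F[X]} :
    P ∈ ID a b f ↔ P.Monic ∧ Irreducible P ∧ P ∣ f ∧ a ≤ P.natDegree ∧ P.natDegree < b := by
  classical
  unfold ID
  rw [Finset.mem_biUnion]
  constructor
  · rintro ⟨d, hd, hP⟩
    rw [Finset.mem_filter, fib_irr] at hP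
    rw [Finset.mem_Ico] at hd
    obtain ⟨⟨h1, h2, h3⟩, h4⟩ := hP
    exact ⟨h1, h3, h4, by omega, by omega⟩
  · rintro ⟨h1, h2, h3, h4, h5⟩
    refine ⟨P.natDegree, Finset.mem_Ico.2 ⟨h4, h5⟩, ?_⟩
    rw [Finset.mem_filter, fib_irr]
    exact ⟨⟨h1, rfl, h2⟩, h3⟩

private theorem card_ID (a b : ℕ) (f : F[X]) : #(ID a b f) = om a b f := by
  classical
  unfold ID om
  rw [Finset.card_biUnion]
  intro d _ d' _ hne
  refine Finset.disjoint_left.2 ?_
  intro P hP hP'
  rw [Finset.mem_filter, fib_irr] at hP hP'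
  exact hne (hP.1.2.1.symm.trans hP'.1.2.1)

omit [Finite F] in
private theorem fib_eq {P Q : F[X]} (hP : P.Monic) (hPi : Irreducible P) (hQ : Q.Monic)
    (hQi : Irreducible Q) (h : P ∣ Q) : P = Q :=
  Polynomial.eq_of_monic_of_associated hP hQ ((hPi.dvd_irreducible_iff_associated hQi).1 h)

/-- A monic squarefree polynomial is the product of its divisors. -/
private theorem fib_prod {n : ℕ} {f : F[X]} (hf : f.Monic) (hs : Squarefree f)
    (hn : f.natDegree = n) {h : ℕ} :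
    (∏ P ∈ ID 1 h f, P) * ∏ P ∈ ID h (n + 1) f, P = f := by
  classical
  have hf0 := hf.ne_zero
  have hdis : Disjoint (ID 1 h f) (ID h (n + 1) f) := by
    rw [Finset.disjoint_left]
    intro P hP hP'
    rw [mem_ID] at hP hP'
    omega
  rw [← Finset.prod_union hdis]
  have hnd := (squarefree_iff_nodup_normalizedFactors hf0).1 hs
  have hun : ID 1 h f ∪ ID h (n + 1) f = (normalizedFactors f).toFinset := by
    ext P
    rw [Finset.mem_union, mem_ID, mem_ID, Multiset.mem_toFinset]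
    constructor
    · intro h1
      have h2 : P.Monic ∧ Irreducible P ∧ P ∣ f := by
        rcases h1 with h1 | h1
        · exact ⟨h1.1, h1.2.1, h1.2.2.1⟩
        · exact ⟨h1.1, h1.2.1, h1.2.2.1⟩
      rw [mem_normalizedFactors_iff' hf0]
      exact ⟨h2.2.1, h2.1.normalize_eq_self, h2.2.2⟩
    · intro h1
      rw [mem_normalizedFactors_iff' hf0] at h1
      obtain ⟨h2, h3, h4⟩ := h1
      have h5 : P.Monic := (Polynomial.normalize_eq_self_iff_monic h2.ne_zero).1 h3
      have h6 : 0 < P.natDegree := h2.natDegree_pos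
      have h7 : P.natDegree ≤ n := hn ▸ Polynomial.natDegree_le_of_dvd h4 hf0
      rcases lt_or_ge P.natDegree h with h8 | h8
      · exact Or.inl ⟨h5, h2, h4, h6, h8⟩
      · exact Or.inr ⟨h5, h2, h4, h8, by omega⟩
  rw [hun, Finset.prod_eq_multiset_prod, Multiset.toFinset_val, hnd.dedup, Multiset.map_id',
    prod_normalizedFactors_eq hf0, hf.normalize_eq_self]

private theorem mem_Sml {B : F[X]} {h n : ℕ} {s : F[X]} : s ∈ Sml F B h n ↔
    s.Monic ∧ s.natDegree ≤ n ∧ Squarefree s ∧ IsCoprime s B ∧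
      ∀ P, Irreducible P → P ∣ s → P.natDegree < h := by
  classical
  unfold Sml
  rw [Finset.mem_biUnion]
  constructor
  · rintro ⟨k, hk, hs⟩
    rw [Finset.mem_filter, mem_mon] at hs
    rw [Finset.mem_range] at hk
    obtain ⟨⟨h1, h2⟩, h3, h4, h5⟩ := hs
    exact ⟨h1, by omega, h3, h4, h5⟩
  · rintro ⟨h1, h2, h3, h4, h5⟩
    refine ⟨s.natDegree, Finset.mem_range.2 (by omega), ?_⟩
    rw [Finset.mem_filter, mem_mon]
    exact ⟨⟨h1, rfl⟩, h3, h4, h5⟩

private theorem mem_Deg {h n k m : ℕ} {n' : Fin m → ℕ} : n' ∈ Deg h n k m ↔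
    (∀ i, h ≤ n' i ∧ n' i ≤ n) ∧ k + ∑ i, n' i = n := by
  classical
  unfold Deg
  rw [Finset.mem_filter, Fintype.mem_piFinset]
  simp only [Finset.mem_Icc]

private theorem mem_tpl {m : ℕ} {n' : Fin m → ℕ} {z : Fin m → F[X]} : z ∈ tpl F n' ↔
    (∀ i, (z i).Monic ∧ (z i).natDegree = n' i ∧ Irreducible (z i)) ∧ Function.Injective z := by
  classical
  unfold tpl
  rw [Finset.mem_filter, Fintype.mem_piFinset]
  simp only [fib_irr]

omit [Finite F] in
/-- The prime divisors of `s * ∏ z i`. -/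
private theorem fib_dvd {m : ℕ} {s : F[X]} {z : Fin m → F[X]}
    (hz : ∀ i, (z i).Monic ∧ Irreducible (z i)) {P : F[X]} (hP : P.Monic) (hPi : Irreducible P) :
    P ∣ s * ∏ i, z i ↔ P ∣ s ∨ ∃ i, P = z i := by
  have hpr : Prime P := hPi.prime
  rw [hpr.dvd_mul, hpr.dvd_finsetProd_iff]
  constructor
  · rintro (h | ⟨i, _, hi⟩)
    · exact Or.inl h
    · exact Or.inr ⟨i, fib_eq hP hPi (hz i).1 (hz i).2 hi⟩
  · rintro (h | ⟨i, hi⟩)
    · exact Or.inl h
    · exact Or.inr ⟨i, Finset.mem_univ i, hi ▸ dvd_rfl⟩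

private theorem fib_one {B : F[X]} {h n m : ℕ} (hB : B ≠ 0) (hBh : B.natDegree < h) {s : F[X]}
    (hs : s ∈ Sml F B h n) {n' : Fin m → ℕ} (hn' : n' ∈ Deg h n s.natDegree m)
    {z : Fin m → F[X]} (hz : z ∈ tpl F n') :
    s * ∏ i, z i ∈ sqf F B n ∧ om h (n + 1) (s * ∏ i, z i) = m ∧
      om 1 h (s * ∏ i, z i) = om 1 h s := by
  classical
  rw [mem_Sml] at hs
  rw [mem_Deg] at hn'
  rw [mem_tpl] at hz
  obtain ⟨hsm, hsn, hss, hsB, hsh⟩ := hs
  obtain ⟨hn1, hn2⟩ := hn'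
  obtain ⟨hz1, hz2⟩ := hz
  have hzz : ∀ i, (z i).Monic ∧ Irreducible (z i) := fun i => ⟨(hz1 i).1, (hz1 i).2.2⟩
  have hzs : ∀ i, IsCoprime s (z i) := by
    intro i
    refine ((hz1 i).2.2.coprime_iff_not_dvd.2 fun hd => ?_).symm
    have h1 := hsh _ (hz1 i).2.2 hd
    have h2 := (hn1 i).1
    rw [(hz1 i).2.1] at h1
    omega
  have hzB : ∀ i, IsCoprime (z i) B := by
    intro i
    refine (hz1 i).2.2.coprime_iff_not_dvd.2 fun hd => ?_
    have h1 := Polynomial.natDegree_le_of_dvd hd hB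
    have h2 := (hn1 i).1
    rw [(hz1 i).2.1] at h1
    omega
  have hpm : (∏ i, z i).Monic := Polynomial.monic_prod_of_monic _ _ fun i _ => (hz1 i).1
  refine ⟨?_, ?_, ?_⟩
  · unfold sqf
    rw [Finset.mem_filter, mem_mon]
    refine ⟨⟨hsm.mul hpm, ?_⟩, ?_, ?_⟩
    · rw [hsm.natDegree_mul hpm, Polynomial.natDegree_prod_of_monic _ _ fun i _ => (hz1 i).1,
        ← hn2]
      congr 1
      exact Finset.sum_congr rfl fun i _ => (hz1 i).2.1
    · rw [squarefree_mul_iff]
      refine ⟨(IsCoprime.prod_right fun i _ => hzs i).isRelPrime, hss, ?_⟩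
      refine Finset.squarefree_prod_of_pairwise_isCoprime ?_ fun i _ => (hz1 i).2.2.squarefree
      intro i _ j _ hij
      show IsRelPrime (z i) (z j)
      refine (hz1 i).2.2.isRelPrime_iff_not_dvd.2 fun hd => hij ?_
      exact hz2 (fib_eq (hz1 i).1 (hz1 i).2.2 (hz1 j).1 (hz1 j).2.2 hd)
    · exact hsB.mul_left (IsCoprime.prod_left fun i _ => hzB i)
  · rw [← card_ID]
    have h1 : ID h (n + 1) (s * ∏ i, z i) = Finset.univ.image z := by
      ext P
      rw [mem_ID, Finset.mem_image]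
      constructor
      · rintro ⟨h1, h2, h3, h4, h5⟩
        rw [fib_dvd hzz h1 h2] at h3
        rcases h3 with h3 | ⟨i, hi⟩
        · have := hsh P h2 h3
          omega
        · exact ⟨i, Finset.mem_univ i, hi.symm⟩
      · rintro ⟨i, _, rfl⟩
        refine ⟨(hz1 i).1, (hz1 i).2.2, (fib_dvd hzz (hz1 i).1 (hz1 i).2.2).2 (Or.inr ⟨i, rfl⟩),
          ?_, ?_⟩
        · rw [(hz1 i).2.1]
          exact (hn1 i).1
        · rw [(hz1 i).2.1]
          exact Nat.lt_succ_of_le (hn1 i).2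
    rw [h1, Finset.card_image_of_injective _ hz2, Finset.card_univ, Fintype.card_fin]
  · rw [← card_ID, ← card_ID]
    congr 1
    ext P
    rw [mem_ID, mem_ID]
    constructor
    · rintro ⟨h1, h2, h3, h4, h5⟩
      rw [fib_dvd hzz h1 h2] at h3
      rcases h3 with h3 | ⟨i, hi⟩
      · exact ⟨h1, h2, h3, h4, h5⟩
      · exfalso
        rw [hi, (hz1 i).2.1] at h5
        have := (hn1 i).1
        omega
    · rintro ⟨h1, h2, h3, h4, h5⟩
      exact ⟨h1, h2, h3.mul_right _, h4, h5⟩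

open Classical in
/-- The frames and tuples. -/
private noncomputable def Fr (B : F[X]) (h n m : ℕ) :
    Finset (Σ _ : F[X], Σ _ : (Fin m → ℕ), (Fin m → F[X])) :=
  (Sml F B h n).sigma fun s => (Deg h n s.natDegree m).sigma fun n' => tpl F n'

private theorem mem_Fr {B : F[X]} {h n m : ℕ}
    {x : Σ _ : F[X], Σ _ : (Fin m → ℕ), (Fin m → F[X])} : x ∈ Fr B h n m ↔
    x.1 ∈ Sml F B h n ∧ x.2.1 ∈ Deg h n x.1.natDegree m ∧ x.2.2 ∈ tpl F x.2.1 := by
  unfold Fr
  rw [Finset.mem_sigma, Finset.mem_sigma]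

open Classical in
/-- The fibres. -/
private theorem fib_card {B : F[X]} {h n m : ℕ} {f : F[X]}
    (hf : f ∈ sqf F B n) (hfm : om h (n + 1) f = m) :
    #((Fr B h n m).filter fun x => x.1 * ∏ i, x.2.2 i = f) = m.factorial := by
  have hf' := hf
  unfold sqf at hf'
  rw [Finset.mem_filter, mem_mon] at hf'
  obtain ⟨⟨hfmon, hfn⟩, hfs, hfB⟩ := hf'
  have hcard : #(ID h (n + 1) f) = m := by rw [card_ID, hfm]
  have hprod := fib_prod hfmon hfs hfn (h := h)
  have hmon : (∏ P ∈ ID 1 h f, P).Monic :=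
    Polynomial.monic_prod_of_monic _ _ fun P hP => (mem_ID.1 hP).1
  have hmon2 : (∏ P ∈ ID h (n + 1) f, P).Monic :=
    Polynomial.monic_prod_of_monic _ _ fun P hP => (mem_ID.1 hP).1
  -- the product over an embedding
  have hemb : ∀ e : Fin m ↪ ID h (n + 1) f, ∏ i, ((e i : ID h (n + 1) f) : F[X]) =
      ∏ P ∈ ID h (n + 1) f, P := by
    intro e
    have hb : Function.Bijective e := by
      rw [Fintype.bijective_iff_injective_and_card]
      refine ⟨e.injective, ?_⟩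
      rw [Fintype.card_fin, Fintype.card_coe, hcard]
    rw [Function.Bijective.prod_comp hb fun P : ID h (n + 1) f => (P : F[X]),
      Finset.prod_coe_sort (ID h (n + 1) f) fun P => P]
  have hcount : #(Finset.univ : Finset (Fin m ↪ ID h (n + 1) f)) = m.factorial := by
    rw [Finset.card_univ, Fintype.card_embedding_eq, Fintype.card_fin, Fintype.card_coe, hcard,
      Nat.descFactorial_self]
  rw [← hcount]
  symm
  refine Finset.card_bij (fun e _ => ⟨∏ P ∈ ID 1 h f, P, fun i => ((e i : ID h (n + 1) f) : F[X]).natDegree,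
    fun i => ((e i : ID h (n + 1) f) : F[X])⟩) ?_ ?_ ?_
  · intro e _
    rw [Finset.mem_filter, mem_Fr]
    have hmem : ∀ i, ((e i : ID h (n + 1) f) : F[X]) ∈ ID h (n + 1) f := fun i => (e i).2
    refine ⟨⟨?_, ?_, ?_⟩, ?_⟩
    · show (∏ P ∈ ID 1 h f, P) ∈ Sml F B h n
      rw [mem_Sml]
      have hdf : (∏ P ∈ ID 1 h f, P) ∣ f := ⟨_, hprod.symm⟩
      refine ⟨hmon, hfn ▸ Polynomial.natDegree_le_of_dvd hdf hfmon.ne_zero,
        hfs.squarefree_of_dvd hdf, hfB.of_isCoprime_of_dvd_left hdf, ?_⟩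
      intro P hP hd
      obtain ⟨Q, hQ, hPQ⟩ := (hP.prime.dvd_finsetProd_iff _).1 hd
      rw [mem_ID] at hQ
      exact lt_of_le_of_lt (Polynomial.natDegree_le_of_dvd hPQ hQ.1.ne_zero) hQ.2.2.2.2
    · show (fun i => ((e i : ID h (n + 1) f) : F[X]).natDegree) ∈
        Deg h n (∏ P ∈ ID 1 h f, P).natDegree m
      rw [mem_Deg]
      refine ⟨fun i => ?_, ?_⟩
      · have := mem_ID.1 (hmem i)
        exact ⟨this.2.2.2.1, by omega⟩
      · have h1 : ∑ i, ((e i : ID h (n + 1) f) : F[X]).natDegree =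
            (∏ i, ((e i : ID h (n + 1) f) : F[X])).natDegree := by
          rw [Polynomial.natDegree_prod_of_monic]
          exact fun i _ => (mem_ID.1 (hmem i)).1
        rw [h1, hemb, ← hmon.natDegree_mul hmon2, hprod, hfn]
    · show (fun i => ((e i : ID h (n + 1) f) : F[X])) ∈
        tpl F fun i => ((e i : ID h (n + 1) f) : F[X]).natDegree
      rw [mem_tpl]
      refine ⟨fun i => ⟨(mem_ID.1 (hmem i)).1, rfl, (mem_ID.1 (hmem i)).2.1⟩, ?_⟩
      exact Subtype.val_injective.comp e.injective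
    · show (∏ P ∈ ID 1 h f, P) * ∏ i, ((e i : ID h (n + 1) f) : F[X]) = f
      rw [hemb, hprod]
  · intro e _ e' _ hee
    have h1 : (fun i => ((e i : ID h (n + 1) f) : F[X])) =
        fun i => ((e' i : ID h (n + 1) f) : F[X]) :=
      congrArg (fun x : Σ _ : F[X], Σ _ : (Fin m → ℕ), (Fin m → F[X]) => x.2.2) hee
    exact DFunLike.ext _ _ fun i => Subtype.ext (congrFun h1 i)
  · rintro ⟨s, n', z⟩ hx
    rw [Finset.mem_filter, mem_Fr] at hx
    obtain ⟨⟨hs, hn', hz⟩, hx2⟩ := hx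
    have hs' : s ∈ Sml F B h n := hs
    have hn'' : n' ∈ Deg h n s.natDegree m := hn'
    have hz' : z ∈ tpl F n' := hz
    have hx' : s * ∏ i, z i = f := hx2
    rw [mem_tpl] at hz'
    rw [mem_Deg] at hn''
    obtain ⟨hz1, hz2⟩ := hz'
    have hmem : ∀ i, z i ∈ ID h (n + 1) f := by
      intro i
      rw [mem_ID]
      refine ⟨(hz1 i).1, (hz1 i).2.2, ?_, ?_, ?_⟩
      · rw [← hx']
        exact (Finset.dvd_prod_of_mem z (Finset.mem_univ i)).mul_left _
      · rw [(hz1 i).2.1]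
        exact (hn''.1 i).1
      · rw [(hz1 i).2.1]
        exact Nat.lt_succ_of_le (hn''.1 i).2
    let e : Fin m ↪ ID h (n + 1) f := ⟨fun i => ⟨z i, hmem i⟩, fun i j hij =>
      hz2 (congrArg Subtype.val hij)⟩
    refine ⟨e, Finset.mem_univ _, ?_⟩
    have h1 : ∏ i, z i = ∏ P ∈ ID h (n + 1) f, P := hemb e
    have h2 : s = ∏ P ∈ ID 1 h f, P := by
      refine mul_right_cancel₀ hmon2.ne_zero ?_
      rw [hprod, ← h1, hx']
    have h3 : (fun i => (z i).natDegree) = n' := funext fun i => (hz1 i).2.1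
    show (⟨∏ P ∈ ID 1 h f, P, fun i => (z i).natDegree, z⟩ :
      Σ _ : F[X], Σ _ : (Fin m → ℕ), (Fin m → F[X])) = ⟨s, n', z⟩
    rw [h3, ← h2]

end

theorem tFib : S_Fib := by
  classical
  intro F _ _ B h n m hB hBh
  refine ⟨fun s hs n' hn' z hz => fib_one hB hBh hs hn' hz, fun g => ?_⟩
  have h1 : ∑ s ∈ Sml F B h n, ∑ n' ∈ Deg h n s.natDegree m, ∑ z ∈ tpl F n', g (s * ∏ i, z i) =
      ∑ x ∈ Fr B h n m, g (x.1 * ∏ i, x.2.2 i) := by
    unfold Fr
    rw [Finset.sum_sigma]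
    refine Finset.sum_congr rfl fun s _ => ?_
    rw [Finset.sum_sigma]
  have h2 : ∀ x ∈ Fr B h n m, x.1 * ∏ i, x.2.2 i ∈
      (sqf F B n).filter fun f => om h (n + 1) f = m := by
    intro x hx
    rw [mem_Fr] at hx
    have h3 := fib_one hB hBh hx.1 hx.2.1 hx.2.2
    rw [Finset.mem_filter]
    exact ⟨h3.1, h3.2.1⟩
  rw [h1, ← Finset.sum_fiberwise_of_maps_to h2, Finset.mul_sum]
  refine Finset.sum_congr rfl fun f hf => ?_
  rw [Finset.mem_filter] at hf
  have h3 : ∀ x ∈ (Fr B h n m).filter (fun x => x.1 * ∏ i, x.2.2 i = f),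
      g (x.1 * ∏ i, x.2.2 i) = g f := by
    intro x hx
    rw [(Finset.mem_filter.1 hx).2]
  rw [Finset.sum_congr rfl h3, Finset.sum_const, fib_card hf.1 hf.2, nsmul_eq_mul]

end Pool.Agent.MP72S.Ns
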