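import Pool.Agent.Lib.MP_72e2e6_nt.Sm.NS.Spec

/-!
# MP_72e2e6_nt, `Sm`, block NS: the first moment (Fm)
-/

set_option autoImplicit false

namespace Pool.Agent.MP72S.Ns

open Finset Polynomial MP72e2e6

section

variable {F : Type} [Field F] [Finite F]

open Classical in
private theorem cntDvd (h2 : StmtTwMon.{0}) (n d : ℕ) (P : F[X]) (hP : P ∈ irr F d) :
    ((mon F n).filter fun f => P ∣ f).card ≤ if d ≤ n then Nat.card F ^ (n - d) else 0 := by
  have hPm : P ∈ mon F d := (Finset.mem_filter.1 hP).1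
  by_cases hd : d ≤ n
  · rw [if_pos hd]
    have key := ((h2 F).2 d n P hPm).1 hd (fun _ => 1)
    rw [Finset.sum_const, (h2 F).1, ← Finset.sum_filter, Finset.sum_const] at key
    simp only [nsmul_eq_mul, mul_one] at key
    exact_mod_cast key.le
  · rw [if_neg hd, Finset.filter_false_of_mem (((h2 F).2 d n P hPm).2 (by omega))]
    simp

end

theorem tFm (h1 : StmtSuPsi.{0}) (h2 : StmtTwMon.{0}) : S_Fm := by
  classical
  intro F _ _ a b n ha
  have hq : (0 : ℝ) < (Nat.card F : ℝ) := by
    exact_mod_cast Nat.card_pos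
  have e1 : ∑ f ∈ mon F n, (om a b f : ℝ) =
      ∑ d ∈ Ico a b, ∑ P ∈ irr F d, (((mon F n).filter fun f => P ∣ f).card : ℝ) := by
    have : ∀ f : F[X], (om a b f : ℝ) = ∑ d ∈ Ico a b, ∑ P ∈ irr F d, if P ∣ f then (1 : ℝ) else 0 := by
      intro f
      unfold om
      push_cast
      refine Finset.sum_congr rfl fun d _ => ?_
      rw [← Finset.sum_filter, Finset.sum_const, nsmul_eq_mul, mul_one]
    simp_rw [this]
    rw [Finset.sum_comm]
    refine Finset.sum_congr rfl fun d _ => ?_
    rw [Finset.sum_comm]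
    refine Finset.sum_congr rfl fun P _ => ?_
    rw [← Finset.sum_filter, Finset.sum_const, nsmul_eq_mul, mul_one]
  rw [e1, Finset.mul_sum]
  refine Finset.sum_le_sum fun d hd => ?_
  have hd1 : 1 ≤ d := ha.trans (Finset.mem_Ico.1 hd).1
  have hd0 : (0 : ℝ) < (d : ℝ) := by exact_mod_cast hd1
  have hirr : (d : ℝ) * ((irr F d).card : ℝ) ≤ (Nat.card F : ℝ) ^ d := by
    exact_mod_cast (h1 F 2 Nat.prime_two).2.2.2.2 d hd1
  by_cases hdn : d ≤ n
  · calc ∑ P ∈ irr F d, (((mon F n).filter fun f => P ∣ f).card : ℝ)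
        ≤ ∑ P ∈ irr F d, (Nat.card F : ℝ) ^ (n - d) := by
          refine Finset.sum_le_sum fun P hP => ?_
          have := cntDvd h2 n d P hP
          rw [if_pos hdn] at this
          exact_mod_cast this
      _ = ((irr F d).card : ℝ) * (Nat.card F : ℝ) ^ (n - d) := by
          rw [Finset.sum_const, nsmul_eq_mul]
      _ ≤ ((Nat.card F : ℝ) ^ d / d) * (Nat.card F : ℝ) ^ (n - d) := by
          gcongr
          rw [le_div_iff₀ hd0, mul_comm]
          exact hirr
      _ = (Nat.card F : ℝ) ^ n * (1 / (d : ℝ)) := by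
          have : (Nat.card F : ℝ) ^ n = (Nat.card F : ℝ) ^ d * (Nat.card F : ℝ) ^ (n - d) := by
            rw [← pow_add]
            congr 1
            omega
          rw [this]
          ring
  · calc ∑ P ∈ irr F d, (((mon F n).filter fun f => P ∣ f).card : ℝ)
        ≤ ∑ P ∈ irr F d, (0 : ℝ) := by
          refine Finset.sum_le_sum fun P hP => ?_
          have := cntDvd h2 n d P hP
          rw [if_neg hdn] at this
          exact_mod_cast this
      _ = 0 := by simp
      _ ≤ _ := by positivity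

end Pool.Agent.MP72S.Ns
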