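import Pool.Agent.Lib.MP_72e2e6_nt.Sm.NS.SpecH

set_option autoImplicit false

namespace Pool.Agent.MP72S.Ns

open Finset Polynomial MP72e2e6 MP72T

private theorem hya_mxd {F : Type} [Field F] (a : Fin 3 → F[X]) : HD.mxd a = mxd a := by
  have h10 : (a 1 - a 0).natDegree = (a 0 - a 1).natDegree := by
    rw [← neg_sub, natDegree_neg]
  have h20 : (a 2 - a 0).natDegree = (a 0 - a 2).natDegree := by
    rw [← neg_sub, natDegree_neg]
  have h21 : (a 2 - a 1).natDegree = (a 1 - a 2).natDegree := by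
    rw [← neg_sub, natDegree_neg]
  have h3 : ∀ f : Fin 3 → ℕ, (Finset.univ.sup f) = max (f 0) (max (f 1) (f 2)) := by
    intro f
    have hu : (Finset.univ : Finset (Fin 3)) = {0, 1, 2} := rfl
    rw [hu, Finset.sup_insert, Finset.sup_insert, Finset.sup_singleton]
  unfold HD.mxd mxd
  rw [h3]
  simp only [h3, sub_self, natDegree_zero, h10, h20, h21]
  omega

theorem tHya (h1 : S_Dcp) : S_Hya := by
  intro F _ _ a d s h n ha hd hs
  classical
  unfold Sml at hs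
  rw [mem_biUnion] at hs
  obtain ⟨k, -, hk⟩ := hs
  rw [mem_filter, mem_mon] at hk
  obtain ⟨⟨hm, hdeg⟩, hsq, hcop, -⟩ := hk
  have hsf : s ∈ sqf F (Dlt a) k := by
    unfold sqf
    rw [mem_filter, mem_mon]
    exact ⟨⟨hm, hdeg⟩, hsq, hcop⟩
  obtain ⟨-, h2, -⟩ := h1 F a ha.inj
  have h3 : d * s ∈ tms a (d.natDegree + k) :=
    (h2 (d.natDegree + k) (d * s)).2 ⟨d, hd, k, rfl, s, hsf, rfl⟩
  have hT : Tam a (d * s) := h3.2
  refine ⟨⟨ha.q4, ha.inj, ha.nis, hT.sqf, hT.odd⟩, ?_, hya_mxd a⟩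
  have hd0 : d ≠ 0 := hd.1.sqf.ne_zero
  exact natDegree_mul hd0 hm.ne_zero

end Pool.Agent.MP72S.Ns
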