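import Pool.Agent.Lib.MP_72e2e6_nt.Sm.NS.SpecT

set_option autoImplicit false

namespace Pool.Agent.MP72S.Ns

open Finset Polynomial MP72e2e6 MP72T

private theorem outN_dlt_ne {F : Type} [Field F] (a : Fin 3 → F[X]) (h : Function.Injective a) :
    Dlt a ≠ 0 := by
  have h01 : a 0 - a 1 ≠ 0 := sub_ne_zero.2 (h.ne (by decide))
  have h02 : a 0 - a 2 ≠ 0 := sub_ne_zero.2 (h.ne (by decide))
  have h12 : a 1 - a 2 ≠ 0 := sub_ne_zero.2 (h.ne (by decide))
  exact mul_ne_zero (mul_ne_zero h01 h02) h12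

theorem tOutN (h1 : S_Dens) (h2 : S_Tot) (h3 : S_Pos) (h4 : S_FrmN) : S_OutN := by
  intro F _ _ a ha
  have hq1 : 1 < Nat.card F := Finite.one_lt_card
  have hq4 := ha.q4
  have hq : 3 ≤ Nat.card F := by omega
  refine ⟨h3 F hq a ha.inj, ?_⟩
  exact h2 F a ha.inj (fun D => Finite (twd a D).toAffine.Point ∧
    MP72Y.ShaTwoFin (twd a D) (SeparableClosure (RatFunc F))) fun d hd ε hε =>
      h1 F hq (Dlt a) (outN_dlt_ne a ha.inj) (fun f => Finite (twd a (d * f)).toAffine.Point ∧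
        MP72Y.ShaTwoFin (twd a (d * f)) (SeparableClosure (RatFunc F)))
        (fun n => Odd (d.natDegree + n + mxd a)) (fun ε hε => h4 F a ha d hd ε hε) ε hε

end Pool.Agent.MP72S.Ns
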