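import Pool.Agent.Lib.MP_72e2e6_nt.Sm.NS.SpecT

set_option autoImplicit false

namespace Pool.Agent.MP72S.Ns

open Finset Polynomial MP72e2e6 MP72T

private theorem pos_dlt_ne {F : Type} [Field F] (a : Fin 3 → F[X]) (h : Function.Injective a) :
    Dlt a ≠ 0 := by
  have h01 : a 0 - a 1 ≠ 0 := sub_ne_zero.2 (h.ne (by decide))
  have h02 : a 0 - a 2 ≠ 0 := sub_ne_zero.2 (h.ne (by decide))
  have h12 : a 1 - a 2 ≠ 0 := sub_ne_zero.2 (h.ne (by decide))
  exact mul_ne_zero (mul_ne_zero h01 h02) h12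

theorem tPos (h1 : MP72T.S_Ex) (h2 : S_Sqf) (h3 : S_Dcp) : S_Pos := by
  intro F _ _ hq a ha
  obtain ⟨D, -, hD⟩ := h1 F a ha
  obtain ⟨hfin, hdec, -⟩ := h3 F a ha
  obtain ⟨d, hd, -⟩ := (hdec D.natDegree D).1 ⟨rfl, hD⟩
  obtain ⟨c, hc, n₁, hn₁⟩ := h2 F hq (Dlt a) (pos_dlt_ne a ha)
  have hd0 : d ≠ 0 := hd.1.sqf.ne_zero
  have hq0 : (0 : ℝ) < (Nat.card F : ℝ) := by
    have : 0 < Nat.card F := by omega
    exact_mod_cast this
  refine ⟨c / (Nat.card F : ℝ) ^ d.natDegree, by positivity, n₁ + d.natDegree, fun n hn => ?_⟩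
  have hkn : d.natDegree + (n - d.natDegree) = n := by omega
  have h4 := hn₁ (n - d.natDegree) (by omega)
  have htfin : (tms a n).Finite := by
    refine Set.Finite.subset (Set.Finite.biUnion hfin (fun e _ =>
      Set.Finite.biUnion (Set.finite_le_nat n) (fun k _ =>
        ((sqf F (Dlt a) k).finite_toSet.image (fun f => e * f))))) ?_
    intro E hE
    obtain ⟨e, he, k, hk, f, hf, rfl⟩ := (hdec n E).1 hE
    refine Set.mem_biUnion he (Set.mem_biUnion (show k ≤ n by omega) ⟨f, hf, rfl⟩)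
  have h5 : ((fun f => d * f) '' (sqf F (Dlt a) (n - d.natDegree) : Set F[X])) ⊆ tms a n := by
    rintro _ ⟨f, hf, rfl⟩
    exact (hdec n _).2 ⟨d, hd, n - d.natDegree, hkn, f, hf, rfl⟩
  have h6 := Set.ncard_le_ncard h5 htfin
  rw [Set.ncard_image_of_injective _ (mul_right_injective₀ hd0), Set.ncard_coe_finset] at h6
  calc c / (Nat.card F : ℝ) ^ d.natDegree * (Nat.card F : ℝ) ^ n
      = c * (Nat.card F : ℝ) ^ (n - d.natDegree) := by
        rw [div_mul_eq_mul_div, div_eq_iff (by positivity), mul_assoc, ← pow_add]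
        congr 2
        omega
    _ ≤ (#(sqf F (Dlt a) (n - d.natDegree)) : ℝ) := h4
    _ ≤ ((tms a n).ncard : ℝ) := by exact_mod_cast h6

end Pool.Agent.MP72S.Ns
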