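import Pool.Agent.Lib.MP_72e2e6_nt.Sm.NS.Spec

/-!
# MP_72e2e6_nt, `Sm/NS`: the degree of the small part
-/

set_option autoImplicit false

namespace Pool.Agent.MP72S.Ns

open Finset Polynomial MP72e2e6

theorem tSdg : S_Sdg := by
  classical
  intro F _ _ s h hm hs hP
  have hs0 : s ≠ 0 := hm.ne_zero
  set M : Multiset F[X] := UniqueFactorizationMonoid.normalizedFactors s with hM
  have hnd : M.Nodup := (UniqueFactorizationMonoid.squarefree_iff_nodup_normalizedFactors hs0).mp hs
  have hprod : M.prod = s := by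
    rw [hM, UniqueFactorizationMonoid.prod_normalizedFactors_eq hs0, hm.normalize_eq_self]
  have hmem : ∀ P ∈ M, P.Monic ∧ Irreducible P ∧ P ∣ s := by
    intro P hPM
    have h1 := UniqueFactorizationMonoid.irreducible_of_normalized_factor P hPM
    have h2 := UniqueFactorizationMonoid.normalize_normalized_factor P hPM
    refine ⟨?_, h1, UniqueFactorizationMonoid.dvd_of_mem_normalizedFactors hPM⟩
    rw [← h2]
    exact Polynomial.monic_normalize h1.ne_zero
  have hdeg : s.natDegree = (M.map natDegree).sum := by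
    rw [← hprod]
    exact natDegree_multiset_prod_of_monic _ fun P hPM => (hmem P hPM).1
  have hT : (M.map natDegree).sum = ∑ P ∈ M.toFinset, P.natDegree := by
    rw [Finset.sum_eq_multiset_sum, Multiset.toFinset_val, Multiset.dedup_eq_self.mpr hnd]
  have hsub : M.toFinset ⊆ (Ico 1 h).biUnion fun d => (irr F d).filter (· ∣ s) := by
    intro P hPT
    obtain ⟨h1, h2, h3⟩ := hmem P (Multiset.mem_toFinset.mp hPT)
    rw [Finset.mem_biUnion]
    refine ⟨P.natDegree, Finset.mem_Ico.mpr ⟨h2.natDegree_pos, hP P h2 h3⟩, ?_⟩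
    rw [Finset.mem_filter, irr, Finset.mem_filter, mem_mon]
    exact ⟨⟨⟨h1, rfl⟩, h2⟩, h3⟩
  have hcard : #M.toFinset ≤ om 1 h s :=
    (Finset.card_le_card hsub).trans Finset.card_biUnion_le
  rw [hdeg, hT]
  calc ∑ P ∈ M.toFinset, P.natDegree ≤ ∑ P ∈ M.toFinset, h := by
        apply Finset.sum_le_sum
        intro P hPT
        obtain ⟨h1, h2, h3⟩ := hmem P (Multiset.mem_toFinset.mp hPT)
        exact (hP P h2 h3).le
    _ = #M.toFinset * h := by rw [Finset.sum_const, smul_eq_mul]
    _ ≤ om 1 h s * h := Nat.mul_le_mul_right _ hcard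

end Pool.Agent.MP72S.Ns
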