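import Pool.Agent.Lib.MP_72e2e6_nt.Sm.NS.Spec

/-!
# MP_72e2e6_nt, `Sm`, block NS: there are many squarefree polynomials (Sqf)
-/

set_option autoImplicit false

namespace Pool.Agent.MP72S.Ns

open Finset Polynomial MP72e2e6

section

variable {F : Type} [Field F] [Finite F]

open Classical in
/-- The monic polynomials of degree `k` prime to `B`. -/
private noncomputable def cp (B : F[X]) (k : ℕ) : Finset F[X] :=
  (mon F k).filter fun f => IsCoprime f B

open Classical in
private theorem cover (B : F[X]) (n : ℕ) :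
    (cp B n).filter (fun f => ¬ Squarefree f) ⊆
      (Icc 1 (n / 2)).biUnion fun d => (irr F d).biUnion fun P =>
        (cp B (n - 2 * d)).image fun g => P * P * g := by
  intro f hf
  obtain ⟨hf1, hf2⟩ := Finset.mem_filter.1 hf
  obtain ⟨hf3, hf4⟩ := Finset.mem_filter.1 hf1
  obtain ⟨hf5, hf6⟩ := mem_mon.1 hf3
  have hx : ∃ x : F[X], x * x ∣ f ∧ ¬ IsUnit x := by
    by_contra hcon
    push Not at hcon
    exact hf2 fun x hx => hcon x hx
  obtain ⟨x, hx1, hx2⟩ := hx
  obtain ⟨P, hP1, hP2, hP3⟩ := exists_monic_irreducible_factor x hx2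
  obtain ⟨g, rfl⟩ := (mul_dvd_mul hP3 hP3).trans hx1
  have hPP : (P * P).Monic := hP1.mul hP1
  have hg : g.Monic := hPP.of_mul_monic_left hf5
  rw [hPP.natDegree_mul hg, hP1.natDegree_mul hP1] at hf6
  have hpos := hP2.natDegree_pos
  simp only [Finset.mem_biUnion, Finset.mem_image]
  refine ⟨P.natDegree, Finset.mem_Icc.2 ⟨hpos, by omega⟩, P, ?_, g, ?_, rfl⟩
  · exact Finset.mem_filter.2 ⟨mem_mon.2 ⟨hP1, rfl⟩, hP2⟩
  · exact Finset.mem_filter.2 ⟨mem_mon.2 ⟨hg, by omega⟩, hf4.of_mul_left_right⟩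

open Classical in
private theorem cntNsq (B : F[X]) (n : ℕ) :
    (((cp B n).filter (fun f => ¬ Squarefree f)).card : ℝ) ≤
      ∑ d ∈ Icc 1 (n / 2), ((irr F d).card : ℝ) * ((cp B (n - 2 * d)).card : ℝ) := by
  have h1 := (Finset.card_le_card (cover B n)).trans Finset.card_biUnion_le
  have h2 : ∑ d ∈ Icc 1 (n / 2), ((irr F d).biUnion fun P =>
        (cp B (n - 2 * d)).image fun g => P * P * g).card ≤
      ∑ d ∈ Icc 1 (n / 2), (irr F d).card * (cp B (n - 2 * d)).card := by
    refine Finset.sum_le_sum fun d _ => ?_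
    refine Finset.card_biUnion_le.trans ?_
    refine (Finset.sum_le_card_nsmul _ _ _ fun P _ => Finset.card_image_le).trans ?_
    rw [smul_eq_mul]
  exact_mod_cast h1.trans h2

end

private theorem geo (r : ℝ) (hr : 0 ≤ r) (hr1 : r < 1) (m : ℕ) :
    ∑ d ∈ Icc 1 m, r ^ d ≤ r / (1 - r) := by
  have h1 : (0 : ℝ) < 1 - r := by linarith
  have key : ∑ d ∈ Icc 1 m, r ^ d = (r - r ^ (m + 1)) / (1 - r) := by
    induction m with
    | zero => simp
    | succ k ih =>
      rw [Finset.sum_Icc_succ_top (by omega), ih]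
      field_simp
      ring
  rw [key]
  have : 0 ≤ r ^ (m + 1) := by positivity
  gcongr
  linarith

private theorem term {q x : ℝ} (hq : 3 ≤ q) (hx : x = 1 / q) {b n d u : ℕ} {I G : ℝ}
    (hI0 : 0 ≤ I) (hI : I ≤ q ^ d) (hbn : b ≤ n) (hd : 2 * d ≤ n)
    (hG1 : b ≤ n - 2 * d → G ≤ u * q ^ (n - 2 * d - b)) (hG2 : G ≤ q ^ (n - 2 * d)) :
    I * G ≤ q ^ n * (u * x ^ b * x ^ d + (3 / 4) ^ (n - b) * (16 / 27) ^ d) := by
  have hq0 : (0 : ℝ) < q := by linarith
  have hqx : q * x = 1 := by
    rw [hx]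
    field_simp
  have hx0 : 0 ≤ x := by
    rw [hx]
    positivity
  have hx3 : x ≤ 1 / 3 := by
    rw [hx]
    exact one_div_le_one_div_of_le (by norm_num) hq
  have hqk : ∀ k j : ℕ, q ^ (k + j) * x ^ j = q ^ k := by
    intro k j
    rw [pow_add, mul_assoc, ← mul_pow, hqx, one_pow, mul_one]
  by_cases hc : b ≤ n - 2 * d
  · calc I * G ≤ q ^ d * (u * q ^ (n - 2 * d - b)) := by
          refine (mul_le_mul_of_nonneg_left (hG1 hc) hI0).trans ?_
          gcongr
      _ = q ^ n * (u * x ^ b * x ^ d) := by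
          have e : q ^ n * x ^ (b + d) = q ^ (n - (b + d)) := by
            have := hqk (n - (b + d)) (b + d)
            rwa [show n - (b + d) + (b + d) = n by omega] at this
          have e2 : q ^ d * q ^ (n - 2 * d - b) = q ^ (n - (b + d)) := by
            rw [← pow_add]
            congr 1
            omega
          calc q ^ d * (u * q ^ (n - 2 * d - b)) = u * (q ^ d * q ^ (n - 2 * d - b)) := by ring
            _ = u * (q ^ n * x ^ (b + d)) := by rw [e2, e]
            _ = q ^ n * (u * x ^ b * x ^ d) := by rw [pow_add]; ring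
      _ ≤ _ := by
          have : (0 : ℝ) ≤ (3 / 4) ^ (n - b) * (16 / 27) ^ d := by positivity
          gcongr
          linarith
  · have hxd : x ^ d ≤ (3 / 4) ^ (n - b) * (16 / 27) ^ d := by
      calc x ^ d ≤ (1 / 3) ^ d := by gcongr
        _ = (3 / 4) ^ (2 * d) * (16 / 27) ^ d := by
            rw [pow_mul, ← mul_pow]
            norm_num
        _ ≤ (3 / 4) ^ (n - b) * (16 / 27) ^ d := by
            have : ((3 : ℝ) / 4) ^ (2 * d) ≤ (3 / 4) ^ (n - b) :=
              pow_le_pow_of_le_one (by norm_num) (by norm_num) (by omega)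
            gcongr
    calc I * G ≤ q ^ d * q ^ (n - 2 * d) := by
          refine (mul_le_mul_of_nonneg_left hG2 hI0).trans ?_
          gcongr
      _ = q ^ n * x ^ d := by
          have := hqk (n - d) d
          rw [show n - d + d = n by omega] at this
          rw [this, ← pow_add]
          congr 1
          omega
      _ ≤ q ^ n * ((3 / 4) ^ (n - b) * (16 / 27) ^ d) := by gcongr
      _ ≤ _ := by
          have : (0 : ℝ) ≤ u * x ^ b * x ^ d := by positivity
          gcongr
          linarith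

theorem tSqf (h1 : StmtSuPsi.{0}) (h2 : StmtTwMon.{0}) (h3 : S_Cop) : S_Sqf := by
  classical
  intro F _ _ hq B hB
  obtain ⟨u, hu, hcop⟩ := h3 F B hB
  set b := B.natDegree with hb
  set q : ℝ := (Nat.card F : ℝ) with hqdef
  have hq3 : (3 : ℝ) ≤ q := by
    rw [hqdef]
    exact_mod_cast hq
  have hq0 : (0 : ℝ) < q := by linarith
  set x : ℝ := 1 / q with hx
  have hx0 : 0 < x := by positivity
  have hx3 : x ≤ 1 / 3 := one_div_le_one_div_of_le (by norm_num) hq3
  have hqx : q * x = 1 := by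
    rw [hx]
    field_simp
  have hcp : ∀ n, b ≤ n → ((cp B n).card : ℝ) = u * q ^ (n - b) := by
    intro n hn
    have := hcop n hn
    have e : {f ∈ (mon F n : Set F[X]) | IsCoprime f B} = (cp B n : Finset F[X]) := by
      ext f
      simp [cp]
    rw [e, Set.ncard_coe_finset] at this
    rw [this, hqdef]
    push_cast
    ring
  have hcp2 : ∀ n, ((cp B n).card : ℝ) ≤ q ^ n := by
    intro n
    have h4 : (cp B n).card ≤ (mon F n).card := Finset.card_le_card (Finset.filter_subset _ _)
    rw [(h2 F).1] at h4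
    rw [hqdef]
    exact_mod_cast h4
  -- the threshold
  obtain ⟨M, hM⟩ := exists_pow_lt_of_lt_one (show (0 : ℝ) < x ^ b / 8 by positivity)
    (show (3 / 4 : ℝ) < 1 by norm_num)
  refine ⟨x ^ b / 4, by positivity, b + M, ?_⟩
  intro n hn
  have hbn : b ≤ n := by omega
  have hsplit : (sqf F B n).card + ((cp B n).filter (fun f => ¬ Squarefree f)).card =
      (cp B n).card := by
    have e : sqf F B n = (cp B n).filter (fun f => Squarefree f) := by
      ext f
      simp only [sqf, cp, Finset.mem_filter]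
      tauto
    rw [e]
    exact Finset.card_filter_add_card_filter_not _
  have hsum : (((cp B n).filter (fun f => ¬ Squarefree f)).card : ℝ) ≤
      q ^ n * (u * x ^ b * (1 / 2) + (3 / 4) ^ (n - b) * (16 / 11)) := by
    refine (cntNsq B n).trans ?_
    have hterm : ∀ d ∈ Icc 1 (n / 2),
        ((irr F d).card : ℝ) * ((cp B (n - 2 * d)).card : ℝ) ≤
        q ^ n * (u * x ^ b * x ^ d + (3 / 4) ^ (n - b) * (16 / 27) ^ d) := by
      intro d hd
      obtain ⟨hd1, hd2⟩ := Finset.mem_Icc.1 hd
      have hirr : ((irr F d).card : ℝ) ≤ q ^ d := by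
        have h5 := (h1 F 2 Nat.prime_two).2.2.2.2 d hd1
        have h6 : (irr F d).card ≤ Nat.card F ^ d := by nlinarith
        rw [hqdef]
        exact_mod_cast h6
      exact term hq3 hx (Nat.cast_nonneg _) hirr hbn (by omega)
        (fun hc => (hcp _ hc).le) (hcp2 _)
    refine (Finset.sum_le_sum hterm).trans ?_
    rw [← Finset.mul_sum, Finset.sum_add_distrib, ← Finset.mul_sum, ← Finset.mul_sum]
    have g1 := geo x hx0.le (by linarith) (n / 2)
    have g2 := geo (16 / 27) (by norm_num) (by norm_num) (n / 2)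
    have g3 : x / (1 - x) ≤ 1 / 2 := by
      rw [div_le_iff₀ (by linarith)]
      linarith
    have g4 : (16 / 27 : ℝ) / (1 - 16 / 27) = 16 / 11 := by norm_num
    have g5 := g1.trans g3
    rw [g4] at g2
    gcongr
  have hqn : q ^ (n - b) = q ^ n * x ^ b := by
    have : q ^ n = q ^ (n - b) * q ^ b := by
      rw [← pow_add]
      congr 1
      omega
    rw [this, mul_assoc, ← mul_pow, hqx, one_pow, mul_one]
  have htail : ((3 : ℝ) / 4) ^ (n - b) ≤ x ^ b / 8 := by
    refine le_trans ?_ hM.le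
    exact pow_le_pow_of_le_one (by norm_num) (by norm_num) (by omega)
  have hcpn := hcp n hbn
  rw [hqn] at hcpn
  have hs' : ((sqf F B n).card : ℝ) + (((cp B n).filter (fun f => ¬ Squarefree f)).card : ℝ) =
      ((cp B n).card : ℝ) := by exact_mod_cast hsplit
  have hu' : (1 : ℝ) ≤ u := by exact_mod_cast hu
  have hqn0 : 0 < q ^ n := by positivity
  have hxb : 0 < x ^ b := by positivity
  have hfin : x ^ b / 4 ≤ u * x ^ b - (u * x ^ b * (1 / 2) + (3 / 4) ^ (n - b) * (16 / 11)) := by
    have : x ^ b ≤ u * x ^ b := by nlinarith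
    nlinarith
  calc x ^ b / 4 * q ^ n = q ^ n * (x ^ b / 4) := by ring
    _ ≤ q ^ n * (u * x ^ b - (u * x ^ b * (1 / 2) + (3 / 4) ^ (n - b) * (16 / 11))) := by
        gcongr
    _ = u * (q ^ n * x ^ b) - q ^ n * (u * x ^ b * (1 / 2) + (3 / 4) ^ (n - b) * (16 / 11)) := by
        ring
    _ ≤ ((sqf F B n).card : ℝ) := by linarith

end Pool.Agent.MP72S.Ns
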