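import Pool.Agent.Lib.MP_72e2e6_nt.Sm.NS.Spec

/-!
# MP_72e2e6_nt, `Sm/NS`, module `Srt`: any index may be moved to the last place
-/

set_option autoImplicit false

namespace Pool.Agent.MP72S.Ns

open Finset Polynomial MP72e2e6

private theorem srt_mem {F : Type} [Field F] [Finite F] {m : ℕ} (n' : Fin m → ℕ)
    (σ : Equiv.Perm (Fin m)) (z : Fin m → F[X]) (hz : z ∈ tpl F n') :
    (z ∘ σ) ∈ tpl F (n' ∘ σ) := by
  classical
  unfold tpl at hz ⊢
  rw [Finset.mem_filter, Fintype.mem_piFinset] at hz ⊢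
  exact ⟨fun i => hz.1 (σ i), hz.2.comp σ.injective⟩

private theorem srt_ncard {F : Type} [Field F] [Finite F] {m : ℕ} (n' : Fin m → ℕ)
    (σ : Equiv.Perm (Fin m)) (hσ : ∀ i, σ (σ i) = i) (p : F[X] → Prop) :
    {z ∈ (tpl F (n' ∘ σ) : Set (Fin m → F[X])) | p (∏ i, z i)}.ncard =
      {z ∈ (tpl F n' : Set (Fin m → F[X])) | p (∏ i, z i)}.ncard := by
  have h1 : ∀ z : Fin m → F[X], (z ∘ σ) ∘ σ = z := fun z => funext fun i => congrArg z (hσ i)
  have h2 : (n' ∘ σ) ∘ σ = n' := funext fun i => congrArg n' (hσ i)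
  have h3 : ∀ z : Fin m → F[X], ∏ i, (z ∘ σ) i = ∏ i, z i := fun z => Equiv.prod_comp σ z
  have h4 : Function.Injective fun z : Fin m → F[X] => z ∘ σ := by
    intro z z' h
    have h5 : (z ∘ σ) ∘ σ = (z' ∘ σ) ∘ σ := congrArg (fun w : Fin m → F[X] => w ∘ σ) h
    rwa [h1, h1] at h5
  have h5 : {z ∈ (tpl F (n' ∘ σ) : Set (Fin m → F[X])) | p (∏ i, z i)} =
      (fun z : Fin m → F[X] => z ∘ σ) '' {z ∈ (tpl F n' : Set (Fin m → F[X])) | p (∏ i, z i)} := by
    ext z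
    constructor
    · rintro ⟨hz1, hz2⟩
      refine ⟨z ∘ σ, ⟨?_, ?_⟩, h1 z⟩
      · have h6 := srt_mem (n' ∘ σ) σ z (Finset.mem_coe.1 hz1)
        rw [h2] at h6
        exact Finset.mem_coe.2 h6
      · rw [h3]
        exact hz2
    · rintro ⟨z', ⟨hz1, hz2⟩, rfl⟩
      refine ⟨Finset.mem_coe.2 (srt_mem n' σ z' (Finset.mem_coe.1 hz1)), ?_⟩
      show p (∏ i, (z' ∘ σ) i)
      rw [h3]
      exact hz2
  rw [h5, Set.ncard_image_of_injective _ h4]

theorem tSrt : S_Srt := by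
  intro F _ _ r n'
  obtain ⟨b, hb⟩ := Finite.exists_max n'
  have hσ : ∀ i, Equiv.swap b (Fin.last r) (Equiv.swap b (Fin.last r) i) = i :=
    fun i => congrFun (congrArg DFunLike.coe (Equiv.swap_swap b (Fin.last r))) i
  refine ⟨n' ∘ Equiv.swap b (Fin.last r), fun i => ?_, Equiv.sum_comp _ n',
    fun k hk i => hk _, ?_, fun p => srt_ncard n' _ hσ p⟩
  · show n' (Equiv.swap b (Fin.last r) i) ≤ n' (Equiv.swap b (Fin.last r) (Fin.last r))
    rw [Equiv.swap_apply_right]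
    exact hb _
  · have h1 := srt_ncard (F := F) n' _ hσ fun _ => True
    have h2 : ∀ k : Fin (r + 1) → ℕ,
        {z ∈ (tpl F k : Set (Fin (r + 1) → F[X])) | True}.ncard = #(tpl F k) := by
      intro k
      rw [← Set.ncard_coe_finset]
      congr 1
      ext z
      exact ⟨fun h => h.1, fun h => ⟨h, trivial⟩⟩
    rw [h2, h2] at h1
    exact h1

end Pool.Agent.MP72S.Ns
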