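import Pool.Agent.Lib.MP_72e2e6_nt.Sm.NS.SpecT

/-! # MP_72e2e6_nt, `Sm/NS`: from the `f` prime to `Dlt a` to all tame `D` -/

set_option autoImplicit false

namespace Pool.Agent.MP72S.Ns

open Finset Polynomial MP72e2e6 MP72T

private theorem tot_card (h1 : S_Dcp) {F : Type} [Field F] [Finite F] {a : Fin 3 → F[X]}
    (ha : Function.Injective a) (T : Finset F[X]) (hT : ∀ d, d ∈ T ↔ d ∈ tm0 a) (n : ℕ)
    (hn : ∀ d ∈ T, d.natDegree ≤ n) (good : F[X] → Prop) :
    {D ∈ tms a n | good D}.ncard = ∑ d ∈ T,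
      {f ∈ (sqf F (Dlt a) (n - d.natDegree) : Set F[X]) | good (d * f)}.ncard := by
  classical
  obtain ⟨-, h2, h3⟩ := h1 F a ha
  have e1 : ∀ d : F[X], {f ∈ (sqf F (Dlt a) (n - d.natDegree) : Set F[X]) | good (d * f)}.ncard =
      #((sqf F (Dlt a) (n - d.natDegree)).filter fun f => good (d * f)) := by
    intro d
    rw [← Set.ncard_coe_finset, coe_filter]
    rfl
  have e2 : {D ∈ tms a n | good D} = ((T.biUnion fun d =>
      ((sqf F (Dlt a) (n - d.natDegree)).filter fun f => good (d * f)).image (d * ·) :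
        Finset F[X]) : Set F[X]) := by
    ext D
    rw [mem_coe, mem_biUnion]
    constructor
    · rintro ⟨hD, hg⟩
      obtain ⟨d, hd, k, hk, f, hf, rfl⟩ := (h2 n D).1 hD
      refine ⟨d, (hT d).2 hd, mem_image.2 ⟨f, mem_filter.2 ⟨?_, hg⟩, rfl⟩⟩
      have : n - d.natDegree = k := by omega
      rw [this]
      exact hf
    · rintro ⟨d, hd, hD⟩
      obtain ⟨f, hf, rfl⟩ := mem_image.1 hD
      obtain ⟨hf, hg⟩ := mem_filter.1 hf
      refine ⟨(h2 n _).2 ⟨d, (hT d).1 hd, n - d.natDegree, ?_, f, hf, rfl⟩, hg⟩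
      have := hn d hd
      omega
  rw [e2, Set.ncard_coe_finset, card_biUnion]
  · refine sum_congr rfl fun d hd => ?_
    rw [e1]
    refine card_image_of_injective _ fun f f' hff => ?_
    exact mul_left_cancel₀ ((hT d).1 hd).1.sqf.ne_zero hff
  · intro d hd d' hd' hne
    rw [Function.onFun, Finset.disjoint_left]
    intro D hD hD'
    obtain ⟨f, hf, rfl⟩ := mem_image.1 hD
    obtain ⟨f', hf', he⟩ := mem_image.1 hD'
    exact hne (h3 d ((hT d).1 hd) d' ((hT d').1 hd') _ _ f (mem_filter.1 hf).1 f'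
      (mem_filter.1 hf').1 he.symm).1

theorem tTot (h1 : S_Dcp) : S_Tot := by
  classical
  intro F _ _ a ha good hgood ε hε
  obtain ⟨hfin, -, -⟩ := h1 F a ha
  obtain ⟨T, hT⟩ : ∃ T : Finset F[X], ∀ d, d ∈ T ↔ d ∈ tm0 a := ⟨hfin.toFinset, fun d => by
    rw [Set.Finite.mem_toFinset]⟩
  have hch : ∀ d : F[X], ∃ n₀ : ℕ, d ∈ tm0 a → ∀ n, n₀ ≤ n → Odd (d.natDegree + n + mxd a) →
      (1 - ε) * (#(sqf F (Dlt a) n) : ℝ) ≤
        ({f ∈ (sqf F (Dlt a) n : Set F[X]) | good (d * f)}.ncard : ℝ) := by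
    intro d
    by_cases hd : d ∈ tm0 a
    · obtain ⟨n₀, h⟩ := hgood d hd ε hε
      exact ⟨n₀, fun _ => h⟩
    · exact ⟨0, fun h => absurd h hd⟩
  choose n₀ hn₀ using hch
  refine ⟨∑ d ∈ T, (d.natDegree + n₀ d), fun n hn hodd => ?_⟩
  have hb : ∀ d ∈ T, d.natDegree + n₀ d ≤ n := fun d hd =>
    (single_le_sum (f := fun d : F[X] => d.natDegree + n₀ d) (fun _ _ => Nat.zero_le _) hd).trans hn
  have e1 := tot_card h1 ha T hT n (fun d hd => by have := hb d hd; omega) good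
  have e2 := tot_card h1 ha T hT n (fun d hd => by have := hb d hd; omega) (fun _ => True)
  have e3 : {D ∈ tms a n | (fun _ => True) D} = tms a n := by
    ext D
    exact ⟨fun h => h.1, fun h => ⟨h, trivial⟩⟩
  have e4 : ∀ d : F[X], {f ∈ (sqf F (Dlt a) (n - d.natDegree) : Set F[X]) | True}.ncard =
      #(sqf F (Dlt a) (n - d.natDegree)) := by
    intro d
    rw [← Set.ncard_coe_finset]
    refine congrArg Set.ncard ?_
    ext f
    exact ⟨fun h => h.1, fun h => ⟨h, trivial⟩⟩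
  rw [e3] at e2
  rw [e1, e2, Nat.cast_sum, Nat.cast_sum, mul_sum]
  refine sum_le_sum fun d hd => ?_
  rw [e4]
  have h5 := hb d hd
  refine hn₀ d ((hT d).1 hd) (n - d.natDegree) (by omega) ?_
  have h6 : d.natDegree + (n - d.natDegree) = n := by omega
  rw [h6]
  exact hodd

end Pool.Agent.MP72S.Ns
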