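import Pool.Agent.Lib.MP_72e2e6_nt.Sm.NS.Spec

/-!
# MP_72e2e6_nt, `Sm/NS/Vr`: the variance of the number of the prime divisors (helper7)
-/

set_option autoImplicit false

namespace Pool.Agent.MP72S.Ns

open Finset Polynomial MP72e2e6

section

variable {F : Type} [Field F] [Finite F]

private theorem Vr_q : (0 : ℝ) < (Nat.card F : ℝ) := by
  exact_mod_cast Nat.card_pos

/-- the weight of `P` -/
private noncomputable def Vr_w (P : F[X]) : ℝ := ((Nat.card F : ℝ) ^ P.natDegree)⁻¹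

private theorem Vr_w_pos (P : F[X]) : 0 < Vr_w P := inv_pos.2 (pow_pos Vr_q _)

open Classical in
/-- the number of the multiples of `P` -/
private theorem Vr_cnt (h1 : StmtTwMon.{0}) {n k : ℕ} {P : F[X]} (hP : P ∈ mon F k)
    (hk : k ≤ n) : ∑ f ∈ mon F n, (if P ∣ f then (1 : ℝ) else 0) =
      (Nat.card F : ℝ) ^ n * Vr_w P := by
  obtain ⟨h2, h3⟩ := h1 F
  have h4 := (h3 k n P hP).1 hk (fun _ => 1)
  rw [sum_const, h2, nsmul_eq_mul, mul_one] at h4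
  have h5 : (∑ f ∈ mon F n, (if P ∣ f then (1 : ℝ) else 0)) =
      ((∑ f ∈ mon F n, (if P ∣ f then (1 : ℤ) else 0) : ℤ) : ℝ) := by
    rw [Int.cast_sum]
    refine sum_congr rfl fun f _ => ?_
    split_ifs <;> simp
  rw [h5, h4]
  push_cast
  rw [Vr_w, (mem_mon.1 hP).2, pow_sub₀ _ (ne_of_gt Vr_q) hk]

/-- the primes with degrees in `[a, b)` -/
private noncomputable def Vr_I (F : Type) [Field F] [Finite F] (a b : ℕ) : Finset F[X] := by
  classical exact (Ico a b).biUnion fun d => irr F d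

private theorem Vr_mem {a b : ℕ} {P : F[X]} :
    P ∈ Vr_I F a b ↔ P.Monic ∧ Irreducible P ∧ a ≤ P.natDegree ∧ P.natDegree < b := by
  classical
  unfold Vr_I
  rw [mem_biUnion]
  constructor
  · rintro ⟨d, hd, hP⟩
    unfold irr at hP
    rw [mem_filter, mem_mon] at hP
    obtain ⟨⟨h1, h2⟩, h3⟩ := hP
    rw [mem_Ico] at hd
    exact ⟨h1, h3, by omega, by omega⟩
  · rintro ⟨h1, h2, h3, h4⟩
    refine ⟨P.natDegree, mem_Ico.2 ⟨h3, h4⟩, ?_⟩
    unfold irr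
    rw [mem_filter, mem_mon]
    exact ⟨⟨h1, rfl⟩, h2⟩

private theorem Vr_sum {a b : ℕ} (g : F[X] → ℝ) :
    ∑ P ∈ Vr_I F a b, g P = ∑ d ∈ Ico a b, ∑ P ∈ irr F d, g P := by
  classical
  unfold Vr_I
  apply sum_biUnion
  intro d _ d' _ hdd
  rw [Function.onFun, disjoint_left]
  intro P hP hP'
  unfold irr at hP hP'
  rw [mem_filter, mem_mon] at hP hP'
  exact hdd (hP.1.2.symm.trans hP'.1.2)

open Classical in
private theorem Vr_om {a b : ℕ} (f : F[X]) :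
    (om a b f : ℝ) = ∑ P ∈ Vr_I F a b, (if P ∣ f then (1 : ℝ) else 0) := by
  rw [Vr_sum]
  unfold om
  rw [Nat.cast_sum]
  refine sum_congr rfl fun d _ => ?_
  rw [card_filter, Nat.cast_sum]
  refine sum_congr rfl fun P _ => ?_
  split_ifs <;> simp

private theorem Vr_mu {a b : ℕ} :
    ∑ d ∈ Ico a b, (#(irr F d) : ℝ) / (Nat.card F : ℝ) ^ d = ∑ P ∈ Vr_I F a b, Vr_w P := by
  classical
  rw [Vr_sum]
  refine sum_congr rfl fun d _ => ?_
  rw [div_eq_mul_inv, ← nsmul_eq_mul, ← sum_const]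
  refine sum_congr rfl fun P hP => ?_
  unfold irr at hP
  rw [mem_filter, mem_mon] at hP
  rw [Vr_w, hP.1.2]

open Classical in
/-- the number of the common multiples -/
private theorem Vr_pair (h1 : StmtTwMon.{0}) {a b n : ℕ} (hb : 2 * b ≤ n + 2) {P Q : F[X]}
    (hP : P ∈ Vr_I F a b) (hQ : Q ∈ Vr_I F a b) :
    ∑ f ∈ mon F n, (if P ∣ f then (1 : ℝ) else 0) * (if Q ∣ f then (1 : ℝ) else 0) ≤
      (Nat.card F : ℝ) ^ n * (Vr_w P * Vr_w Q + if P = Q then Vr_w P else 0) := by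
  obtain ⟨hP1, hP2, hP3, hP4⟩ := Vr_mem.1 hP
  obtain ⟨hQ1, hQ2, hQ3, hQ4⟩ := Vr_mem.1 hQ
  have hq : (0 : ℝ) < (Nat.card F : ℝ) ^ n := pow_pos Vr_q n
  by_cases hPQ : P = Q
  · subst hPQ
    rw [if_pos rfl]
    have h2 : ∑ f ∈ mon F n, (if P ∣ f then (1 : ℝ) else 0) * (if P ∣ f then (1 : ℝ) else 0) =
        ∑ f ∈ mon F n, (if P ∣ f then (1 : ℝ) else 0) := by
      refine sum_congr rfl fun f _ => ?_
      split_ifs <;> simp
    rw [h2, Vr_cnt h1 (mem_mon.2 ⟨hP1, rfl⟩) (by omega)]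
    apply mul_le_mul_of_nonneg_left _ hq.le
    have := mul_pos (Vr_w_pos P) (Vr_w_pos P)
    linarith
  · rw [if_neg hPQ, add_zero]
    have hcop : IsCoprime P Q := by
      rw [(hP2.coprime_iff_not_dvd)]
      intro h
      have h2 := hP2.associated_of_dvd hQ2 h
      exact hPQ (eq_of_monic_of_associated hP1 hQ1 h2)
    have h2 : ∑ f ∈ mon F n, (if P ∣ f then (1 : ℝ) else 0) * (if Q ∣ f then (1 : ℝ) else 0) =
        ∑ f ∈ mon F n, (if P * Q ∣ f then (1 : ℝ) else 0) := by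
      refine sum_congr rfl fun f _ => ?_
      by_cases h3 : P * Q ∣ f
      · rw [if_pos h3, if_pos ((dvd_mul_right P Q).trans h3), if_pos ((dvd_mul_left Q P).trans h3),
          mul_one]
      · rw [if_neg h3]
        by_cases h4 : P ∣ f
        · have h5 : ¬ Q ∣ f := fun h5 => h3 (hcop.mul_dvd h4 h5)
          rw [if_neg h5, mul_zero]
        · rw [if_neg h4, zero_mul]
    have hdeg : (P * Q).natDegree = P.natDegree + Q.natDegree := hP1.natDegree_mul hQ1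
    rw [h2, Vr_cnt h1 (mem_mon.2 ⟨hP1.mul hQ1, rfl⟩) (by omega)]
    have h3 : Vr_w (P * Q) = Vr_w P * Vr_w Q := by
      unfold Vr_w
      rw [hdeg, pow_add, mul_inv]
    rw [h3]

end

theorem tVr (h1 : StmtTwMon.{0}) : S_Vr := by
  intro F _ _ a b n μ ha hb hμ
  classical
  obtain ⟨I, hI⟩ : ∃ I, I = Vr_I F a b := ⟨_, rfl⟩
  rw [Vr_mu, ← hI] at hμ
  have hq : (0 : ℝ) < (Nat.card F : ℝ) ^ n := pow_pos Vr_q n
  have hdeg : ∀ P ∈ I, P ∈ mon F P.natDegree ∧ P.natDegree ≤ n := by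
    intro P hP
    rw [hI] at hP
    obtain ⟨hP1, hP2, hP3, hP4⟩ := Vr_mem.1 hP
    exact ⟨mem_mon.2 ⟨hP1, rfl⟩, by omega⟩
  -- the first moment
  have hm1 : ∑ f ∈ mon F n, (om a b f : ℝ) = (Nat.card F : ℝ) ^ n * μ := by
    rw [sum_congr rfl fun f _ => Vr_om f, sum_comm, hμ, mul_sum, ← hI]
    refine sum_congr rfl fun P hP => ?_
    exact Vr_cnt h1 (hdeg P hP).1 (hdeg P hP).2
  -- the second moment
  have hm2 : ∑ f ∈ mon F n, (om a b f : ℝ) ^ 2 ≤ (Nat.card F : ℝ) ^ n * (μ ^ 2 + μ) := by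
    have h2 : ∀ f ∈ mon F n, (om a b f : ℝ) ^ 2 =
        ∑ P ∈ I, ∑ Q ∈ I, (if P ∣ f then (1 : ℝ) else 0) * (if Q ∣ f then (1 : ℝ) else 0) := by
      intro f _
      rw [Vr_om f, ← hI, sq, sum_mul_sum]
    rw [sum_congr rfl h2, sum_comm]
    have h3 : ∀ P ∈ I, ∑ f ∈ mon F n, ∑ Q ∈ I,
        (if P ∣ f then (1 : ℝ) else 0) * (if Q ∣ f then (1 : ℝ) else 0) ≤
        ∑ Q ∈ I, (Nat.card F : ℝ) ^ n * (Vr_w P * Vr_w Q + if P = Q then Vr_w P else 0) := by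
      intro P hP
      rw [sum_comm]
      refine sum_le_sum fun Q hQ => ?_
      rw [hI] at hP hQ
      exact Vr_pair h1 hb hP hQ
    refine (sum_le_sum h3).trans (le_of_eq ?_)
    have h4 : ∀ P ∈ I, ∑ Q ∈ I, (Nat.card F : ℝ) ^ n *
        (Vr_w P * Vr_w Q + if P = Q then Vr_w P else 0) =
        (Nat.card F : ℝ) ^ n * (Vr_w P * μ + Vr_w P) := by
      intro P hP
      rw [← mul_sum, sum_add_distrib, ← mul_sum, ← hμ, sum_ite_eq, if_pos hP]
    rw [sum_congr rfl h4, ← mul_sum, sum_add_distrib, ← sum_mul, ← hμ]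
    ring
  have hcard : ∑ f ∈ mon F n, μ ^ 2 = (Nat.card F : ℝ) ^ n * μ ^ 2 := by
    rw [sum_const, (h1 F).1, nsmul_eq_mul]
    push_cast
    ring
  have h5 : ∑ f ∈ mon F n, ((om a b f : ℝ) - μ) ^ 2 =
      ∑ f ∈ mon F n, (om a b f : ℝ) ^ 2 - 2 * μ * ∑ f ∈ mon F n, (om a b f : ℝ) +
        ∑ f ∈ mon F n, μ ^ 2 := by
    rw [mul_sum, ← sum_sub_distrib, ← sum_add_distrib]
    refine sum_congr rfl fun f _ => ?_
    ring
  rw [h5, hm1, hcard]
  nlinarith [hm2]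

end Pool.Agent.MP72S.Ns
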