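import Pool.Agent.Lib.MP_72e2e6_nt.Sm.NS.Spec
import Pool.Agent.Lib.MP_72e2e6_nt.Sm.Out
import Pool.Agent.Lib.MP_72e2e6_nt.Sm.StmtN

/-!
# MP_72e2e6_nt, `Sm`, block NS, part T: all tame polynomials

Modules as in `Sm/NS/Spec.lean` (file `Sm/NS/X.lean`, import this file, `theorem tX (h1 : ..) .. : S_X`, namespace
`Pool.Agent.MP72S.Ns`).
-/

set_option autoImplicit false

namespace Pool.Agent.MP72S.Ns

open Finset Polynomial MP72e2e6 MP72T

/-- The product of the differences. -/
noncomputable def Dlt {F : Type} [Field F] (a : Fin 3 → F[X]) : F[X] :=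
  (a 0 - a 1) * (a 0 - a 2) * (a 1 - a 2)

/-- The tame polynomials all of whose prime factors divide `Dlt a`. -/
def tm0 {F : Type} [Field F] (a : Fin 3 → F[X]) : Set F[X] :=
  {d | Tam a d ∧ ∀ P, Irreducible P → P ∣ d → P ∣ Dlt a}

/-- **Dcp** (250 lines). Decomposition of a tame polynomial.

Proof. `Dlt a ≠ 0`. (1) `d ∈ tm0 a` is squarefree and its prime factors divide `Dlt a`, so `d ∣ Dlt a`
(`UniqueFactorizationMonoid.dvd_of_squarefree_of_..`, or: `d` is associated to the product of its different normalized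
factors, which divide `Dlt a` and are pairwise coprime; `Squarefree.dvd_of_squarefree_of_mul_dvd_mul_right`..), so
`natDegree d ≤ natDegree (Dlt a)`; there are finitely many polynomials of bounded degree over a finite field. (2) Let
`Tam a D`, `natDegree D = n`. Let `f` be the product of the monic irreducible divisors of `D` which do not divide `Dlt a`
(`normalizedFactors D` has no multiple elements); `f` is monic and squarefree, prime to `Dlt a` and `f ∣ D`, `D = d * f`. The
irreducible divisors of `d` divide `Dlt a` (a normalized factor `P` of `D` which does not divide `Dlt a` divides `f`; if it divided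
also `d`, then `P ^ 2 ∣ D`). `d` is squarefree, and for an irreducible `P` dividing `Dlt a` `multiplicity P f = 0`, so
`multiplicity P D = multiplicity P d` (`multiplicity_mul`) and `Tam.odd` carries over. Uniqueness: if `d * f = d' * f'` with
`f`, `f'` monic, prime to `Dlt a`, and the prime factors of `d`, `d'` dividing `Dlt a`, then `f` is prime to `d'`
(a common irreducible divisor would divide `Dlt a` and `f`), so `f ∣ f'`, and in the same way `f' ∣ f`, so `f = f'`, `d = d'`. (3)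
Conversely let `d ∈ tm0 a`, `f ∈ sqf F (Dlt a) k`: `d` and `f` are coprime, `d * f` is squarefree, of degree
`natDegree d + k`, and the multiplicities at the divisors of `Dlt a` are those of `d`. -/
def S_Dcp : Prop :=
  ∀ (F : Type) [Field F] [Finite F] (a : Fin 3 → F[X]), Function.Injective a →
    (tm0 a).Finite ∧
    (∀ (n : ℕ) (D : F[X]), D ∈ tms a n ↔ ∃ d ∈ tm0 a, ∃ k, d.natDegree + k = n ∧
      ∃ f ∈ sqf F (Dlt a) k, D = d * f) ∧
    ∀ d ∈ tm0 a, ∀ d' ∈ tm0 a, ∀ k k' : ℕ, ∀ f ∈ sqf F (Dlt a) k, ∀ f' ∈ sqf F (Dlt a) k',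
      d * f = d' * f' → d = d' ∧ f = f'

/-- **Tot** (200 lines, uses `S_Dcp`). From the `f` prime to `Dlt a` to all tame `D`.

Proof. By `S_Dcp` `tms a n` is the disjoint union over `d ∈ tm0 a` with `natDegree d ≤ n` of the sets
`{d * f | f ∈ sqf F (Dlt a) (n - natDegree d)}`, and `f ↦ d * f` is injective (`d ≠ 0` as it is squarefree). So
`#(tms a n) = ∑_d #(sqf F (Dlt a) (n - natDegree d))`, and the same for the subsets of the good elements. Let `n₀` be larger than
`natDegree d + n₀(d)` for all the finitely many `d`; `Odd (n + mxd a)` is `Odd (natDegree d + (n - natDegree d) + mxd a)`. Sum the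
inequalities. -/
def S_Tot : Prop :=
  ∀ (F : Type) [Field F] [Finite F] (a : Fin 3 → F[X]), Function.Injective a →
    ∀ good : F[X] → Prop,
    (∀ d ∈ tm0 a, ∀ ε : ℝ, 0 < ε → ∃ n₀ : ℕ, ∀ n, n₀ ≤ n → Odd (d.natDegree + n + mxd a) →
      (1 - ε) * (#(sqf F (Dlt a) n) : ℝ) ≤
        ({f ∈ (sqf F (Dlt a) n : Set F[X]) | good (d * f)}.ncard : ℝ)) →
    ∀ ε : ℝ, 0 < ε → ∃ n₀ : ℕ, ∀ n, n₀ ≤ n → Odd (n + mxd a) →
      (1 - ε) * ((tms a n).ncard : ℝ) ≤ ({D ∈ tms a n | good D}.ncard : ℝ)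

/-- **Pos** (100 lines, uses `MP72T.S_Ex`, `S_Sqf`, `S_Dcp`). A positive proportion is tame.

Proof. There is a tame `D` (`S_Ex`), so by `S_Dcp` there is `d ∈ tm0 a`. The `d * f`, `f ∈ sqf F (Dlt a) (n - natDegree d)`, are in
`tms a n` (finite: finitely many polynomials of degree `n`), `f ↦ d * f` is injective. `S_Sqf`; `c = c' q ^ (- natDegree d)`. -/
def S_Pos : Prop :=
  ∀ (F : Type) [Field F] [Finite F], 3 ≤ Nat.card F → ∀ a : Fin 3 → F[X],
    Function.Injective a → ∃ c : ℝ, 0 < c ∧ ∃ n₀ : ℕ, ∀ n, n₀ ≤ n →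
      c * (Nat.card F : ℝ) ^ n ≤ ((tms a n).ncard : ℝ)

/-- The interface to the arithmetic: most of the tuples of every frame are good. -/
def S_FrmN : Prop :=
  ∀ (F : Type) [Field F] [Finite F] (a : Fin 3 → F[X]), Cur a → ∀ d ∈ tm0 a, ∀ ε : ℝ, 0 < ε →
    ∃ A : ℕ, ∀ n h : ℕ, (Dlt a).natDegree < h → Odd (d.natDegree + n + mxd a) →
    ∀ s ∈ Sml F (Dlt a) h n, ∀ (r : ℕ) (n' : Fin (r + 1) → ℕ), s.natDegree + ∑ i, n' i = n →
    FrN (Nat.card F) A (om 1 h s) r n h n' →
    (1 - ε) * (#(tpl F n') : ℝ) ≤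
      ({z ∈ (tpl F n' : Set (Fin (r + 1) → F[X])) |
        Finite (twd a (d * (s * ∏ i, z i))).toAffine.Point ∧
          MP72Y.ShaTwoFin (twd a (d * (s * ∏ i, z i))) (SeparableClosure (RatFunc F))}.ncard : ℝ)

/-- **OutN** (60 lines, uses `S_Dens`, `S_Tot`, `S_Pos`, `S_FrmN`). THE THEOREM.

Proof. `3 ≤ q` (`q % 4 = 1`, `q ≥ 2`). (1) `S_Pos`. (2) `S_Tot` for `good D = (Finite .. ∧ ShaTwoFin ..)`; its hypothesis is `S_Dens` for
`B = Dlt a`, `par n = Odd (natDegree d + n + mxd a)` and the good `f` with `good (d * f)`, by `S_FrmN`. -/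
def S_OutN : Prop := ThmN

end Pool.Agent.MP72S.Ns
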