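import Pool.Agent.Lib.MP_72e2e6_nt.Sm.NS.SpecH

set_option autoImplicit false

namespace Pool.Agent.MP72S.Ns

open Finset Polynomial MP72e2e6 MP72T

theorem tFrU (h1 : S_Nm2) (h2 : S_Hyt) : S_FrU := by
  intro F _ _ a A₁
  obtain ⟨A₂, hA₂⟩ := h1 0 0 0 A₁ (Dlt a).natDegree
  refine ⟨A₂, fun d u S A s A' r n h n' hA' hfr => ?_⟩
  obtain ⟨-, -, hsm, -, hcard, hsum⟩ := h2 a d u S A s A' r n h n' hfr
  have hq : 2 ≤ Nat.card F := Finite.one_lt_card
  have hn0 : n' 0 ≤ n := by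
    have h3 : n' 0 ≤ ∑ i, n' i := Finset.single_le_sum (fun _ _ => Nat.zero_le _) (mem_univ 0)
    have := hfr.tot
    omega
  have hn : 1 ≤ n := by
    have h3 := hfr.frn.ge 0
    have h4 := hfr.frn.four
    omega
  obtain ⟨-, -, hrat, hbig⟩ := hA₂ A' hA' (Nat.card F) (om 1 h s) r n h n' hq hn hfr.frn
  refine ⟨hfr.frn.four, hfr.frn.ge, hsm, ?_, ?_, ?_⟩
  · have := hfr.tot
    omega
  · refine le_trans (Nat.mul_le_mul_left A₁ ?_) hrat
    omega
  · rcases Nat.eq_zero_or_pos A₁ with h0 | h0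
    · rw [h0, zero_pow (by omega), mul_zero]
      simp
    · refine le_trans (Nat.pow_le_pow_left (Nat.mul_le_mul_left _
        (Nat.pow_le_pow_right h0 ?_)) 2) hbig
      omega

end Pool.Agent.MP72S.Ns
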