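import Pool.Agent.Lib.MP_72e2e6_nt.Sm.NS.SpecH

/-!
# MP_72e2e6_nt, `Sm`, block NS: most tuples of every frame are good
-/

set_option autoImplicit false

namespace Pool.Agent.MP72S.Ns

open Finset Polynomial MP72e2e6 MP72T

private theorem fn_two {F : Type} [Field F] [Finite F] (h : Nat.card F % 4 = 1) :
    (2 : F) ≠ 0 := by
  have hft : Fintype F := Fintype.ofFinite F
  apply Ring.two_ne_zero
  intro h2
  rw [FiniteField.even_card_iff_char_two] at h2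
  rw [Nat.card_eq_fintype_card] at h
  omega

private theorem fn_tpl {F : Type} [Field F] [Finite F] {r : ℕ} (n' : Fin (r + 1) → ℕ) :
    #(tpl F n') ≤ ∏ i, #(irr F (n' i)) := by
  classical
  unfold tpl
  exact (Finset.card_filter_le _ _).trans (le_of_eq (Fintype.card_piFinset _))

private theorem fn_mono {P : Type} {m : ℕ} (S : Fin m → Finset P) (f : (Fin m → P) → ℝ)
    (p q : (Fin m → P) → Prop) (hf : ∀ z, 0 ≤ f z) (hpq : ∀ z, p z → q z) :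
    (∑ᶠ z ∈ {z ∈ tup S | p z}, f z) ≤ ∑ᶠ z ∈ {z ∈ tup S | q z}, f z := by
  classical
  have hfin : ∀ p : (Fin m → P) → Prop, {z ∈ tup S | p z}.Finite := by
    intro p
    refine (Fintype.piFinset S).finite_toSet.subset ?_
    rintro z ⟨hz, -⟩
    exact Finset.mem_coe.2 (Fintype.mem_piFinset.2 hz.1)
  rw [finsum_mem_eq_finite_toFinset_sum _ (hfin p), finsum_mem_eq_finite_toFinset_sum _ (hfin q)]
  refine Finset.sum_le_sum_of_subset_of_nonneg ?_ fun z _ _ => hf z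
  intro z hz
  rw [Set.Finite.mem_toFinset] at hz ⊢
  exact ⟨hz.1, hpq z hz.2⟩

/-- **FrmN**. Most tuples of every frame are good. -/
theorem tFrmN (h1 : D.S_Lo) (h2 : D.S_Rq) (h3 : D.S_Kk) (h4 : HD.S_Irf) (h5 : HD.S_Cm)
    (h6 : HD.S_Ax) (h7 : HD.S_Ax3) (h8 : HD.S_Okt) (h9 : HD.S_G3) (h10 : Lv.S_Irc)
    (h11 : Lv.S_Tmc) (h12 : Lv.S_Ari) (h13 : LvU.S_Lg1U) (h14 : LvU.S_Lg2aU) (h15 : LvU.S_Lg2U)
    (h16 : S_VEnd) (h17 : S_Hya) (h18 : S_Hyt) (h19 : S_Tpl) (h20 : S_FrU) (h21 : S_SzN)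
    (h22 : S_TrN) : S_FrmN := by
  intro F _ _ a ha d hd ε hε
  have two : (2 : F) ≠ 0 := fn_two ha.q4
  have h4d : 4 ∣ Nat.card F - 1 := by
    have := ha.q4
    omega
  obtain ⟨A, hA⟩ := h1 F two
  obtain ⟨C₁, A₁, hlg1⟩ := h13
  have hε6 : 0 < ε / 6 := by positivity
  obtain ⟨Lf, hLf, hend⟩ := h16 (C₁ : ℝ) (ε / 6) hε6
  obtain ⟨A₂, hlg2⟩ := h15 Lf (ε / 6) hε6
  obtain ⟨K, A₃, hlg2a⟩ := h14 (ε / 6) hε6
  obtain ⟨E, L₀, hend⟩ := hend K
  obtain ⟨B₁, hB₁⟩ := h20 a A₁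
  obtain ⟨B₂, hB₂⟩ := h20 a A₂
  obtain ⟨B₃, hB₃⟩ := h20 a A₃
  obtain ⟨B₄, hB₄⟩ := h21 a A ha.q4 hA E (max (3 * (Dlt a).natDegree + 73) L₀) (le_max_left _ _)
  refine ⟨max (max B₁ B₂) (max B₃ B₄), ?_⟩
  intro n h hh hodd s hs r n' htot hfrn
  obtain ⟨hy, -, -⟩ := h17 a d s h n ha hd hs
  obtain ⟨⟨S, hS⟩, ⟨u, hu⟩, -⟩ := h4 F a (d * s) A hy hA
  have frm : Frm a d u S A s (max (max B₁ B₂) (max B₃ B₄)) r n h n' :=
    ⟨ha, hd, hu, hS, hA, hh, hodd, hs, htot, hfrn⟩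
  obtain ⟨-, hadm, hsm, -⟩ := h18 a d u S A s _ r n h n' frm
  have frU₁ := hB₁ d u S A s _ r n h n' ((le_max_left _ _).trans (le_max_left _ _)) frm
  have frU₂ := hB₂ d u S A s _ r n h n' ((le_max_right _ _).trans (le_max_left _ _)) frm
  have frU₃ := hB₃ d u S A s _ r n h n' ((le_max_left _ _).trans (le_max_right _ _)) frm
  have szc := hB₄ d u S s _ r n h n' ((le_max_right _ _).trans (le_max_right _ _)) frm
  obtain ⟨ax, ax2⟩ := h6 F a (d * s) u S A hy hu hS hA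
  obtain ⟨E3, ax3⟩ := h7 F a (d * s) u S A hy hu hS hA
  have ird := h10 F a (d * s) u S A hy hS hA
  have ari := h12 F a (d * s) u S A hy hu hS hA
  have hok : ∀ z ∈ tup fun i : Fin (r + 1) => HD.irr F S (n' i),
      (HD.DD F a (d * s) u S A).Ok z ∧ Lv.Tms (HD.DD F a (d * s) u S A) z := fun z hz =>
    ⟨h8 F a (d * s) u S A hy hS hA r n' hadm z hz, h11 F a (d * s) u S A hy hS hA r n' hadm z hz⟩
  have htau : ∀ v, (HD.DD F a (d * s) u S A).tau v ∈ SF.Gb F := by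
    intro v c
    obtain ⟨-, k2, -⟩ := h3 F
    obtain ⟨-, r2, -⟩ := h2 F two v.o (A v) (hA.ok v)
    exact r2 _ (hA.ok v).tg (c : D.Qf F) ((k2 _).1 c.2)
  have hL : L₀ ≤ max (3 * (Dlt a).natDegree + 73) L₀ * (om 1 h s + r + 2) := by
    refine (le_max_right _ _).trans (Nat.le_mul_of_pos_right _ ?_)
    omega
  have l1 := hlg1 (HD.DD F a (d * s) u S A) Lv.pq (HD.irr F S) ax ari h4d (r + 1) n' h _ frU₁ hok
  have l2a := hlg2a (HD.DD F a (d * s) u S A) Lv.pq (HD.irr F S) ax ari h4d (r + 1) n' h _ frU₃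
    hok
  have l2 := hlg2 (HD.DD F a (d * s) u S A) Lv.pq (HD.irr F S) ax ird ari h4d (r + 1) n' h _ frU₂
    hok (Fin.last r)
  have l2a' : (∑ᶠ z ∈ {z ∈ tup fun i : Fin (r + 1) => HD.irr F S (n' i) |
      2 ^ K < Nat.card ((HD.DD F a (d * s) u S A).Dk z 1)},
      (Nat.card ((HD.DD F a (d * s) u S A).Dk z 1) : ℝ)) ≤
      ε / 6 * ∏ i, (#(HD.irr F S (n' i)) : ℝ) := by
    refine le_trans ?_ l2a
    refine fn_mono _ _ _ _ (fun z => Nat.cast_nonneg _) fun z hz => ?_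
    exact (Nat.lt_two_pow_self).le.trans hz.le
  have main := hend _ hL (HD.DD F a (d * s) u S A) E3 (C.hfU (D.Qf F)) (SF.Gb F) ax ax2 ax3 htau
    (fun σ τ => h5 F σ τ) (Fin.last r) (fun i => HD.irr F S (n' i)) szc
    (h9 F a (d * s) u S A hy hu hS hA r n' hadm) l1 l2a' l2
  have tr := h22 a d u S A s _ r n h n' frm Lf hLf
  have tpi := (h19 (HD.DD F a (d * s) u S A) Lv.pq (HD.irr F S) ax ari h (r + 1) n' hsm
    hfrn.ge).1
  rw [show (1 : ℝ) - 6 * (ε / 6) = 1 - ε by ring] at main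
  rcases le_or_gt ε 1 with hε1 | hε1
  · refine le_trans ?_ (main.trans (Nat.cast_le.2 tr))
    refine mul_le_mul_of_nonneg_left ?_ (by linarith)
    have h0 : ∏ i, (#(HD.irr F S (n' i)) : ℝ) = ((∏ i, #(irr F (n' i)) : ℕ) : ℝ) := by
      rw [Nat.cast_prod]
      exact Finset.prod_congr rfl fun i _ => by rw [tpi i]
    rw [h0]
    exact Nat.cast_le.2 (fn_tpl n')
  · refine le_trans ?_ (Nat.cast_nonneg _)
    exact mul_nonpos_of_nonpos_of_nonneg (by linarith) (Nat.cast_nonneg _)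

end Pool.Agent.MP72S.Ns
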