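import Pool.Agent.Lib.MP_72e2e6_nt.Sm.NS.Spec

/-!
# MP_72e2e6_nt, `Sm/NS/Num`: the numerical estimates
-/

set_option autoImplicit false

namespace Pool.Agent.MP72S.Ns

open Finset Polynomial

private theorem sum_low (a : ℕ) (ha : 1 ≤ a) (N : ℕ) (hN : 1 ≤ N) :
    Real.log N - Real.log a ≤ ∑ d ∈ Ico a N, 1 / (d : ℝ) := by
  induction N, hN using Nat.le_induction with
  | base =>
    have h1 : 0 ≤ Real.log a := Real.log_nonneg (by exact_mod_cast ha)
    rw [Ico_eq_empty (by omega)]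
    simp only [Nat.cast_one, Real.log_one, sum_empty]
    linarith
  | succ N hN ih =>
    rcases le_or_gt a N with h | h
    · rw [sum_Ico_succ_top h]
      have hN0 : (0 : ℝ) < N := by exact_mod_cast hN
      have h2 : Real.log ((N + 1 : ℕ) : ℝ) - Real.log N ≤ 1 / (N : ℝ) := by
        rw [← Real.log_div (by positivity) (by positivity)]
        have h3 := Real.log_le_sub_one_of_pos (x := ((N + 1 : ℕ) : ℝ) / N) (by positivity)
        have h4 : ((N + 1 : ℕ) : ℝ) / N - 1 = 1 / N := by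
          push_cast
          field_simp
          ring
        linarith
      linarith
    · rw [Ico_eq_empty (by omega), sum_empty]
      have h5 : Real.log ((N + 1 : ℕ) : ℝ) ≤ Real.log a :=
        Real.log_le_log (by positivity) (by exact_mod_cast h)
      linarith

private theorem sum_up (N : ℕ) (hN : 1 ≤ N) :
    ∑ d ∈ Ico 1 (N + 1), 1 / (d : ℝ) ≤ 1 + Real.log N := by
  induction N, hN using Nat.le_induction with
  | base => simp
  | succ N hN ih =>
    rw [sum_Ico_succ_top (by omega)]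
    have hN0 : (0 : ℝ) < N := by exact_mod_cast hN
    have h2 : 1 / ((N + 1 : ℕ) : ℝ) ≤ Real.log ((N + 1 : ℕ) : ℝ) - Real.log N := by
      rw [← Real.log_div (by positivity) (by positivity)]
      have h3 := Real.one_sub_inv_le_log_of_pos (x := ((N + 1 : ℕ) : ℝ) / N) (by positivity)
      have h4 : 1 - (((N + 1 : ℕ) : ℝ) / N)⁻¹ = 1 / ((N + 1 : ℕ) : ℝ) := by
        push_cast
        field_simp
        ring
      linarith
    linarith

theorem tNum : S_Num := by
  intro A hA ε hε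
  have hA0 : (0 : ℝ) < A := by exact_mod_cast hA
  obtain ⟨c, hc0, hc1, hc2⟩ : ∃ c : ℝ, 0 < c ∧ c ≤ 1 / 100 ∧ 4 * c ≤ ε / (64 * A) := by
    refine ⟨min (1 / 100) (ε / (64 * A) / 4), by positivity, min_le_left _ _, ?_⟩
    have := min_le_right (1 / 100 : ℝ) (ε / (64 * A) / 4)
    linarith
  have hlog : ∀ᶠ L : ℕ in Filter.atTop, Real.log L ≤ c * L := by
    have h1 := (Real.isLittleO_log_id_atTop.bound hc0)
    have h2 := tendsto_natCast_atTop_atTop (R := ℝ) |>.eventually h1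
    filter_upwards [h2] with L hL
    have h3 : Real.log L ≤ ‖Real.log L‖ := le_abs_self _
    have h4 : ‖(id (L : ℝ) : ℝ)‖ = L := by simp
    rw [h4] at hL
    linarith
  obtain ⟨L₁, hL₁⟩ := Filter.eventually_atTop.1 hlog
  obtain ⟨L₂, hL₂⟩ := exists_nat_ge (64 * A / ε)
  obtain ⟨L₃, hL₃⟩ := exists_nat_ge (24 / ε)
  refine ⟨2 ^ (L₁ + L₂ + L₃ + 32 * (A + 1)), ?_⟩
  intro n hn L hL σ hσ
  have hn0 : n ≠ 0 := by
    have : 0 < 2 ^ (L₁ + L₂ + L₃ + 32 * (A + 1)) := by positivity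
    omega
  have hLL : L₁ + L₂ + L₃ + 32 * (A + 1) ≤ L := by
    rw [hL]
    exact (Nat.le_log_iff_pow_le (by norm_num) hn0).2 hn
  have h2L : 2 ^ L ≤ n := by
    rw [hL]
    exact Nat.pow_log_le_self 2 hn0
  have h2L' : n < 2 ^ (L + 1) := by
    rw [hL]
    exact Nat.lt_pow_succ_log_self (by norm_num) n
  have hLr : (1 : ℝ) ≤ L := by
    have : 1 ≤ L := by omega
    exact_mod_cast this
  have hL32 : (64 : ℝ) ≤ L := by
    have : 64 ≤ L := by omega
    exact_mod_cast this
  have hlL : Real.log L ≤ c * L := hL₁ L (by omega)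
  have hL2 : 64 * A / ε ≤ L := hL₂.trans (by exact_mod_cast (by omega : L₂ ≤ L))
  have hL3 : 24 / ε ≤ L := hL₃.trans (by exact_mod_cast (by omega : L₃ ≤ L))
  have hL2' : 64 * A ≤ ε * L := by
    rw [div_le_iff₀ hε] at hL2
    linarith
  have hL3' : 24 ≤ ε * L := by
    rw [div_le_iff₀ hε] at hL3
    linarith
  have hlog2 := Real.log_two_gt_d9
  have hlog2' := Real.log_two_lt_d9
  -- the lower bound for sigma
  have hσL : (L : ℝ) / 3 ≤ σ := by
    have h1 := sum_low (L ^ 4) (Nat.one_le_pow _ _ (by omega)) (n / 2 + 1) (by omega)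
    rw [← hσ] at h1
    have h2 : (2 : ℝ) ^ (L - 1) ≤ ((n / 2 + 1 : ℕ) : ℝ) := by
      have h3 : 2 ^ (L - 1) ≤ n / 2 + 1 := by
        have h4 : 2 ^ L = 2 * 2 ^ (L - 1) := by
          rw [← pow_succ', Nat.sub_add_cancel (by omega)]
        omega
      exact_mod_cast h3
    have h5 : ((L : ℝ) - 1) * Real.log 2 ≤ Real.log ((n / 2 + 1 : ℕ) : ℝ) := by
      have h6 := Real.log_le_log (by positivity) h2
      rw [Real.log_pow, Nat.cast_sub (by omega)] at h6
      exact_mod_cast h6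
    have h7 : Real.log ((L ^ 4 : ℕ) : ℝ) = 4 * Real.log L := by
      rw [Nat.cast_pow, Real.log_pow]
      norm_num
    rw [h7] at h1
    have h8 : ((L : ℝ) - 1) * 0.69 ≤ ((L : ℝ) - 1) * Real.log 2 :=
      mul_le_mul_of_nonneg_left (by linarith) (by linarith)
    have h9 : c * L ≤ 1 / 100 * L := mul_le_mul_of_nonneg_right hc1 (by linarith)
    linarith
  refine ⟨by omega, by linarith, ?_, ?_, ?_, ?_, ?_⟩
  · have h1 : ε * (L / 3) ≤ ε * σ := mul_le_mul_of_nonneg_left hσL hε.le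
    linarith
  · have h1 : ((L / 16 : ℕ) : ℝ) ≤ (L : ℝ) / 16 := Nat.cast_div_le
    linarith
  · obtain ⟨M, hM⟩ : ∃ M, L ^ 4 = M + 1 := ⟨L ^ 4 - 1, by
      have : 1 ≤ L ^ 4 := Nat.one_le_pow _ _ (by omega)
      omega⟩
    have hM1 : 1 ≤ M := by
      have : 2 ^ 4 ≤ L ^ 4 := Nat.pow_le_pow_left (by omega) 4
      omega
    rw [hM]
    have h1 := sum_up M hM1
    have h2 : Real.log M ≤ 4 * Real.log L := by
      have h3 : Real.log M ≤ Real.log ((L ^ 4 : ℕ) : ℝ) :=
        Real.log_le_log (by exact_mod_cast hM1) (by exact_mod_cast (by omega : M ≤ L ^ 4))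
      rw [Nat.cast_pow, Real.log_pow] at h3
      exact_mod_cast h3
    have h4 : (L : ℝ) / (32 * A) ≤ ((L / (32 * A) : ℕ) : ℝ) + 1 := by
      have h5 := Nat.lt_floor_add_one ((L : ℝ) / ((32 * A : ℕ) : ℝ))
      rw [Nat.floor_div_eq_div] at h5
      push_cast at h5 ⊢
      linarith
    have h6 : ε * (L / (32 * A)) ≤ ε * (((L / (32 * A) : ℕ) : ℝ) + 1) :=
      mul_le_mul_of_nonneg_left h4 hε.le
    have h7 : 4 * c * L ≤ ε / (64 * A) * L := mul_le_mul_of_nonneg_right hc2 (by linarith)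
    have h8 : 1 ≤ ε / (64 * A) * L := by
      rw [div_mul_eq_mul_div, le_div_iff₀ (by positivity)]
      linarith
    have h9 : ε * (L / (32 * A)) = 2 * (ε / (64 * A) * L) := by
      field_simp
      ring
    linarith
  · have h1 := sum_up n (by omega)
    have h2 : Real.log n ≤ (L + 1) * Real.log 2 := by
      have h3 : (n : ℝ) ≤ 2 ^ (L + 1) := by exact_mod_cast h2L'.le
      have h4 := Real.log_le_log (by exact_mod_cast Nat.pos_of_ne_zero hn0) h3
      rw [Real.log_pow] at h4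
      exact_mod_cast h4
    have h5 : ((L : ℝ) + 1) * Real.log 2 ≤ (L + 1) * 1 :=
      mul_le_mul_of_nonneg_left (by linarith) (by linarith)
    have h6 : 24 * (L : ℝ) ≤ ε * L * L := mul_le_mul_of_nonneg_right hL3' (by linarith)
    nlinarith
  · have h1 : 32 * A * (L / (32 * A)) ≤ L := Nat.mul_div_le _ _
    rw [mul_assoc] at h1
    rw [mul_add]
    omega

end Pool.Agent.MP72S.Ns
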