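import Pool.Agent.Lib.MP_72e2e6_nt.Sm.G.SpecB
import Pool.Agent.Lib.MP_72e2e6_nt.SuStmt

/-!
# MP_72e2e6_nt, `Sm`, block NS (frames and natural density)

`q = Nat.card F`, `B ∈ F[X]`, `B ≠ 0`. `sqf F B n` are the monic squarefree polynomials of degree `n` prime to `B`. Such an `f` is
`s * ∏ z i` with the small part `s` (prime factors of degree less than `h`) and a tuple `z` of different monic irreducible
polynomials of degrees `n' i ≥ h`. Target `S_Dens`: if for all frames `(s, n')` which satisfy the size conditions `FrN` most of the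
tuples are good, then most of the `f` are good. `mon F n`, `irr F n` (monic polynomials, monic irreducible polynomials of
degree `n`) are in `TwSpec.lean` (`mem_mon`), `L = Nat.log 2 n`, `h = L ^ 4`.

Every module proves one of the propositions `S_X` below: file `Sm/NS/X.lean` (import this file only, and the proved files
`MP_72e2e6_nt/Tw*.lean`, `Su*.lean`, `Pe*.lean`, if you want to use their lemmas) with `theorem tX : S_X` or
`theorem tX (h1 : S_Y) (h2 : S_Z) .. : S_X` (the used statements in the order of the docstring; `StmtX` are in the namespace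
`MP72e2e6`, take them with universe `0`: `StmtTwMon.{0}`), namespace `Pool.Agent.MP72S.Ns`, all other declarations
`private`. The complete proofs are in the docstrings.
-/

set_option autoImplicit false

namespace Pool.Agent.MP72S.Ns

open Finset Polynomial MP72e2e6

section

variable (F : Type) [Field F] [Finite F]

open Classical in
/-- The monic squarefree polynomials of degree `n` which are prime to `B`. -/
noncomputable def sqf (B : F[X]) (n : ℕ) : Finset F[X] :=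
  (mon F n).filter fun f => Squarefree f ∧ IsCoprime f B

variable {F}

open Classical in
/-- The number of the monic irreducible divisors with degrees in `[a, b)`. -/
noncomputable def om (a b : ℕ) (f : F[X]) : ℕ := ∑ d ∈ Ico a b, #((irr F d).filter (· ∣ f))

variable (F)

open Classical in
/-- The small parts. -/
noncomputable def Sml (B : F[X]) (h n : ℕ) : Finset F[X] :=
  (range (n + 1)).biUnion fun k => (mon F k).filter fun s =>
    Squarefree s ∧ IsCoprime s B ∧ ∀ P, Irreducible P → P ∣ s → P.natDegree < h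

open Classical in
/-- The degrees of the large primes. -/
noncomputable def Deg (h n k m : ℕ) : Finset (Fin m → ℕ) :=
  (Fintype.piFinset fun _ => Icc h n).filter fun n' => k + ∑ i, n' i = n

open Classical in
/-- The injective tuples with given degrees. -/
noncomputable def tpl {m : ℕ} (n' : Fin m → ℕ) : Finset (Fin m → F[X]) :=
  (Fintype.piFinset fun i => irr F (n' i)).filter Function.Injective

end

/-- The size conditions for a frame: `t` small primes, `r + 1` large primes of degrees `n' i ≥ h`, the last one is the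
largest one; total degree `n`. -/
structure FrN (q A t r n h : ℕ) (n' : Fin (r + 1) → ℕ) : Prop where
  four : 4 ≤ h
  ge : ∀ i, h ≤ n' i
  last : ∀ i, n' i ≤ n' (Fin.last r)
  rat : A * (t + 1) ≤ r + 1
  big : (n ^ 2 * A ^ (t + r + 2)) ^ A ≤ q ^ h
  hug : (n * A ^ ((t + r + 2) ^ A)) ^ A ≤ q ^ n' (Fin.last r)

/-- **Cop** (150 lines, uses `StmtTwMon`). The number of the monic polynomials prime to `B`.

Proof. Let `b = natDegree B` and `B₁ = C c * B` monic, `c ≠ 0`, of degree `b`; `IsCoprime f B ↔ IsCoprime f B₁`. Let `R` be the finite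
set of the polynomials of degree less than `b` (`degreeLT F b`, a finite type; for `b = 0` it is `{0}`). For `n ≥ b` the map
`(r, g) ↦ r + B₁ * g` is a bijection from `R × mon F (n - b)` to `mon F n` (inverse `f ↦ (f %ₘ B₁, f /ₘ B₁)`,
`Polynomial.div_modByMonic_unique`; for `b = 0`: `B₁ = 1`), and `IsCoprime (r + B₁ * g) B₁ ↔ IsCoprime r B₁`
(`IsCoprime.add_mul_right_left_iff` or similar). So `u` is the number of the `r ∈ R` with `IsCoprime r B₁`; it contains
`r = 1` if `b ≥ 1` and `r = 0` if `b = 0`. `#(mon F (n - b)) = q ^ (n - b)` (`StmtTwMon`). -/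
def S_Cop : Prop :=
  ∀ (F : Type) [Field F] [Finite F] (B : F[X]), B ≠ 0 → ∃ u : ℕ, 1 ≤ u ∧ ∀ n, B.natDegree ≤ n →
    {f ∈ (mon F n : Set F[X]) | IsCoprime f B}.ncard = u * Nat.card F ^ (n - B.natDegree)

/-- **Sqf** (250 lines, uses `StmtSuPsi`, `StmtTwMon`, `S_Cop`). There are many squarefree polynomials.

Proof. Let `b`, `u` be as in `S_Cop`. Let `f ∈ mon F n` be prime to `B` and not squarefree; there is a monic irreducible `P` with
`P ^ 2 ∣ f`, so `f = P ^ 2 g`, `g ∈ mon F (n - 2 d)`, `d = natDegree P`, `1 ≤ d`, `2 d ≤ n`, `g` prime to `B`. So the number of these `f` is at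
most `∑_{1 ≤ d, 2 d ≤ n} #(irr F d) * #{g ∈ mon F (n - 2 d) | IsCoprime g B}`. For `n - 2 d ≥ b` the last factor is
`u q ^ (n - 2 d - b)`, and `#(irr F d) ≤ q ^ d / d ≤ q ^ d` (last claim of `StmtSuPsi`), so these `d` contribute at most
`u q ^ (n - b) ∑_{d ≥ 1} q ^ (-d) ≤ u q ^ (n - b) / (q - 1) ≤ u q ^ (n - b) / 2`. For `n - 2 d < b` we bound the number of the
`g` by `q ^ (n - 2 d)` (`StmtTwMon`): the contribution is at most `∑_{d > (n - b) / 2} q ^ (n - d) ≤ 2 q ^ (n - (n - b) / 2)` (natural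
number division), which is at most `q ^ (n - b) / 4` for large `n`. So `#(sqf F B n) ≥ (u - u / 2 - 1 / 4) q ^ (n - b) ≥
q ^ (n - b) / 4`, `c = q ^ (-b) / 4`. -/
def S_Sqf : Prop :=
  ∀ (F : Type) [Field F] [Finite F], 3 ≤ Nat.card F → ∀ B : F[X], B ≠ 0 → ∃ c : ℝ, 0 < c ∧
    ∃ n₀ : ℕ, ∀ n, n₀ ≤ n → c * (Nat.card F : ℝ) ^ n ≤ #(sqf F B n)

/-- **Fm** (100 lines, uses `StmtSuPsi`, `StmtTwMon`). The first moment.

Proof. Exchange the sums: `∑_{d ∈ Ico a b} ∑_{P ∈ irr F d} #{f ∈ mon F n | P ∣ f}`. By `StmtTwMon` (for the function `1`) the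
number of the multiples of `P ∈ mon F d` in `mon F n` is `#(mon F (n - d)) = q ^ (n - d)` if `d ≤ n` and zero if `d > n`. And
`d #(irr F d) ≤ q ^ d` (`StmtSuPsi`), `q ^ d q ^ (n - d) = q ^ n`. -/
def S_Fm : Prop :=
  ∀ (F : Type) [Field F] [Finite F] (a b n : ℕ), 1 ≤ a →
    ∑ f ∈ mon F n, (om a b f : ℝ) ≤ (Nat.card F : ℝ) ^ n * ∑ d ∈ Ico a b, 1 / (d : ℝ)

/-- **Vr** (250 lines, uses `StmtTwMon`). The variance.

Proof. Let `I` be the finite set of the monic irreducible `P` with degree in `[a, b)`, `om a b f = ∑_{P ∈ I} [P ∣ f]`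
(the sets `irr F d` are disjoint), `μ = ∑_{P ∈ I} q ^ (- deg P)`. By `StmtTwMon` the number of the multiples of `g ∈ mon F k` in
`mon F n`, `k ≤ n`, is `q ^ (n - k)`. So `∑_f om = μ q ^ n` (`deg P ≤ n`), and
`∑_f om ^ 2 = ∑_{P, Q ∈ I} #{f | P ∣ f ∧ Q ∣ f}`; for `P = Q` the term is `q ^ n q ^ (- deg P)`, for `P ≠ Q` the polynomials are coprime,
`P ∣ f ∧ Q ∣ f ↔ P * Q ∣ f`, `deg P + deg Q ≤ n` (`2 d ≤ n` for `d < b`), and the term is `q ^ n q ^ (- deg P) q ^ (- deg Q)`. So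
`∑_f om ^ 2 ≤ q ^ n (μ + μ ^ 2)` and `∑_f (om - μ) ^ 2 ≤ q ^ n (μ + μ ^ 2 - 2 μ ^ 2 + μ ^ 2) = q ^ n μ` (`#(mon F n) = q ^ n`). -/
def S_Vr : Prop :=
  ∀ (F : Type) [Field F] [Finite F] (a b n : ℕ) (μ : ℝ), 1 ≤ a → 2 * b ≤ n + 2 →
    μ = ∑ d ∈ Ico a b, (#(irr F d) : ℝ) / (Nat.card F : ℝ) ^ d →
    ∑ f ∈ mon F n, ((om a b f : ℝ) - μ) ^ 2 ≤ (Nat.card F : ℝ) ^ n * μ

/-- **Chb** (120 lines, uses `Lv.S_Nir`, `S_Vr`). Few polynomials have few prime divisors.

Proof. Let `μ` be as in `S_Vr`; `μ ≥ σ / 2` with `σ = ∑_{d ∈ Ico a b} 1 / d`, since `q ^ d ≤ 2 d #(irr F d)` for `d ≥ 4` (`Lv.S_Nir`). If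
`om a b f ≤ σ / 4` then `μ - om a b f ≥ μ / 2`; so by `S_Vr` the number of these `f` times `μ ^ 2 / 4` is at most `q ^ n μ`, and the
number is at most `4 q ^ n / μ ≤ 8 q ^ n / σ`. -/
def S_Chb : Prop :=
  ∀ (F : Type) [Field F] [Finite F] (a b n : ℕ) (σ : ℝ), 4 ≤ a → 2 * b ≤ n + 2 →
    σ = ∑ d ∈ Ico a b, 1 / (d : ℝ) → 0 < σ →
    ({f ∈ (mon F n : Set F[X]) | (om a b f : ℝ) ≤ σ / 4}.ncard : ℝ) ≤
      8 * (Nat.card F : ℝ) ^ n / σ

/-- **Num** (250 lines). The numerical estimates, `L = Nat.log 2 n`.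

Proof. `2 ^ L ≤ n < 2 ^ (L + 1)`, `L → ∞`. `∑_{d ∈ Ico 1 N} 1 / d ≤ 1 + log N` (`harmonic_le_one_add_log` or by dyadic blocks) and
`∑_{d ∈ Ico a N} 1 / d ≥ log (N / a)` for `1 ≤ a ≤ N` (`1 / d ≥ log ((d + 1) / d)`, telescoping). With `log 2 > 0.69`:
`σ ≥ log ((n / 2) / L ^ 4) ≥ (L - 1) log 2 - 4 log L ≥ L / 3` for large `L` (here `n / 2 + 1 ≥ n / 2` as a real number), so (1) `8 ≤ ε σ`
and (2) `L / 16 < σ / 4`. (3) The sum is at most `1 + 4 log L`, and `L / (32 A) + 1` (natural number division) is at least the real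
number `L / (32 A)`; `(1 + 4 log L) / L → 0`. (4) The sum is at most `1 + log (n + 1) ≤ L + 2`, and `(L + 2) / L ^ 2 → 0`. (5)
`A * (L / (32 * A) + 1) ≤ L / 32 + A`, and this is at most `L / 16` (natural number division) if `L ≥ 32 (A + 1)`. -/
def S_Num : Prop :=
  ∀ A : ℕ, 1 ≤ A → ∀ ε : ℝ, 0 < ε → ∃ n₀ : ℕ, ∀ n, n₀ ≤ n → ∀ L : ℕ, L = Nat.log 2 n →
    ∀ σ : ℝ, σ = ∑ d ∈ Ico (L ^ 4) (n / 2 + 1), 1 / (d : ℝ) →
    4 ≤ L ∧ 0 < σ ∧ 8 ≤ ε * σ ∧ ((L / 16 : ℕ) : ℝ) < σ / 4 ∧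
    (∑ d ∈ Ico 1 (L ^ 4), 1 / (d : ℝ)) ≤ ε * (((L / (32 * A) : ℕ) : ℝ) + 1) ∧
    (∑ d ∈ Ico 1 (n + 1), 1 / (d : ℝ)) ≤ ε * ((L : ℝ) ^ 2 + 1) ∧
    A * (L / (32 * A) + 1) ≤ L / 16

/-- **Few** (150 lines, uses `S_Fm`, `S_Chb`, `S_Num`). Most polynomials have many large and few small prime divisors.

Proof. Apply `S_Num` with `ε / 3`; `σ` as there, `h = L ^ 4 ≥ 4`. The `f` with `om h (n + 1) f < L / 16` satisfy `om h (n / 2 + 1) f ≤
om h (n + 1) f < L / 16 ≤ σ / 4` (as real numbers; `om` is monotone in the interval), so by `S_Chb` (`2 (n / 2 + 1) ≤ n + 2`) their number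
is at most `8 q ^ n / σ ≤ (ε / 3) q ^ n`. The `f` with `om 1 h f ≥ L / (32 A) + 1` (natural number division): by `S_Fm` and Markov's
inequality at most `q ^ n (∑_{d < h} 1 / d) / (L / (32 A) + 1) ≤ (ε / 3) q ^ n`. The `f` with `om 1 (n + 1) f ≥ L ^ 2 + 1`: in the same way
at most `(ε / 3) q ^ n`. -/
def S_Few : Prop :=
  ∀ (F : Type) [Field F] [Finite F] (A : ℕ), 1 ≤ A → ∀ ε : ℝ, 0 < ε → ∃ n₀ : ℕ, ∀ n, n₀ ≤ n →
    ∀ L : ℕ, L = Nat.log 2 n →
    ({f ∈ (mon F n : Set F[X]) | ¬ (L / 16 ≤ om (L ^ 4) (n + 1) f ∧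
      om 1 (L ^ 4) f ≤ L / (32 * A) ∧ om 1 (n + 1) f ≤ L ^ 2)}.ncard : ℝ) ≤
      ε * (Nat.card F : ℝ) ^ n

/-- **Sdg** (80 lines). The degree of the small part.

Proof. `s` is monic and squarefree, so it is the product of the different monic irreducible polynomials `P` dividing it; they
have degrees in `[1, h)` and their number is `om 1 h s` (they are the elements of the disjoint sets
`(irr F d).filter (· ∣ s)`, `d ∈ Ico 1 h`). So `natDegree s = ∑ natDegree P ≤ om 1 h s * h`. -/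
def S_Sdg : Prop :=
  ∀ (F : Type) [Field F] [Finite F] (s : F[X]) (h : ℕ), s.Monic → Squarefree s →
    (∀ P, Irreducible P → P ∣ s → P.natDegree < h) → s.natDegree ≤ om 1 h s * h

/-- **Cnd** (200 lines). The size conditions hold for large `n`.

Proof. `2 ^ L ≤ n < 2 ^ (L + 1)`, `L → ∞`, `q ≥ 2`, `A ≤ 2 ^ A`, `t + r + 2 ≤ L ^ 2 + 1`. `rat`: `A (t + 1) ≤ A (L / (32 A) + 1) ≤ L / 16 ≤ r + 1`
if `L ≥ 32 (A + 1)`. `big`: the left side is at most `2 ^ (A (2 (L + 1)) + A * A * (L ^ 2 + 1)) ≤ 2 ^ (L ^ 4)` for large `L`. `hug`: the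
left side is at most `2 ^ E`, `E = A (L + 1) + A * A * (L ^ 2 + 1) ^ A`. `n = k + ∑ n' i ≤ L ^ 6 + (r + 1) n' (last) ≤
L ^ 6 + L ^ 2 n' (last)` (`k ≤ t h ≤ L ^ 2 L ^ 4`), so `L ^ 2 n' (last) ≥ 2 ^ L - L ^ 6 ≥ L ^ 2 E` for large `L` (an exponential
function is larger than a polynomial: `tendsto_pow_const_div_const_pow_of_one_lt` or similar). -/
def S_Cnd : Prop :=
  ∀ q A : ℕ, 2 ≤ q → 1 ≤ A → ∃ n₀ : ℕ, ∀ n, n₀ ≤ n → ∀ L : ℕ, L = Nat.log 2 n →
    ∀ (t r k : ℕ) (n' : Fin (r + 1) → ℕ), t ≤ L / (32 * A) → L / 16 ≤ r + 1 →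
    t + (r + 1) ≤ L ^ 2 → k ≤ t * L ^ 4 → k + ∑ i, n' i = n → (∀ i, L ^ 4 ≤ n' i) →
    (∀ i, n' i ≤ n' (Fin.last r)) → FrN q A t r n (L ^ 4) n'

/-- **Fib** (300 lines). The number of the frames and tuples of a polynomial.

Proof. For `f ∈ sqf F B n` let `Λ(f)` be the set of its monic irreducible divisors of degree `≥ h` (the union of the disjoint sets
`(irr F d).filter (· ∣ f)`, `d ∈ Ico h (n + 1)`; it has `om h (n + 1) f` elements) and `s(f)` the product of its monic irreducible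
divisors of degree `< h`; `f = s(f) * ∏_{P ∈ Λ(f)} P` (a monic squarefree polynomial is the product of its monic irreducible
divisors), and `s(f) ∈ Sml F B h n`. Consider the triples `(s, n', z)` with `s ∈ Sml F B h n`, `n' ∈ Deg h n (natDegree s) m`,
`z ∈ tpl F n'`, and the map `(s, n', z) ↦ s * ∏ z i`. Its values are in `sqf F B n` and have `om h (n + 1) = m`, `om 1 h = om 1 h s`:
`s` and the `z i` are pairwise coprime (the `z i` are different, irreducible, monic, of degree `≥ h`, and the irreducible divisors of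
`s` have degree `< h`), so the product is squarefree; `z i` is prime to `B` because `natDegree (z i) ≥ h > natDegree B` and
`B ≠ 0`; the monic irreducible divisors are those of `s` and the `z i`. The fibre over an `f` with `om h (n + 1) f = m`: the triples
with `s = s(f)`, `z` an injective map from `Fin m` to `Λ(f)` (so a bijection), `n' i = natDegree (z i)`: it has `m !` elements
(`Fintype.card_embedding_eq`, `Nat.descFactorial_self`). So the right side is `∑_f m ! * g f`. -/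
def S_Fib : Prop :=
  ∀ (F : Type) [Field F] [Finite F] (B : F[X]) (h n m : ℕ), B ≠ 0 → B.natDegree < h →
    (∀ s ∈ Sml F B h n, ∀ n' ∈ Deg h n s.natDegree m, ∀ z ∈ tpl F n',
      s * ∏ i, z i ∈ sqf F B n ∧ om h (n + 1) (s * ∏ i, z i) = m ∧
        om 1 h (s * ∏ i, z i) = om 1 h s) ∧
    ∀ g : F[X] → ℝ, (m.factorial : ℝ) *
        ∑ f ∈ (sqf F B n).filter (fun f => om h (n + 1) f = m), g f =
      ∑ s ∈ Sml F B h n, ∑ n' ∈ Deg h n s.natDegree m, ∑ z ∈ tpl F n', g (s * ∏ i, z i)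

/-- **Srt** (80 lines). Any index may be moved to the last place.

Proof. Let `σ` be the transposition of `b` and `Fin.last r`. `z ↦ z ∘ σ` is a bijection from `tpl F n'` to `tpl F (n' ∘ σ)`, and
`∏ i, z (σ i) = ∏ i, z i` (`Equiv.prod_comp`), `∑ i, n' (σ i) = ∑ i, n' i`. Take for `b` an index with the largest `n' b`. -/
def S_Srt : Prop :=
  ∀ (F : Type) [Field F] [Finite F] (r : ℕ) (n' : Fin (r + 1) → ℕ),
    ∃ n'' : Fin (r + 1) → ℕ, (∀ i, n'' i ≤ n'' (Fin.last r)) ∧ ∑ i, n'' i = ∑ i, n' i ∧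
      (∀ k, (∀ i, k ≤ n' i) → ∀ i, k ≤ n'' i) ∧ #(tpl F n'') = #(tpl F n') ∧
      ∀ p : F[X] → Prop, {z ∈ (tpl F n'' : Set (Fin (r + 1) → F[X])) | p (∏ i, z i)}.ncard =
        {z ∈ (tpl F n' : Set (Fin (r + 1) → F[X])) | p (∏ i, z i)}.ncard

/-- **Dens** (250 lines, uses `S_Sqf`, `S_Few`, `S_Sdg`, `S_Cnd`, `S_Fib`, `S_Srt`). NATURAL DENSITY.

Proof. We may suppose `ε ≤ 1`. `c`, `n₁` from `S_Sqf`. The hypothesis for `ε / 2` gives `A`; the conditions `FrN` for `max A 1` imply those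
for `A` (monotone in `A`: `n ≥ 1`), so let `A ≥ 1`. Let `n` be larger than `n₁`, the `n₀` of `S_Few` for `A` and `ε c / 2`, the one of `S_Cnd`, and
so large that `natDegree B < L ^ 4`, `L = Nat.log 2 n`, and `L / 16 ≥ 1`; let `par n`. `h = L ^ 4`, `T₀ = L / (32 A)`. For
`1 ≤ m = r + 1` with `L / 16 ≤ m ≤ L ^ 2` let `E_m` be the set of the `f ∈ sqf F B n` with `om h (n + 1) f = m`, `om 1 h f ≤ T₀`,
`om 1 h f + m ≤ L ^ 2`. By `S_Fib` for the indicator functions `g₁` of `om 1 h f ≤ T₀ ∧ om 1 h f + m ≤ L ^ 2` and `g₂ = g₁ * [good]`: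
`m ! #E_m` is the sum of `#(tpl F n')` over the `(s, n')` with `om 1 h s ≤ T₀`, `om 1 h s + m ≤ L ^ 2` (the other frames contribute
zero), and `m ! #{f ∈ E_m | good f}` is the sum of the numbers of the good tuples. For these frames let `n''` be from `S_Srt`; by
`S_Cnd` (`k = natDegree s ≤ om 1 h s * h` by `S_Sdg`) `FrN` holds for `n''`, and the hypothesis (with `p x = good (s * x)`) says that at
least `(1 - ε / 2) #(tpl F n')` tuples are good. So `#{f ∈ E_m | good f} ≥ (1 - ε / 2) #E_m`. The `E_m` are disjoint, and every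
`f ∈ sqf F B n` outside of their union is in the exceptional set of `S_Few` (`om 1 (n + 1) f = om 1 h f + om h (n + 1) f`, as
`1 ≤ h ≤ n + 1` for large `n`), which has at most `(ε c / 2) q ^ n ≤ (ε / 2) #(sqf F B n)` elements. So the number of the good `f` is at
least `(1 - ε / 2) (1 - ε / 2) #(sqf F B n) ≥ (1 - ε) #(sqf F B n)`. -/
def S_Dens : Prop :=
  ∀ (F : Type) [Field F] [Finite F], 3 ≤ Nat.card F → ∀ B : F[X], B ≠ 0 →
    ∀ (good : F[X] → Prop) (par : ℕ → Prop),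
    (∀ ε : ℝ, 0 < ε → ∃ A : ℕ, ∀ n h : ℕ, B.natDegree < h → par n → ∀ s ∈ Sml F B h n,
      ∀ (r : ℕ) (n' : Fin (r + 1) → ℕ), s.natDegree + ∑ i, n' i = n →
      FrN (Nat.card F) A (om 1 h s) r n h n' →
      (1 - ε) * (#(tpl F n') : ℝ) ≤
        ({z ∈ (tpl F n' : Set (Fin (r + 1) → F[X])) | good (s * ∏ i, z i)}.ncard : ℝ)) →
    ∀ ε : ℝ, 0 < ε → ∃ n₀ : ℕ, ∀ n, n₀ ≤ n → par n →
      (1 - ε) * (#(sqf F B n) : ℝ) ≤ ({f ∈ (sqf F B n : Set F[X]) | good f}.ncard : ℝ)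

end Pool.Agent.MP72S.Ns
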