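import Pool.Agent.Lib.MP_72e2e6_nt.Sm.NS.SpecT
import Pool.Agent.Lib.MP_72e2e6_nt.Sm.NG.Spec
import Pool.Agent.Lib.MP_72e2e6_nt.Sm.N.SpecD
import Pool.Agent.Lib.MP_72e2e6_nt.Sm.X.Spec

/-!
# MP_72e2e6_nt, `Sm`, block NS, part H: most tuples of every frame are good

Modules as in `Sm/NS/Spec.lean` (file `Sm/NS/X.lean`, import this file, `theorem tX (h1 : ..) .. : S_X`, namespace
`Pool.Agent.MP72S.Ns`). The target `S_FrmN` is in `Sm/NS/SpecT.lean`. The uniform main theorem `S_VEnd` (`Sm/N/SpecD.lean`) is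
applied to the datum `HD.DD F a (d * s) u S A` (`Sm/H/Dat.lean`; the fixed factor `d * s` contains the small primes), to
`irr i = HD.irr F S (n' i)` and `b = Fin.last r`. The degree of the place `v` is `(Lv.pq v).natDegree` (`Sm/G/SpecD.lean`, `pq none = 1`).
-/

set_option autoImplicit false

namespace Pool.Agent.MP72S.Ns

open Finset Polynomial MP72e2e6 MP72T

/-- A frame with all its data (with the parameter `A'` in the size conditions). -/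
structure Frm {F : Type} [Field F] [Finite F] (a : Fin 3 → F[X]) (d : F[X]) (u : F)
    (S : Finset (D.Pl F)) (A : D.Pl F → D.Lcd F) (s : F[X]) (A' r n h : ℕ)
    (n' : Fin (r + 1) → ℕ) : Prop where
  cur : Cur a
  dm : d ∈ tm0 a
  nu : ¬ ∃ b, b ^ 2 = u
  sok : HD.Sok a (d * s) S
  ld : D.LDok F A
  dlt : (Dlt a).natDegree < h
  odd : Odd (d.natDegree + n + mxd a)
  sml : s ∈ Sml F (Dlt a) h n
  tot : s.natDegree + ∑ i, n' i = n
  frn : FrN (Nat.card F) A' (om 1 h s) r n h n'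

/-- **Nm2** (200 lines). The numerical estimates. `x = t + r + 2`, `L = B * x`.

Proof. `x ≥ 2`, `n ≥ 1`. Let `A₂` be the maximum (or the sum) of `2`, `2 * 16 ^ B`, `E + C₀ + 2 * B ^ E`, `C₀`, `A₁ * (D₀ + 1)`,
`(D₀ + 1) ^ 2 * A₁ ^ D₀ * A₁`. (1) `2 ^ (4 B x) * (2 n) ≤ (2 * 16 ^ B) ^ x * n ^ 2 ≤ n ^ 2 * A ^ x`, which is at least `1`, so it is at most its
`A`-th power (`FrN.big`). (2) Let `y = (B x) ^ E`. `1 + y n ≤ n (1 + y) ≤ n 2 ^ y`, `C₀ ≤ 2 ^ C₀`, so the base is at most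
`n * 2 ^ (C₀ + 2 y)`, and `C₀ + 2 y ≤ (C₀ + 2 B ^ E) x ^ E ≤ 2 ^ (A - E) x ^ E ≤ x ^ A` (`k ≤ 2 ^ k`), so it is at most
`n * 2 ^ (x ^ A) ≤ n * A ^ (x ^ A)`; the exponent: `C₀ ≤ A` (base `≥ 1`; if `C₀ = 0` the left side is `1`, and the right side is a
power of `q ≥ 2`). `FrN.hug`. (3) `A₁ (t + D₀ + 1) ≤ A₁ (D₀ + 1) (t + 1) ≤ A (t + 1) ≤ r + 1` (`FrN.rat`). (4) `n + D₀ ≤ n (D₀ + 1)`, so the
inner term is at most `n ^ 2 * ((D₀ + 1) ^ 2 * A₁ ^ D₀) * A₁ ^ x ≤ n ^ 2 * A ^ x`; if `A₁ = 0` it is `0`. `2 ≤ A`, `FrN.big`. -/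
def S_Nm2 : Prop :=
  ∀ E B C₀ A₁ D₀ : ℕ, ∃ A₂ : ℕ, ∀ A, A₂ ≤ A → ∀ (q t r n h : ℕ) (n' : Fin (r + 1) → ℕ), 2 ≤ q →
    1 ≤ n → FrN q A t r n h n' →
    2 ^ (4 * (B * (t + r + 2))) * (2 * n) ≤ q ^ h ∧
    (C₀ * (2 ^ (B * (t + r + 2)) ^ E * (1 + (B * (t + r + 2)) ^ E * n))) ^ C₀ ≤
      q ^ n' (Fin.last r) ∧
    A₁ * (t + D₀ + 1) ≤ r + 1 ∧
    ((n + D₀) ^ 2 * A₁ ^ (t + D₀ + r + 2)) ^ 2 ≤ q ^ h

/-- **Hya** (80 lines, uses `S_Dcp`). The hypotheses of the main theorem for the fixed factor `d * s`.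

Proof. Let `k` be the index with `s ∈ mon F k` (`Sml`), so `s` is monic, `natDegree s = k`, and `s ∈ sqf F (Dlt a) k`. `d * s` is tame
(`S_Dcp` (2), from right to left), in particular `d * s` is squarefree (so `d ≠ 0`) of degree `natDegree d + natDegree s`. `HD.Hy`: the
fields of `Cur` and `Tam` (as `hyp_of` in `Sm/Out.lean`). `HD.mxd a = mxd a`: private `mxd_eq` in `Sm/Out.lean`; copy it. -/
def S_Hya : Prop :=
  ∀ {F : Type} [Field F] [Finite F] (a : Fin 3 → F[X]) (d s : F[X]) (h n : ℕ), Cur a →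
    d ∈ tm0 a → s ∈ Sml F (Dlt a) h n → HD.Hy a (d * s) ∧
    (d * s).natDegree = d.natDegree + s.natDegree ∧ HD.mxd a = mxd a

/-- **Hyt** (150 lines, uses `S_Hya`). The datum of a frame.

Proof. (1) `S_Hya`. (2) `HD.Adm`: `natDegree (d s) + ∑ n' i = natDegree d + n`. (3) Let `v ∈ S`. `v = none`: `pq none = 1`. `v = some P`, `P` divides
`d s Dlt a` (`Sok`, `bad`). If `P ∣ d` then `P ∣ Dlt a` (`tm0`). If `P ∣ Dlt a` (`≠ 0`, `a` is injective) then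
`natDegree P ≤ natDegree (Dlt a) < h`, and if `P ∣ s` then `natDegree P < h` (`Sml`). (4), (5), (6): the finite places in `S` are the `some P`, `P` monic
irreducible and `P ∣ s` or `P ∣ Dlt a`. The number of the monic irreducible divisors of `s` is `om 1 h s` (they have degree `≥ 1` and `< h`;
definition of `om`, disjoint union over the degrees; see `Sm/NS/Sdg.lean`) and the sum of their degrees is at most `natDegree s` (their
product divides `s`). The number of the monic irreducible divisors of `Dlt a` and the sum of their degrees are at most `natDegree (Dlt a)`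
(their product divides `Dlt a ≠ 0`, the degrees are `≥ 1`; `normalizedFactors`, or `Finset.prod_dvd_of_coprime`). -/
def S_Hyt : Prop :=
  ∀ {F : Type} [Field F] [Finite F] (a : Fin 3 → F[X]) (d : F[X]) (u : F) (S : Finset (D.Pl F))
    (A : D.Pl F → D.Lcd F) (s : F[X]) (A' r n h : ℕ) (n' : Fin (r + 1) → ℕ),
    Frm a d u S A s A' r n h n' →
    HD.Hy a (d * s) ∧ HD.Adm a (d * s) r n' ∧ (∀ v ∈ S, (Lv.pq v).natDegree < h) ∧
    #S ≤ om 1 h s + (Dlt a).natDegree + 1 ∧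
    Fintype.card (Lv.TT (HD.DD F a (d * s) u S A)) ≤ om 1 h s + (Dlt a).natDegree ∧
    ∑ v : Lv.TT (HD.DD F a (d * s) u S A), (Lv.pq v.1).natDegree ≤
      s.natDegree + (Dlt a).natDegree

/-- **Tpl** (150 lines). Tuples of places and tuples of polynomials.

Proof. `D.inf ∈ D.S` (`Ax.infS`). For `k ≥ h` `pi` is a bijection from `Irr k` to `irr F k`: if `v ∈ Irr k` then `v ∉ D.S`, so `v ≠ D.inf`, `pi v` is monic
and irreducible (`Arith.mi`) of degree `k` (`Arith.irr`); it is injective (`Arith.inj`) and surjective: a monic irreducible `Q` of degree `k` is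
`pi v`, `v ≠ D.inf` (`Arith.sur`), and `v ∉ D.S` since the degrees of the `pi v`, `v ∈ D.S`, are less than `h ≤ k`. So `z ↦ (fun i => pi (z i))` is a
bijection from `tup` to `tpl F n'` (`Function.Injective z ↔ Function.Injective (pi ∘ z)`). `Set.ncard_congr` or `Set.ncard_image_of_injOn`. See
`Sm/NG/EqzE.lean` or `Sm/G/Eqz.lean` for similar lemmas. -/
def S_Tpl : Prop :=
  ∀ {G N P F : Type} [Group G] [TopologicalSpace G] [AddCommGroup N] [DistribMulAction G N]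
    [Field F] [Finite F] (D : Dat G N P) (pi : P → F[X]) (Irr : ℕ → Finset P), Ax D →
    Lv.Arith D pi Irr → ∀ (h m : ℕ) (n' : Fin m → ℕ), (∀ v ∈ D.S, (pi v).natDegree < h) →
    (∀ i, h ≤ n' i) → (∀ i, #(Irr (n' i)) = #(irr F (n' i))) ∧
    ∀ p : (Fin m → F[X]) → Prop, {z ∈ tup fun i => Irr (n' i) | p fun i => pi (z i)}.ncard =
      {z ∈ (tpl F n' : Set (Fin m → F[X])) | p z}.ncard

/-- **FrU** (120 lines, uses `S_Nm2`, `S_Hyt`). The size conditions of block NG.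

Proof. `S_Nm2` for `D₀ = natDegree (Dlt a)` (and `E = B = C₀ = 0`); `q ≥ 2`, `n ≥ n' 0 ≥ h ≥ 4`. `t = om 1 h s`, `card (TT) ≤ t + D₀`, `∑_v ≤ natDegree s + D₀`, so
`tot` holds for `X = n + D₀`. `rat`: `A₁ (card (TT) + 1) ≤ A₁ (t + D₀ + 1) ≤ r + 1`. `big`: the exponent is at most `t + D₀ + r + 2` (monotone in the
exponent for `A₁ ≥ 1`; for `A₁ = 0` the left side is `0`). -/
def S_FrU : Prop :=
  ∀ {F : Type} [Field F] [Finite F] (a : Fin 3 → F[X]) (A₁ : ℕ), ∃ A₂ : ℕ, ∀ (d : F[X]) (u : F)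
    (S : Finset (D.Pl F)) (A : D.Pl F → D.Lcd F) (s : F[X]) (A' r n h : ℕ)
    (n' : Fin (r + 1) → ℕ), A₂ ≤ A' → Frm a d u S A s A' r n h n' →
    LvU.FrU (HD.DD F a (d * s) u S A) Lv.pq A₁ (r + 1) n' h (n + (Dlt a).natDegree)

/-- **SzN** (250 lines, uses `SF.S_SplI`, `HD.S_Ax`, `HD.S_Okt`, `HD.S_Irf`, `Lv.S_Ari`, `Lv.S_Nir`, `S_Nm2`, `S_Hyt`, `S_Tpl`). The size conditions
of block N, `L = B * (t + r + 2)`.

Proof. `(2 : F) ≠ 0` as `q % 4 = 1` (see `lv_two` in `Sm/H/Lv.lean`). Let `C₀` be from `SF.S_SplI` for `F`, `A`. `A₂` from `S_Nm2` for `E`, `B`, `C₀`. Let `D =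
HD.DD F a (d * s) u S A`, `t = om 1 h s`, `D₀ = natDegree (Dlt a)`. `card`: `3 (#S + r + 1) + 70 ≤ 3 (t + D₀ + r + 2) + 70 ≤ B (t + r + 2)`. `big`:
`#(irr (n' i)) = #(MP72e2e6.irr F (n' i))` by `S_Tpl` (1) (`S_Ari`, `S_Ax`, `S_Hyt`), `q ^ n' i ≤ 2 (n' i) #..` (`Lv.S_Nir` (1)), `n' i ≤ n`,
`q ^ h ≤ q ^ n' i`, and `S_Nm2` (1). `ok`: `HD.S_Okt`. `nS`: `HD.S_Irf`. `few`: let `H` be normal and open of index `≤ 2 ^ L ^ E`, unramified outside `A₀`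
(the set in `Szc.few`), `#A₀ ≤ L ^ E`. For `w ∈ A₀` `dgP w.o ≤ n`: `w = none`: `dgP none = 1 ≤ n`; `w ∈ S`: degree `< h ≤ n`; `w ∈ irr (n' i)`:
degree `n' i ≤ n` (`dgP (some P).o = natDegree P`). So the hypothesis of `S_SplI` for `n' (Fin.last r)` follows from `S_Nm2` (2) (monotone in
`H.index` and in the sum). `irr F S (n' last) = Irs F (n' last)`: no place in `S` has the degree `n' last ≥ h` (`S_Hyt`, `HD.S_Irf`). See the
proof of `spl` in `Sm/H/Lv.lean`. -/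
def S_SzN : Prop :=
  ∀ {F : Type} [Field F] [Finite F] (a : Fin 3 → F[X]) (A : D.Pl F → D.Lcd F),
    Nat.card F % 4 = 1 → D.LDok F A → ∀ E B : ℕ, 3 * (Dlt a).natDegree + 73 ≤ B → ∃ A₂ : ℕ,
    ∀ (d : F[X]) (u : F) (S : Finset (D.Pl F)) (s : F[X]) (A' r n h : ℕ)
    (n' : Fin (r + 1) → ℕ), A₂ ≤ A' → Frm a d u S A s A' r n h n' →
    (HD.DD F a (d * s) u S A).Szc (SF.Gb F) E (B * (om 1 h s + r + 2)) (Fin.last r)
      fun i => HD.irr F S (n' i)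

/-- **TrN** (150 lines, uses `HD.S_Ax`, `HD.S_Cnc`, `HD.S_Irf`, `Lv.S_Ari`, `S_Hyt`, `S_Tpl`). From `Dk z Lf = T` to the twists.

Proof. Let `z ∈ tup` with `Dk z Lf = T`. `z i = some (R i)` (`z i ∈ irr F S (n' i)`, `HD.S_Irf`, `SF.Irs`), `Lv.pq (z i) = R i`. By `HD.S_Cnc` (for `d * s`) the curve
`C.Wa (fun i => algebraMap ((d * s * ∏ k, R k) * a i))` has finitely many points and `ShaTwoFin`. It is `twd a (d * (s * ∏ R i))` (`mul_assoc`; `crv` and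
`C.Wa` are the same, see `Sm/Out.lean`) and `MP72Y.shaTwoFin_of` gives the second claim (as in `Sm/Out.lean`). So the set on the left is
contained in `{z ∈ tup | p (fun i => pq (z i))}` with `p R` the predicate on the right, which is finite (`tup` is finite), and `S_Tpl` (2). -/
def S_TrN : Prop :=
  ∀ {F : Type} [Field F] [Finite F] (a : Fin 3 → F[X]) (d : F[X]) (u : F) (S : Finset (D.Pl F))
    (A : D.Pl F → D.Lcd F) (s : F[X]) (A' r n h : ℕ) (n' : Fin (r + 1) → ℕ),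
    Frm a d u S A s A' r n h n' → ∀ Lf : ℕ, 1 ≤ Lf →
    {z ∈ tup fun i => HD.irr F S (n' i) | (HD.DD F a (d * s) u S A).Dk z Lf =
        (HD.DD F a (d * s) u S A).T (Fin (r + 1))}.ncard ≤
      {z ∈ (tpl F n' : Set (Fin (r + 1) → F[X])) |
        Finite (twd a (d * (s * ∏ i, z i))).toAffine.Point ∧
          MP72Y.ShaTwoFin (twd a (d * (s * ∏ i, z i))) (SeparableClosure (RatFunc F))}.ncard

/-- **FrmN** (200 lines, uses `D.S_Lo`, `D.S_Rq`, `D.S_Kk`, `HD.S_Irf`, `HD.S_Cm`, `HD.S_Ax`, `HD.S_Ax3`, `HD.S_Okt`, `HD.S_G3`, `Lv.S_Irc`, `Lv.S_Tmc`,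
`Lv.S_Ari`, `LvU.S_Lg1U`, `LvU.S_Lg2aU`, `LvU.S_Lg2U`, `S_VEnd`, `S_Hya`, `S_Hyt`, `S_Tpl`, `S_FrU`, `S_SzN`, `S_TrN`; target `S_FrmN`). Most tuples of
every frame are good.

Proof. `A` from `D.S_Lo`. Let `C`, `A₁` be from `S_Lg1U`, `ε' = ε / 6`, `Lf` from `S_VEnd` for `C`, `ε'`, `A₂` from `S_Lg2U` for `Lf`, `ε'`; `K`, `A₃` from
`S_Lg2aU` for `ε'`; `d₀ = K` (`K ≤ 2 ^ K`); `E`, `L₀` from `S_VEnd` for `d₀`; `B = max (3 natDegree (Dlt a) + 73) L₀` (so `L₀ ≤ B (t + r + 2)`). The constant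
is the maximum of the `A₂` of `S_FrU` for `A₁`, `A₂`, `A₃` and of `S_SzN` for `E`, `B`. Given a frame let `Hy a (d * s)` be from `S_Hya`, `S` and `u` from `HD.S_Irf`
for `d * s`, so there is `Frm`. `D = HD.DD F a (d * s) u S A`, `pi = Lv.pq`, `Irr = HD.irr F S`: `Ax`, `Ax2` (`S_Ax`), `Ax3` (`S_Ax3`), `Ird` (`Lv.S_Irc`), `Arith`
(`Lv.S_Ari`), `Ok` and `Tms` (`S_Okt`, `Lv.S_Tmc`) for all `z ∈ tup`, `Gb = SF.Gb F`: `tau ∈ Gb` and commutators as in `Sm/H/Lv.lean`. `S_VEnd` (hypotheses: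
`S_SzN`, `HD.S_G3`, `S_Lg1U`, `S_Lg2aU` (`2 ^ d₀ < #Dk` implies `K ≤ #Dk`; the sum over a smaller set is smaller), `S_Lg2U`) gives
`(1 - ε) ∏ #(irr (n' i)) ≤ #{z | Dk z Lf = T}`, and `S_TrN`. Finally `#(tpl F n') ≤ ∏ #(irr F (n' i)) = ∏ #(HD.irr ..)` (`S_Tpl` (1)); we may suppose
`ε ≤ 1` (otherwise the left side is `≤ 0`). -/
def S_FrmNx : Prop := S_FrmN

end Pool.Agent.MP72S.Ns
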