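import Pool.Agent.Lib.MP_72e2e6_nt.Sm.NS.SpecH

/-!
# MP_72e2e6_nt, `Sm/NS/SzN`: the size conditions of block N
-/

set_option autoImplicit false

namespace Pool.Agent.MP72S.Ns

open Finset Polynomial MP72e2e6 MP72T Pool.Agent.MP72W

private theorem szn_two {F : Type} [Field F] [Finite F] (h : Nat.card F % 4 = 1) :
    (2 : F) ≠ 0 := by
  have hft : Fintype F := Fintype.ofFinite F
  apply Ring.two_ne_zero
  intro h2
  rw [FiniteField.even_card_iff_char_two] at h2
  rw [Nat.card_eq_fintype_card] at h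
  omega

private theorem szn_dg {F : Type} [Field F] (w : D.Pl F) : dgP w.o ≤ max 1 (Lv.pq w).natDegree := by
  cases w with
  | none => simp [D.Pl.o, dgP]
  | some P => simp [D.Pl.o, dgP, Lv.pq]

private theorem szn_dg_some {F : Type} [Field F] (P : {P : F[X] // P.Monic ∧ Irreducible P}) :
    (Lv.pq (some P : D.Pl F)) = P.1 := rfl

theorem tSzN (spl : SF.S_SplI) (ax : HD.S_Ax) (okt : HD.S_Okt) (irf : HD.S_Irf) (ari : Lv.S_Ari)
    (nir : Lv.S_Nir) (nm2 : S_Nm2) (hyt : S_Hyt) (tpl' : S_Tpl) : S_SzN := by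
  intro F _ _ a A hq hA E B hB
  have h2 : (2 : F) ≠ 0 := szn_two hq
  obtain ⟨C₀, hC₀⟩ := spl F h2 A hA
  obtain ⟨A₂, hA₂⟩ := nm2 E B C₀ 0 0
  refine ⟨A₂, ?_⟩
  intro d u S s A' r n h n' hA' hf
  obtain ⟨hHy, hAdm, hSdeg, hScard, -, -⟩ := hyt a d u S A s A' r n h n' hf
  have hAx : Ax (HD.DD F a (d * s) u S A) := (ax F a (d * s) u S A hHy hf.nu hf.sok hA).1
  have hAri : Lv.Arith (HD.DD F a (d * s) u S A) Lv.pq (HD.irr F S) :=
    ari F a (d * s) u S A hHy hf.nu hf.sok hA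
  obtain ⟨-, -, hirf⟩ := irf F a (d * s) A hHy hA
  obtain ⟨i1, -, -⟩ := hirf S
  have hq2 : 2 ≤ Nat.card F := Finite.one_lt_card
  have h4 := hf.frn.four
  have hle : ∀ i, n' i ≤ n := by
    intro i
    have h5 : n' i ≤ ∑ j, n' j := Finset.single_le_sum (fun j _ => Nat.zero_le _) (mem_univ i)
    have := hf.tot
    omega
  have hn1 : 1 ≤ n := by
    have := hle 0
    have := hf.frn.ge 0
    omega
  obtain ⟨hb1, hb2, -, -⟩ := hA₂ A' hA' (Nat.card F) (om 1 h s) r n h n' hq2 hn1 hf.frn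
  have htpl := (tpl' (HD.DD F a (d * s) u S A) Lv.pq (HD.irr F S) hAx hAri h (r + 1) n'
    hSdeg hf.frn.ge).1
  have hcard : 3 * Fintype.card ((HD.DD F a (d * s) u S A).J (Fin (r + 1))) + 70 ≤
      B * (om 1 h s + r + 2) := by
    have h5 : Fintype.card ((HD.DD F a (d * s) u S A).J (Fin (r + 1))) = #S + (r + 1) := by
      show Fintype.card ({v // v ∈ S} ⊕ Fin (r + 1)) = _
      rw [Fintype.card_sum, Fintype.card_coe, Fintype.card_fin]
    rw [h5]
    have h6 : (3 * (Dlt a).natDegree + 73) * (om 1 h s + r + 2) ≤ B * (om 1 h s + r + 2) :=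
      Nat.mul_le_mul_right _ hB
    nlinarith [Nat.zero_le ((Dlt a).natDegree * (om 1 h s + r))]
  constructor
  case card => exact hcard
  case big =>
    intro i
    have h5 := (nir F).1 (n' i) (le_trans h4 (hf.frn.ge i))
    rw [← htpl i] at h5
    have h6 : Nat.card F ^ n' i ≤ 2 * n' i * #(HD.irr F S (n' i)) := by exact_mod_cast h5
    have h7 : Nat.card F ^ h ≤ Nat.card F ^ n' i := Nat.pow_le_pow_right (by omega) (hf.frn.ge i)
    have h8 : 2 * n' i * #(HD.irr F S (n' i)) ≤ 2 * n * #(HD.irr F S (n' i)) :=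
      Nat.mul_le_mul_right _ (Nat.mul_le_mul_left _ (hle i))
    have h9 : (2 * n) * 2 ^ (4 * (B * (om 1 h s + r + 2))) ≤ (2 * n) * #(HD.irr F S (n' i)) := by
      calc (2 * n) * 2 ^ (4 * (B * (om 1 h s + r + 2)))
          = 2 ^ (4 * (B * (om 1 h s + r + 2))) * (2 * n) := by ring
        _ ≤ Nat.card F ^ h := hb1
        _ ≤ _ := h7.trans (h6.trans h8)
    exact Nat.le_of_mul_le_mul_left h9 (by omega)
  case ok =>
    intro z hz
    exact okt F a (d * s) u S A hHy hf.sok hA r n' hAdm z hz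
  case nS =>
    intro i v hv
    exact ((i1 (n' i) v).1 hv).2
  case few =>
    intro A₀ hA₀ hA₀' H hH hHo hHi hHt
    have hdg : ∀ w ∈ A₀, dgP (D.Pl.o w) ≤ n := by
      intro w hw
      refine (szn_dg w).trans (max_le hn1 ?_)
      rcases hA₀' w hw with h5 | ⟨i, h5⟩
      · have h6 := hSdeg w h5
        have := hf.frn.ge 0
        have := hle 0
        omega
      · have h6 := ((i1 (n' i) w).1 h5).1
        obtain ⟨P, rfl, hP⟩ := h6
        rw [szn_dg_some, hP]
        exact hle i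
    have hsum : ∑ w ∈ A₀, dgP (D.Pl.o w) ≤ (B * (om 1 h s + r + 2)) ^ E * n := by
      calc ∑ w ∈ A₀, dgP (D.Pl.o w) ≤ ∑ w ∈ A₀, n := Finset.sum_le_sum hdg
        _ = #A₀ * n := by rw [Finset.sum_const, smul_eq_mul]
        _ ≤ _ := Nat.mul_le_mul_right _ hA₀
    have hhyp : (C₀ * (H.index * (1 + ∑ w ∈ A₀, dgP (D.Pl.o w)))) ^ C₀ ≤
        Nat.card F ^ n' (Fin.last r) := by
      refine le_trans (Nat.pow_le_pow_left (Nat.mul_le_mul_left _ (Nat.mul_le_mul hHi ?_)) _) hb2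
      omega
    have hfin := hC₀ H hH hHo A₀ hHt (n' (Fin.last r)) hhyp
    have hirr : (HD.irr F S (n' (Fin.last r)) : Set (D.Pl F)) = SF.Irs F (n' (Fin.last r)) := by
      ext w
      rw [Finset.mem_coe, i1]
      constructor
      · exact fun h5 => h5.1
      · intro h5
        refine ⟨h5, fun h6 => ?_⟩
        have h7 := hSdeg w h6
        obtain ⟨P, rfl, hP⟩ := h5
        rw [szn_dg_some, hP] at h7
        have := hf.frn.ge (Fin.last r)
        omega
    have h5 : (({c ∈ HD.irr F S (n' (Fin.last r)) |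
        (HD.DD F a (d * s) u S A).phi c ∈ H} : Set (D.Pl F))) =
        {w ∈ SF.Irs F (n' (Fin.last r)) | (A w).rQ (A w).f ∈ H} := by
      ext w
      constructor
      · rintro ⟨hw, hw2⟩
        refine ⟨?_, hw2⟩
        rw [← hirr]
        exact hw
      · rintro ⟨hw, hw2⟩
        refine ⟨?_, hw2⟩
        rw [← hirr] at hw
        exact hw
    have h6 : #(HD.irr F S (n' (Fin.last r))) = (SF.Irs F (n' (Fin.last r))).ncard := by
      rw [← hirr, Set.ncard_coe_finset]
    show (({c ∈ HD.irr F S (n' (Fin.last r)) |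
        (HD.DD F a (d * s) u S A).phi c ∈ H} : Set (D.Pl F))).ncard * H.relIndex (SF.Gb F) ≤
        2 * #(HD.irr F S (n' (Fin.last r)))
    rw [h5, h6]
    exact hfin

end Pool.Agent.MP72S.Ns
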