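import Pool.Agent.Lib.MP_72e2e6_nt.Sm.NS.SpecH

set_option autoImplicit false

namespace Pool.Agent.MP72S.Ns

open Finset Polynomial MP72e2e6 MP72T

private theorem tplMem {F : Type} [Field F] [Finite F] {n : ℕ} {P : F[X]} :
    P ∈ irr F n ↔ P.Monic ∧ P.natDegree = n ∧ Irreducible P := by
  classical
  rw [irr, Finset.mem_filter, mem_mon]
  tauto

private theorem mem_tpl {F : Type} [Field F] [Finite F] {m : ℕ} {n' : Fin m → ℕ}
    {z : Fin m → F[X]} :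
    z ∈ tpl F n' ↔ (∀ i, z i ∈ irr F (n' i)) ∧ Function.Injective z := by
  classical
  rw [tpl, Finset.mem_filter, Fintype.mem_piFinset]

theorem tTpl : S_Tpl := by
  classical
  intro G N P F _ _ _ _ _ _ D pi Irr hA ar h m n' hS hn
  have hni : ∀ k, ∀ v ∈ Irr k, v ≠ D.inf := by
    intro k v hv hv'
    exact ((ar.irr k v).1 hv).1 (hv' ▸ hA.infS)
  have hmem : ∀ k, ∀ v ∈ Irr k, pi v ∈ irr F k := by
    intro k v hv
    have h1 := ar.mi v (hni k v hv)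
    exact tplMem.2 ⟨h1.1, ((ar.irr k v).1 hv).2, h1.2⟩
  have hsur : ∀ k, h ≤ k → ∀ Q ∈ irr F k, ∃ v ∈ Irr k, pi v = Q := by
    intro k hk Q hQ
    obtain ⟨h1, h2, h3⟩ := tplMem.1 hQ
    obtain ⟨v, -, hv⟩ := ar.sur Q h1 h3
    refine ⟨v, (ar.irr k v).2 ⟨fun hvS => ?_, by rw [hv, h2]⟩, hv⟩
    have := hS v hvS
    rw [hv, h2] at this
    omega
  refine ⟨fun i => ?_, fun p => ?_⟩
  · exact Finset.card_bij (fun v _ => pi v) (fun v hv => hmem _ v hv)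
      (fun v hv w hw hvw => ar.inj v w (hni _ v hv) (hni _ w hw) hvw)
      (fun Q hQ => by
        obtain ⟨v, hv, h1⟩ := hsur _ (hn i) Q hQ
        exact ⟨v, hv, h1⟩)
  · refine Set.ncard_congr (fun z _ => fun i => pi (z i)) ?_ ?_ ?_
    · rintro z ⟨⟨hz1, hz2⟩, hz3⟩
      refine ⟨Finset.mem_coe.2 (mem_tpl.2 ⟨fun i => hmem _ _ (hz1 i), fun i j hij => ?_⟩), hz3⟩
      exact hz2 (ar.inj _ _ (hni _ _ (hz1 i)) (hni _ _ (hz1 j)) hij)
    · rintro z w ⟨⟨hz1, -⟩, -⟩ ⟨⟨hw1, -⟩, -⟩ hzw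
      funext i
      exact ar.inj _ _ (hni _ _ (hz1 i)) (hni _ _ (hw1 i)) (congrFun hzw i)
    · rintro y ⟨hy1, hy2⟩
      obtain ⟨hy3, hy4⟩ := mem_tpl.1 (Finset.mem_coe.1 hy1)
      choose z hz1 hz2 using fun i => hsur _ (hn i) (y i) (hy3 i)
      have hzy : (fun i => pi (z i)) = y := funext hz2
      refine ⟨z, ⟨⟨hz1, fun i j hij => ?_⟩, ?_⟩, hzy⟩
      · refine hy4 ?_
        rw [← hz2 i, ← hz2 j, hij]
      · rw [hzy]
        exact hy2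

end Pool.Agent.MP72S.Ns
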