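import Pool.Agent.Lib.MP_72e2e6_nt.Sm.NS.SpecH

/-!
# MP_72e2e6_nt, `Sm`, block NS: from `Dk z Lf = T` to the twists
-/

set_option autoImplicit false

namespace Pool.Agent.MP72S.Ns

open Finset Polynomial MP72e2e6 MP72T

private theorem tr_fin {P : Type} {m : ℕ} (S : Fin m → Finset P) (p : (Fin m → P) → Prop) :
    {z ∈ tup S | p z}.Finite := by
  classical
  refine (Fintype.piFinset S).finite_toSet.subset ?_
  rintro z ⟨hz, -⟩
  exact Finset.mem_coe.2 (Fintype.mem_piFinset.2 hz.1)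

/-- **TrN**. From `Dk z Lf = T` to the twists. -/
theorem tTrN (h1 : HD.S_Ax) (h2 : HD.S_Cnc) (h3 : HD.S_Irf) (h4 : Lv.S_Ari) (h5 : S_Hyt)
    (h6 : S_Tpl) : S_TrN := by
  intro F _ _ a d u S A s A' r n h n' hf Lf hLf
  obtain ⟨hy, hadm, hsm, -⟩ := h5 a d u S A s A' r n h n' hf
  obtain ⟨ax, -⟩ := h1 F a (d * s) u S A hy hf.nu hf.sok hf.ld
  have ari := h4 F a (d * s) u S A hy hf.nu hf.sok hf.ld
  obtain ⟨-, -, hirf⟩ := h3 F a (d * s) A hy hf.ld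
  obtain ⟨hi1, -, -⟩ := hirf S
  obtain ⟨-, tp⟩ := h6 (HD.DD F a (d * s) u S A) Lv.pq (HD.irr F S) ax ari h (r + 1) n' hsm
    hf.frn.ge
  refine le_of_le_of_eq ?_ (tp fun R => Finite (twd a (d * (s * ∏ i, R i))).toAffine.Point ∧
    MP72Y.ShaTwoFin (twd a (d * (s * ∏ i, R i))) (SeparableClosure (RatFunc F)))
  refine Set.ncard_le_ncard ?_ (tr_fin _ _)
  rintro z ⟨hz, hD⟩
  refine ⟨hz, ?_⟩
  have hR : ∀ i, ∃ P : {P : F[X] // P.Monic ∧ Irreducible P}, z i = some P := by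
    intro i
    obtain ⟨P, hP, -⟩ := ((hi1 (n' i) (z i)).1 (hz.1 i)).1
    exact ⟨P, hP⟩
  choose R hR using hR
  have hzR : z = fun i => some (R i) := funext hR
  subst hzR
  obtain ⟨g1, g2⟩ := h2 F a (d * s) u S A hy hf.nu hf.sok hf.ld r n' hadm R hz Lf hLf hD
  have he : d * (s * ∏ i, Lv.pq (some (R i) : D.Pl F)) = d * s * ∏ k, (R k).1 := by
    rw [mul_assoc]
    rfl
  show Finite (twd a (d * (s * ∏ i, Lv.pq (some (R i) : D.Pl F)))).toAffine.Point ∧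
    MP72Y.ShaTwoFin (twd a (d * (s * ∏ i, Lv.pq (some (R i) : D.Pl F))))
      (SeparableClosure (RatFunc F))
  rw [he]
  exact ⟨g1, MP72Y.shaTwoFin_of _ g2⟩

end Pool.Agent.MP72S.Ns
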